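import Mathlib

/-! A priori estimates for the truncated shell system of the nested-vortex Galerkin model. -/

namespace Pool.Agent.Work.MP_6bf1e5_an.Vortex

open Set Finset

/-- Sum of the first `k` entries. -/
def Sg (y : ℕ → ℝ) (k : ℕ) : ℝ := ∑ j ∈ Finset.range k, y j

/-- The previous entry, zero at `0`. -/
def prev (y : ℕ → ℝ) : ℕ → ℝ
  | 0 => 0
  | k + 1 => y k

@[simp] lemma prev_zero (y : ℕ → ℝ) : prev y 0 = 0 := rfl
@[simp] lemma prev_succ (y : ℕ → ℝ) (k : ℕ) : prev y (k + 1) = y k := rfl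
@[simp] lemma Sg_zero (y : ℕ → ℝ) : Sg y 0 = 0 := by simp [Sg]
lemma Sg_succ (y : ℕ → ℝ) (k : ℕ) : Sg y (k + 1) = Sg y k + y k := by
  simp [Sg, Finset.sum_range_succ]

lemma le_of_deriv_nonneg {f f' : ℝ → ℝ} {a b : ℝ} (hab : a ≤ b) (hc : ContinuousOn f (Icc a b))
    (hd : ∀ t ∈ Ioo a b, HasDerivAt f (f' t) t) (h : ∀ t ∈ Ioo a b, 0 ≤ f' t) : f a ≤ f b := by
  have hm : MonotoneOn f (Icc a b) := by
    apply monotoneOn_of_deriv_nonneg (convex_Icc a b) hc
    · intro t ht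
      rw [interior_Icc] at ht
      exact (hd t ht).differentiableAt.differentiableWithinAt
    · intro t ht
      rw [interior_Icc] at ht
      rw [(hd t ht).deriv]
      exact h t ht
  exact hm (left_mem_Icc.2 hab) (right_mem_Icc.2 hab) hab

lemma le_of_deriv_nonpos {f f' : ℝ → ℝ} {a b : ℝ} (hab : a ≤ b) (hc : ContinuousOn f (Icc a b))
    (hd : ∀ t ∈ Ioo a b, HasDerivAt f (f' t) t) (h : ∀ t ∈ Ioo a b, f' t ≤ 0) : f b ≤ f a := by
  have := le_of_deriv_nonneg (f := fun t => - f t) (f' := fun t => - f' t) hab hc.neg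
    (fun t ht => (hd t ht).neg) (fun t ht => by linarith [h t ht])
  simpa using this

/-- The bootstrap hypotheses on `[0, τ]`. -/
structure Boot (Λ δ γ d A ε : ℝ) (n : ℕ) (τ : ℝ) (y y' I : ℝ → ℕ → ℝ) : Prop where
  hΛ : 1 ≤ Λ
  hγ : 0 ≤ γ
  hγK : γ * (560 * Λ) ≤ 1
  hε : 0 < ε
  hεδ : ε ≤ δ
  hδ1 : δ ≤ Real.exp (-(42 * Λ))
  hδ2 : Real.exp (-(42 * Λ)) / 2 ≤ δ
  hd : 0 ≤ d
  hA : 0 < A
  hτ : 0 ≤ τ
  hdτ : d * τ ≤ 1 / 4
  hdA : 8 * d * Λ ≤ A
  cy : ∀ k, Continuous (fun t => y t k)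
  dy : ∀ k ≤ n, ∀ t ∈ Ioo 0 τ, HasDerivAt (fun t => y t k) (y' t k) t
  dI : ∀ k t, HasDerivAt (fun t => I t k) (y t k) t
  I0 : ∀ k, I 0 k = 0
  y0 : ∀ k ≤ n, y 0 k = ε ^ k * A
  pos : ∀ k ≤ n, ∀ t ∈ Icc 0 τ, 0 < y t k
  zero : ∀ k, n < k → ∀ t, y t k = 0
  rat : ∀ k, ∀ t ∈ Icc 0 τ, y t (k + 1) ≤ 560 * Λ * y t k
  Ile : ∀ k, ∀ t ∈ Icc 0 τ, I t k ≤ 140 * Λ
  up : ∀ k ≤ n, ∀ t ∈ Ioo 0 τ, y' t k ≤ (Sg (y t) k - d * Λ ^ k) * y t k + δ * prev (y t) k ^ 2
  lo : ∀ k ≤ n, ∀ t ∈ Ioo 0 τ,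
    (Sg (y t) k - d * Λ ^ k - γ * y t (k + 1)) * y t k + δ * prev (y t) k ^ 2 ≤ y' t k

namespace Boot

variable {Λ δ γ d A ε : ℝ} {n : ℕ} {τ : ℝ} {y y' I : ℝ → ℕ → ℝ}

lemma nonneg (h : Boot Λ δ γ d A ε n τ y y' I) (k : ℕ) {t : ℝ} (ht : t ∈ Icc 0 τ) :
    0 ≤ y t k := by
  rcases le_or_gt k n with hk | hk
  · exact (h.pos k hk t ht).le
  · rw [h.zero k hk]

lemma cI (h : Boot Λ δ γ d A ε n τ y y' I) (k : ℕ) : Continuous (fun t => I t k) :=
  continuous_iff_continuousAt.2 fun t => (h.dI k t).continuousAt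

lemma I_mono (h : Boot Λ δ γ d A ε n τ y y' I) (k : ℕ) {s t : ℝ} (hs : 0 ≤ s) (hst : s ≤ t)
    (ht : t ≤ τ) : I s k ≤ I t k :=
  le_of_deriv_nonneg (f := fun t => I t k) (f' := fun t => y t k) hst (h.cI k).continuousOn
    (fun u _ => h.dI k u) (fun u hu => h.nonneg k ⟨by linarith [hu.1], by linarith [hu.2]⟩)

lemma I_nonneg (h : Boot Λ δ γ d A ε n τ y y' I) (k : ℕ) {t : ℝ} (ht : t ∈ Icc 0 τ) :
    0 ≤ I t k := by
  have := h.I_mono k le_rfl ht.1 ht.2
  rwa [h.I0] at this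

lemma δ_pos (h : Boot Λ δ γ d A ε n τ y y' I) : 0 < δ := lt_of_lt_of_le h.hε h.hεδ

lemma δ_small (h : Boot Λ δ γ d A ε n τ y y' I) : δ ≤ 1 / 43 := by
  have h1 := h.hδ1
  have h2 : 42 * Λ + 1 ≤ Real.exp (42 * Λ) := Real.add_one_le_exp _
  have h3 := h.hΛ
  rw [Real.exp_neg] at h1
  have h4 : (Real.exp (42 * Λ))⁻¹ ≤ (43 : ℝ)⁻¹ := by
    apply inv_anti₀ (by norm_num) (by linarith)
  linarith

lemma Sg_nonneg (h : Boot Λ δ γ d A ε n τ y y' I) (k : ℕ) {t : ℝ} (ht : t ∈ Icc 0 τ) :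
    0 ≤ Sg (y t) k := Finset.sum_nonneg fun j _ => h.nonneg j ht

lemma cSg (h : Boot Λ δ γ d A ε n τ y y' I) (k : ℕ) : Continuous (fun t => Sg (y t) k) := by
  unfold Sg
  exact continuous_finsetSum _ fun j _ => h.cy j

lemma dpow_mono (h : Boot Λ δ γ d A ε n τ y y' I) (k : ℕ) : d * Λ ^ k ≤ d * Λ ^ (k + 1) := by
  apply mul_le_mul_of_nonneg_left _ h.hd
  exact pow_le_pow_right₀ h.hΛ (Nat.le_succ k)

/-- Upper bound for the derivative of the ratio of consecutive modes. -/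
lemma ratio_deriv (h : Boot Λ δ γ d A ε n τ y y' I) {k : ℕ} (hk : k < n) {t : ℝ}
    (ht : t ∈ Ioo 0 τ) :
    (y' t (k + 1) * y t k - y t (k + 1) * y' t k) / y t k ^ 2 ≤ 2 * y t (k + 1) + δ * y t k := by
  have htc : t ∈ Icc 0 τ := Ioo_subset_Icc_self ht
  have hp := h.pos k hk.le t htc
  have hq := h.pos (k + 1) hk t htc
  have hu := h.up (k + 1) hk t ht
  have hl := h.lo k hk.le t ht
  have hr := h.rat k t htc
  have hdp := h.dpow_mono k
  have hδ := h.δ_pos
  rw [Sg_succ, prev_succ] at hu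
  rw [div_le_iff₀ (by positivity)]
  set p := y t k
  set q := y t (k + 1)
  have hγq : γ * q ≤ p := by
    have := mul_le_mul_of_nonneg_left hr h.hγ
    have h2 := mul_le_mul_of_nonneg_right h.hγK hp.le
    nlinarith
  have h1 : y' t (k + 1) * p ≤ ((Sg (y t) k + p - d * Λ ^ (k + 1)) * q + δ * p ^ 2) * p :=
    mul_le_mul_of_nonneg_right hu hp.le
  have h2 : q * ((Sg (y t) k - d * Λ ^ k - γ * q) * p + δ * prev (y t) k ^ 2) ≤ q * y' t k :=
    mul_le_mul_of_nonneg_left hl hq.le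
  have h3 : 0 ≤ q * (δ * prev (y t) k ^ 2) := by positivity
  have h4 : 0 ≤ q * p * (d * Λ ^ (k + 1) - d * Λ ^ k) := by
    apply mul_nonneg (by positivity); linarith
  have h5 : q * p * (γ * q) ≤ q * p * p := mul_le_mul_of_nonneg_left hγq (by positivity)
  nlinarith

lemma ratio_hasDeriv (h : Boot Λ δ γ d A ε n τ y y' I) {k : ℕ} (hk : k < n) {t : ℝ}
    (ht : t ∈ Ioo 0 τ) :
    HasDerivAt (fun t => y t (k + 1) / y t k)
      ((y' t (k + 1) * y t k - y t (k + 1) * y' t k) / y t k ^ 2) t :=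
  (h.dy (k + 1) hk t ht).div (h.dy k hk.le t ht) (h.pos k hk.le t (Ioo_subset_Icc_self ht)).ne'

lemma ratio_cont (h : Boot Λ δ γ d A ε n τ y y' I) {k : ℕ} (hk : k < n) {a b : ℝ} (ha : 0 ≤ a)
    (hb : b ≤ τ) : ContinuousOn (fun t => y t (k + 1) / y t k) (Icc a b) :=
  (h.cy (k + 1)).continuousOn.div (h.cy k).continuousOn
    fun t ht => (h.pos k hk.le t ⟨by linarith [ht.1], by linarith [ht.2]⟩).ne'

lemma ratio_zero (h : Boot Λ δ γ d A ε n τ y y' I) {k : ℕ} (hk : k < n) :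
    y 0 (k + 1) / y 0 k = ε := by
  rw [h.y0 (k + 1) hk, h.y0 k hk.le]
  have := h.hε
  have := h.hA
  rw [pow_succ]
  field_simp

/-- First improvement: the ratio is bounded by the integrals. -/
lemma ratio_le (h : Boot Λ δ γ d A ε n τ y y' I) (k : ℕ) {t : ℝ} (ht : t ∈ Icc 0 τ) :
    y t (k + 1) ≤ (ε + 2 * I t (k + 1) + δ * I t k) * y t k := by
  rcases lt_or_ge k n with hk | hk
  · have key := le_of_deriv_nonpos (a := 0) (b := t)
      (f := fun t => y t (k + 1) / y t k - 2 * I t (k + 1) - δ * I t k)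
      (f' := fun t => (y' t (k + 1) * y t k - y t (k + 1) * y' t k) / y t k ^ 2
        - 2 * y t (k + 1) - δ * y t k) ht.1
      (((h.ratio_cont hk le_rfl ht.2).sub
        ((h.cI (k + 1)).continuousOn.const_mul 2)).sub ((h.cI k).continuousOn.const_mul δ))
      (fun s hs => ((h.ratio_hasDeriv hk ⟨hs.1, by linarith [hs.2, ht.2]⟩).sub
        ((h.dI (k + 1) s).const_mul 2)).sub ((h.dI k s).const_mul δ))
      (fun s hs => by linarith [h.ratio_deriv hk (t := s) ⟨hs.1, by linarith [hs.2, ht.2]⟩])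
    simp only [h.ratio_zero hk, h.I0] at key
    have hp := h.pos k hk.le t ht
    have : y t (k + 1) / y t k ≤ ε + 2 * I t (k + 1) + δ * I t k := by linarith
    rwa [div_le_iff₀ hp] at this
  · rw [h.zero (k + 1) (by omega)]
    have := h.nonneg k ht
    have := h.I_nonneg k ht
    have := h.I_nonneg (k + 1) ht
    have := h.hε
    have := h.δ_pos
    positivity

lemma ratio_strict (h : Boot Λ δ γ d A ε n τ y y' I) {k : ℕ} (hk : k ≤ n) {t : ℝ}
    (ht : t ∈ Icc 0 τ) : y t (k + 1) < 560 * Λ * y t k := by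
  have h1 := h.ratio_le k ht
  have h2 := h.Ile k t ht
  have h3 := h.Ile (k + 1) t ht
  have h4 := h.δ_small
  have h5 := h.hεδ
  have h6 := h.hΛ
  have h7 := h.pos k hk t ht
  have h8 := h.I_nonneg k ht
  have h9 : δ * I t k ≤ 140 * Λ := by nlinarith [h.δ_pos]
  have : ε + 2 * I t (k + 1) + δ * I t k < 560 * Λ := by linarith
  nlinarith

/-- Second improvement: while `I k ≤ J` the next mode is tiny. -/
lemma ratio_tiny (h : Boot Λ δ γ d A ε n τ y y' I) (k : ℕ) {t : ℝ} (ht : t ∈ Icc 0 τ)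
    (hI : I t k ≤ 14 * Λ) : y t (k + 1) ≤ 1 / (14 * Λ) * y t k := by
  have hΛ := h.hΛ
  rcases lt_or_ge k n with hk | hk
  · have key := le_of_deriv_nonpos (a := 0) (b := t)
      (f := fun t => (y t (k + 1) / y t k + δ / 2) * Real.exp (-(2 * I t k)))
      (f' := fun t => (y' t (k + 1) * y t k - y t (k + 1) * y' t k) / y t k ^ 2
          * Real.exp (-(2 * I t k))
        + (y t (k + 1) / y t k + δ / 2) * (Real.exp (-(2 * I t k)) * (-(2 * y t k)))) ht.1
      (((h.ratio_cont hk le_rfl ht.2).add continuousOn_const).mul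
        (((h.cI k).const_mul 2).neg.rexp.continuousOn))
      (fun s hs => ((h.ratio_hasDeriv hk ⟨hs.1, by linarith [hs.2, ht.2]⟩).add_const _).mul
        (((h.dI k s).const_mul 2).neg.exp))
      (fun s hs => by
        have hs' : s ∈ Ioo 0 τ := ⟨hs.1, by linarith [hs.2, ht.2]⟩
        have h1 := h.ratio_deriv hk hs'
        have hp := h.pos k hk.le s (Ioo_subset_Icc_self hs')
        have he := Real.exp_pos (-(2 * I s k))
        have h2 : y s (k + 1) / y s k * y s k = y s (k + 1) := by field_simp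
        have h3 := mul_le_mul_of_nonneg_right h1 he.le
        have h4 : (y s (k + 1) / y s k + δ / 2) * (Real.exp (-(2 * I s k)) * (-(2 * y s k)))
            = -((2 * y s (k + 1) + δ * y s k) * Real.exp (-(2 * I s k))) := by
          rw [← h2]; field_simp
        linarith)
    simp only [h.ratio_zero hk, h.I0, mul_zero, neg_zero, Real.exp_zero, mul_one] at key
    have hp := h.pos k hk.le t ht
    have hδ := h.δ_pos
    have he := Real.exp_pos (-(2 * I t k))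
    have h1 : y t (k + 1) / y t k + δ / 2 ≤ (ε + δ / 2) * Real.exp (2 * I t k) := by
      have := mul_le_mul_of_nonneg_right key (Real.exp_pos (2 * I t k)).le
      rwa [mul_assoc, ← Real.exp_add, neg_add_cancel, Real.exp_zero, mul_one] at this
    have h2 : Real.exp (2 * I t k) ≤ Real.exp (28 * Λ) := Real.exp_le_exp.2 (by linarith)
    have h3 : (ε + δ / 2) * Real.exp (2 * I t k) ≤ 3 / 2 * δ * Real.exp (28 * Λ) := by
      apply mul_le_mul (by linarith [h.hεδ]) h2 (Real.exp_pos _).le (by positivity)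
    have h4 : δ * Real.exp (28 * Λ) ≤ Real.exp (-(14 * Λ)) := by
      have := mul_le_mul_of_nonneg_right h.hδ1 (Real.exp_pos (28 * Λ)).le
      rw [← Real.exp_add, show -(42 * Λ) + 28 * Λ = -(14 * Λ) by ring] at this
      exact this
    have h5 : 3 / 2 * Real.exp (-(14 * Λ)) ≤ 1 / (14 * Λ) := by
      have h6 := Real.quadratic_le_exp_of_nonneg (x := 14 * Λ) (by positivity)
      rw [Real.exp_neg, le_div_iff₀ (by positivity)]
      have h7 : (Real.exp (14 * Λ))⁻¹ * (3 / 2 * (14 * Λ)) ≤ 1 := by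
        rw [inv_mul_le_iff₀ (Real.exp_pos _)]
        nlinarith
      linarith
    have : y t (k + 1) / y t k ≤ 1 / (14 * Λ) := by linarith
    rwa [div_le_iff₀ hp] at this
  · rw [h.zero (k + 1) (by omega)]
    have := h.nonneg k ht
    positivity

lemma I_next_small (h : Boot Λ δ γ d A ε n τ y y' I) (k : ℕ) {t : ℝ} (ht : t ∈ Icc 0 τ)
    (hI : I t k ≤ 14 * Λ) : I t (k + 1) ≤ 1 := by
  have hΛ := h.hΛ
  have key := le_of_deriv_nonpos (a := 0) (b := t)
    (f := fun t => I t (k + 1) - 1 / (14 * Λ) * I t k)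
    (f' := fun t => y t (k + 1) - 1 / (14 * Λ) * y t k) ht.1
    (((h.cI (k + 1)).sub ((h.cI k).const_mul _)).continuousOn)
    (fun s _ => (h.dI (k + 1) s).sub ((h.dI k s).const_mul _))
    (fun s hs => by
      have hs' : s ∈ Icc 0 τ := ⟨hs.1.le, by linarith [hs.2, ht.2]⟩
      have := h.ratio_tiny k hs' ((h.I_mono k hs.1.le hs.2.le ht.2).trans hI)
      linarith)
  simp only [h.I0] at key
  have h1 : 1 / (14 * Λ) * I t k ≤ 1 / (14 * Λ) * (14 * Λ) :=
    mul_le_mul_of_nonneg_left hI (by positivity)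
  have h2 : 1 / (14 * Λ) * (14 * Λ) = 1 := by field_simp
  linarith

/-- Derivative bound for the partial sums. -/
lemma Sg_deriv (h : Boot Λ δ γ d A ε n τ y y' I) {k : ℕ} (hk : k ≤ n) {t : ℝ} (ht : t ∈ Ioo 0 τ) :
    Sg (y' t) (k + 1) ≤ Sg (y t) k * Sg (y t) (k + 1) := by
  have htc : t ∈ Icc 0 τ := Ioo_subset_Icc_self ht
  have hδ := h.δ_pos
  have hδ' := h.δ_small
  have main : ∀ k ≤ n, Sg (y' t) (k + 1) + y t k ^ 2 ≤ Sg (y t) k * Sg (y t) (k + 1)
      + y t k ^ 2 ∧ Sg (y' t) (k + 1) + y t k ^ 2 ≤ Sg (y t) (k + 1) ^ 2 := by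
    intro k
    induction k with
    | zero =>
      intro hk
      have hu := h.up 0 hk t ht
      have hp := h.pos 0 hk t htc
      have hd := h.hd
      simp only [Sg_zero, prev_zero, pow_zero, mul_one] at hu
      have : y' t 0 ≤ 0 := by nlinarith
      simp only [zero_add, Sg_succ, Sg_zero, zero_mul]
      constructor <;> nlinarith
    | succ k ih =>
      intro hk
      have ih2 := (ih (by omega)).2
      have hu := h.up (k + 1) hk t ht
      have hp := h.pos (k + 1) hk t htc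
      have hS := h.Sg_nonneg (k + 1) htc
      have hdp : 0 ≤ d * Λ ^ (k + 1) * y t (k + 1) := by
        have := h.hd
        have := h.hΛ
        positivity
      rw [prev_succ] at hu
      rw [Sg_succ (y' t) (k + 1), Sg_succ (y t) (k + 1)]
      have h1 : δ * y t k ^ 2 ≤ y t k ^ 2 := by nlinarith [sq_nonneg (y t k)]
      constructor <;> nlinarith
  linarith [(main k hk).1]

lemma Sg_hasDeriv (h : Boot Λ δ γ d A ε n τ y y' I) {k : ℕ} (hk : k ≤ n) {t : ℝ}
    (ht : t ∈ Ioo 0 τ) : HasDerivAt (fun t => Sg (y t) (k + 1)) (Sg (y' t) (k + 1)) t := by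
  unfold Sg
  exact HasDerivAt.fun_sum fun j hj => h.dy j (by simp at hj; omega) t ht

lemma exp_γI (h : Boot Λ δ γ d A ε n τ y y' I) (k : ℕ) {t : ℝ} (ht : t ∈ Icc 0 τ) :
    1 ≤ Real.exp (γ * I t k) ∧ Real.exp (γ * I t k) ≤ 4 / 3 := by
  have h1 := h.I_nonneg k ht
  have h2 := h.Ile k t ht
  have h3 := h.hγ
  have h4 := h.hγK
  constructor
  · exact Real.one_le_exp (by positivity)
  · have h5 : γ * I t k ≤ 1 / 4 := by nlinarith
    have h6 : Real.exp (γ * I t k) ≤ Real.exp (1 / 4) := Real.exp_le_exp.2 h5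
    have h7 : -(1 / 4 : ℝ) + 1 ≤ Real.exp (-(1 / 4)) := Real.add_one_le_exp _
    have h8 : Real.exp (1 / 4) * Real.exp (-(1 / 4 : ℝ)) = 1 := by
      rw [← Real.exp_add]; simp
    nlinarith [Real.exp_pos (1 / 4 : ℝ)]

/-- A uniform positive lower bound. -/
lemma lower (h : Boot Λ δ γ d A ε n τ y y' I) {k : ℕ} (hk : k ≤ n) {t : ℝ} (ht : t ∈ Icc 0 τ) :
    ε ^ k * A ≤ y t k * Real.exp (d * Λ ^ k * t) * (4 / 3) := by
  have key := le_of_deriv_nonneg (a := 0) (b := t)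
    (f := fun t => y t k * Real.exp (d * Λ ^ k * t + γ * I t (k + 1)))
    (f' := fun t => y' t k * Real.exp (d * Λ ^ k * t + γ * I t (k + 1))
      + y t k * (Real.exp (d * Λ ^ k * t + γ * I t (k + 1)) * (d * Λ ^ k * 1 + γ * y t (k + 1))))
    ht.1
    ((h.cy k).mul (((continuous_id.const_mul _).add
      ((h.cI (k + 1)).const_mul γ)).rexp)).continuousOn
    (fun s hs => (h.dy k hk s ⟨hs.1, by linarith [hs.2, ht.2]⟩).mul
      ((((hasDerivAt_id s).const_mul _).add ((h.dI (k + 1) s).const_mul γ)).exp))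
    (fun s hs => by
      have hs' : s ∈ Ioo 0 τ := ⟨hs.1, by linarith [hs.2, ht.2]⟩
      have hl := h.lo k hk s hs'
      have hp := h.pos k hk s (Ioo_subset_Icc_self hs')
      have hS := h.Sg_nonneg k (Ioo_subset_Icc_self hs')
      have he := Real.exp_pos (d * Λ ^ k * s + γ * I s (k + 1))
      have hδ := h.δ_pos
      have h1 : 0 ≤ y' s k + y s k * (d * Λ ^ k * 1 + γ * y s (k + 1)) := by
        have : 0 ≤ δ * prev (y s) k ^ 2 := by positivity
        nlinarith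
      have := mul_nonneg h1 he.le
      nlinarith)
  simp only [h.I0, mul_zero, add_zero, Real.exp_zero, mul_one, h.y0 k hk] at key
  rw [Real.exp_add] at key
  have h1 := (h.exp_γI (k + 1) ht).2
  have hp := h.pos k hk t ht
  have he := Real.exp_pos (d * Λ ^ k * t)
  have := mul_le_mul_of_nonneg_left h1 (mul_pos hp he).le
  linarith

lemma y0_lower (h : Boot Λ δ γ d A ε n τ y y' I) {t : ℝ} (ht : t ∈ Icc 0 τ) :
    A / 2 ≤ y t 0 := by
  have h1 := h.lower (Nat.zero_le n) ht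
  simp only [pow_zero, one_mul, mul_one] at h1
  have h2 : d * t ≤ 1 / 4 := le_trans (mul_le_mul_of_nonneg_left ht.2 h.hd) h.hdτ
  have h6 : Real.exp (d * t) ≤ Real.exp (1 / 4) := Real.exp_le_exp.2 h2
  have h7 : -(1 / 4 : ℝ) + 1 ≤ Real.exp (-(1 / 4)) := Real.add_one_le_exp _
  have h8 : Real.exp (1 / 4) * Real.exp (-(1 / 4 : ℝ)) = 1 := by
    rw [← Real.exp_add]; simp
  have h9 : Real.exp (d * t) ≤ 4 / 3 := by nlinarith [Real.exp_pos (1 / 4 : ℝ)]
  have hp := h.pos 0 (Nat.zero_le n) t ht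
  nlinarith

lemma y0_upper (h : Boot Λ δ γ d A ε n τ y y' I) {t : ℝ} (ht : t ∈ Icc 0 τ) : y t 0 ≤ A := by
  have key := le_of_deriv_nonpos (a := 0) (b := t) (f := fun t => y t 0) (f' := fun t => y' t 0)
    ht.1 (h.cy 0).continuousOn
    (fun s hs => h.dy 0 (Nat.zero_le n) s ⟨hs.1, by linarith [hs.2, ht.2]⟩)
    (fun s hs => by
      have hs' : s ∈ Ioo 0 τ := ⟨hs.1, by linarith [hs.2, ht.2]⟩
      have hu := h.up 0 (Nat.zero_le n) s hs'
      have hp := h.pos 0 (Nat.zero_le n) s (Ioo_subset_Icc_self hs')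
      have hd := h.hd
      simp only [Sg_zero, prev_zero, pow_zero, mul_one] at hu
      nlinarith)
  simpa [h.y0 0 (Nat.zero_le n)] using key

lemma upper (h : Boot Λ δ γ d A ε n τ y y' I) (k : ℕ) {t : ℝ} (ht : t ∈ Icc 0 τ) :
    y t k ≤ (560 * Λ) ^ k * A := by
  induction k with
  | zero => simpa using h.y0_upper ht
  | succ k ih =>
    have h1 := h.rat k t ht
    have h2 := h.hΛ
    have := mul_le_mul_of_nonneg_left ih (show 0 ≤ 560 * Λ by positivity)
    rw [pow_succ]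
    linarith

/-- The inductive claim at level `k`. -/
def Claim (Λ A τ : ℝ) (y I : ℝ → ℕ → ℝ) (k : ℕ) : Prop :=
  ∀ t ∈ Icc 0 τ, 7 * Λ ≤ I t k → A / 2 * Λ ^ k ≤ y t k ∧ Sg (y t) k ≤ y t k

lemma exists_time (h : Boot Λ δ γ d A ε n τ y y' I) (k : ℕ) {t c : ℝ} (ht : t ∈ Icc 0 τ)
    (hc0 : 0 ≤ c) (hc : c ≤ I t k) : ∃ s ∈ Icc 0 t, I s k = c := by
  have := intermediate_value_Icc ht.1 (h.cI k).continuousOn
  have h2 : c ∈ Icc (I 0 k) (I t k) := by rw [h.I0]; exact ⟨hc0, hc⟩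
  obtain ⟨s, hs, hs2⟩ := this h2
  exact ⟨s, hs, hs2⟩

lemma Sg_pos (h : Boot Λ δ γ d A ε n τ y y' I) {k : ℕ} (hk : k ≤ n) {t : ℝ} (ht : t ∈ Icc 0 τ) :
    0 < Sg (y t) (k + 1) := by
  rw [Sg_succ]
  linarith [h.Sg_nonneg k ht, h.pos k hk t ht]

/-- The weighted ratio of the next mode to the partial sum. -/
noncomputable def Wt (γ : ℝ) (y I : ℝ → ℕ → ℝ) (k : ℕ) (t : ℝ) : ℝ :=
  y t (k + 1) / Sg (y t) (k + 1) * Real.exp (γ * I t (k + 2))

noncomputable def Wt' (γ : ℝ) (y y' I : ℝ → ℕ → ℝ) (k : ℕ) (t : ℝ) : ℝ :=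
  (y' t (k + 1) * Sg (y t) (k + 1) - y t (k + 1) * Sg (y' t) (k + 1)) / Sg (y t) (k + 1) ^ 2
      * Real.exp (γ * I t (k + 2))
    + y t (k + 1) / Sg (y t) (k + 1) * (Real.exp (γ * I t (k + 2)) * (γ * y t (k + 2)))

lemma Wt_hasDeriv (h : Boot Λ δ γ d A ε n τ y y' I) {k : ℕ} (hk : k < n) {t : ℝ}
    (ht : t ∈ Ioo 0 τ) : HasDerivAt (Wt γ y I k) (Wt' γ y y' I k t) t :=
  ((h.dy (k + 1) hk t ht).div (h.Sg_hasDeriv hk.le ht)
    (h.Sg_pos hk.le (Ioo_subset_Icc_self ht)).ne').mul (((h.dI (k + 2) t).const_mul γ).exp)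

lemma Wt_cont (h : Boot Λ δ γ d A ε n τ y y' I) {k : ℕ} (hk : k < n) {a b : ℝ} (ha : 0 ≤ a)
    (hb : b ≤ τ) : ContinuousOn (Wt γ y I k) (Icc a b) :=
  ((h.cy (k + 1)).continuousOn.div (h.cSg (k + 1)).continuousOn
    fun t ht => (h.Sg_pos hk.le ⟨by linarith [ht.1], by linarith [ht.2]⟩).ne').mul
    (((h.cI (k + 2)).const_mul γ).rexp.continuousOn)

lemma Wt_nonneg (h : Boot Λ δ γ d A ε n τ y y' I) {k : ℕ} (hk : k < n) {t : ℝ}
    (ht : t ∈ Icc 0 τ) : 0 ≤ Wt γ y I k t := by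
  have := h.Sg_pos hk.le ht
  have := h.pos (k + 1) hk t ht
  unfold Wt
  positivity

lemma damp_le (h : Boot Λ δ γ d A ε n τ y y' I) (k : ℕ) {x : ℝ} (hx : A / 2 * Λ ^ k ≤ x) :
    4 * (d * Λ ^ (k + 1)) ≤ x := by
  have h1 := h.hdA
  have h2 : 0 ≤ Λ ^ k := pow_nonneg (by linarith [h.hΛ]) k
  have := mul_le_mul_of_nonneg_right h1 h2
  rw [pow_succ]
  nlinarith

lemma Wt'_lower (h : Boot Λ δ γ d A ε n τ y y' I) {k : ℕ} (hk : k < n) {t : ℝ}
    (ht : t ∈ Ioo 0 τ) (hB : A / 2 * Λ ^ k ≤ y t k) (hP : Sg (y t) k ≤ y t k) :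
    3 / 4 * y t k * Wt γ y I k t + δ * y t k / 2 ≤ Wt' γ y y' I k t := by
  have htc : t ∈ Icc 0 τ := Ioo_subset_Icc_self ht
  have hS := h.Sg_pos hk.le htc
  have hp := h.pos k hk.le t htc
  have hq := h.pos (k + 1) hk t htc
  have hl := h.lo (k + 1) hk t ht
  have hd := h.Sg_deriv hk.le ht
  have hdamp := h.damp_le k hB
  have he := h.exp_γI (k + 2) htc
  have hδ := h.δ_pos
  have hSs := Sg_succ (y t) k
  rw [prev_succ] at hl
  unfold Wt Wt'
  set S := Sg (y t) (k + 1)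
  set S0 := Sg (y t) k
  set p := y t k
  set q := y t (k + 1)
  set e := Real.exp (γ * I t (k + 2))
  set g := γ * y t (k + 2)
  set D := d * Λ ^ (k + 1)
  have h1 : ((S - D - g) * q + δ * p ^ 2) * S - q * (S0 * S)
      ≤ y' t (k + 1) * S - q * Sg (y' t) (k + 1) := by
    have a1 := mul_le_mul_of_nonneg_right hl hS.le
    have a2 := mul_le_mul_of_nonneg_left hd hq.le
    linarith
  have h2 : (((S - D - g) * q + δ * p ^ 2) * S - q * (S0 * S)) / S ^ 2
      ≤ (y' t (k + 1) * S - q * Sg (y' t) (k + 1)) / S ^ 2 :=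
    div_le_div_of_nonneg_right h1 (by positivity)
  have h3 : (((S - D - g) * q + δ * p ^ 2) * S - q * (S0 * S)) / S ^ 2
      = q / S * (p - D - g) + δ * p * (p / S) := by
    have : S0 = S - p := by linarith
    rw [this]
    field_simp
    ring
  have h4 : 1 / 2 ≤ p / S := by
    rw [le_div_iff₀ hS]; linarith
  have h5 : 0 ≤ q / S := by positivity
  have h6 := mul_le_mul_of_nonneg_right (h3 ▸ h2) (show 0 ≤ e by linarith [he.1])
  have h7 : δ * p / 2 ≤ δ * p * (p / S) * e := by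
    have b1 : δ * p * (1 / 2) ≤ δ * p * (p / S) := mul_le_mul_of_nonneg_left h4 (by positivity)
    have b2 : δ * p * (p / S) * 1 ≤ δ * p * (p / S) * e :=
      mul_le_mul_of_nonneg_left he.1 (by positivity)
    linarith
  have h8 : q / S * e * (3 / 4 * p) ≤ q / S * e * (p - D) := by
    apply mul_le_mul_of_nonneg_left (by linarith)
    exact mul_nonneg h5 (by linarith [he.1])
  nlinarith

lemma claim_zero (h : Boot Λ δ γ d A ε n τ y y' I) : Claim Λ A τ y I 0 := by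
  intro t ht _
  simp only [pow_zero, mul_one, Sg_zero]
  exact ⟨h.y0_lower ht, h.nonneg 0 ht⟩

lemma claim_succ (h : Boot Λ δ γ d A ε n τ y y' I) {k : ℕ} (hk : k < n)
    (hC : Claim Λ A τ y I k) : Claim Λ A τ y I (k + 1) := by
  intro t ht hI
  have hΛ := h.hΛ
  obtain ⟨t₀, ht₀, hI₀⟩ := h.exists_time (k + 1) ht (c := 2) (by norm_num) (by linarith)
  have ht₀c : t₀ ∈ Icc 0 τ := ⟨ht₀.1, ht₀.2.trans ht.2⟩
  have hbig : 14 * Λ < I t₀ k := by
    by_contra hcon
    have := h.I_next_small k ht₀c (not_lt.1 hcon)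
    linarith
  have hin : ∀ s ∈ Ioo t₀ t, s ∈ Ioo 0 τ := fun s hs =>
    ⟨by linarith [hs.1, ht₀.1], by linarith [hs.2, ht.2]⟩
  have hCs : ∀ s ∈ Ioo t₀ t, A / 2 * Λ ^ k ≤ y s k ∧ Sg (y s) k ≤ y s k := fun s hs => by
    apply hC s (Ioo_subset_Icc_self (hin s hs))
    have := h.I_mono k ht₀.1 hs.1.le (hin s hs).2.le
    linarith
  have he := h.exp_γI (k + 2) ht
  have hq := h.pos (k + 1) hk t ht
  have hB0 : 0 < A / 2 * Λ ^ k := by
    have := h.hA
    positivity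
  constructor
  · have key := le_of_deriv_nonneg (a := t₀) (b := t)
      (f := fun s => y s (k + 1) * Real.exp (γ * I s (k + 2))
        - 3 / 4 * (A / 2 * Λ ^ k) * I s (k + 1))
      (f' := fun s => y' s (k + 1) * Real.exp (γ * I s (k + 2))
        + y s (k + 1) * (Real.exp (γ * I s (k + 2)) * (γ * y s (k + 2)))
        - 3 / 4 * (A / 2 * Λ ^ k) * y s (k + 1)) ht₀.2
      (((h.cy (k + 1)).mul (((h.cI (k + 2)).const_mul γ).rexp)).sub
        ((h.cI (k + 1)).const_mul _)).continuousOn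
      (fun s hs => ((h.dy (k + 1) hk s (hin s hs)).mul
        (((h.dI (k + 2) s).const_mul γ).exp)).sub ((h.dI (k + 1) s).const_mul _))
      (fun s hs => by
        have hs' := hin s hs
        have hsc := Ioo_subset_Icc_self hs'
        have hl := h.lo (k + 1) hk s hs'
        have hqs := h.pos (k + 1) hk s hsc
        have hes := h.exp_γI (k + 2) hsc
        have hd := h.damp_le k (le_refl (A / 2 * Λ ^ k))
        have hS := h.Sg_nonneg k hsc
        have hδ := h.δ_pos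
        have hBs := (hCs s hs).1
        rw [prev_succ, Sg_succ] at hl
        set B := A / 2 * Λ ^ k
        set q := y s (k + 1)
        set e := Real.exp (γ * I s (k + 2))
        have h1 : 3 / 4 * B * q ≤ y' s (k + 1) + q * (γ * y s (k + 2)) := by
          have : 0 ≤ δ * y s k ^ 2 := by positivity
          have : 3 / 4 * B * q ≤ (Sg (y s) k + y s k - d * Λ ^ (k + 1)) * q :=
            mul_le_mul_of_nonneg_right (by linarith) hqs.le
          nlinarith
        have h2 : 0 ≤ 3 / 4 * B * q := by positivity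
        have h3 := mul_le_mul_of_nonneg_right h1 (show 0 ≤ e by linarith [hes.1])
        have h4 := mul_le_mul_of_nonneg_left hes.1 h2
        nlinarith)
    simp only [hI₀] at key
    have h0 : 0 ≤ y t₀ (k + 1) * Real.exp (γ * I t₀ (k + 2)) :=
      mul_nonneg (h.nonneg _ ht₀c) (Real.exp_pos _).le
    have h1 := mul_le_mul_of_nonneg_left he.2 hq.le
    have h2 : 3 / 4 * (A / 2 * Λ ^ k) * (7 * Λ) ≤ 3 / 4 * (A / 2 * Λ ^ k) * I t (k + 1) :=
      mul_le_mul_of_nonneg_left hI (by positivity)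
    have h3 : (A / 2 * Λ ^ k) * 1 ≤ (A / 2 * Λ ^ k) * Λ := mul_le_mul_of_nonneg_left hΛ hB0.le
    rw [pow_succ]
    nlinarith
  · have key := le_of_deriv_nonneg (a := t₀) (b := t)
      (f := fun s => Wt γ y I k s - 3 / 8 * I s (k + 1))
      (f' := fun s => Wt' γ y y' I k s - 3 / 8 * y s (k + 1)) ht₀.2
      ((h.Wt_cont hk ht₀.1 ht.2).sub ((h.cI (k + 1)).const_mul _).continuousOn)
      (fun s hs => (h.Wt_hasDeriv hk (hin s hs)).sub ((h.dI (k + 1) s).const_mul _))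
      (fun s hs => by
        have hs' := hin s hs
        have hsc := Ioo_subset_Icc_self hs'
        have h1 := h.Wt'_lower hk hs' (hCs s hs).1 (hCs s hs).2
        have hp := h.pos k hk.le s hsc
        have hqs := h.pos (k + 1) hk s hsc
        have hS := h.Sg_pos hk.le hsc
        have hes := h.exp_γI (k + 2) hsc
        have hδ := h.δ_pos
        have h2 : y s (k + 1) / 2 ≤ y s k * Wt γ y I k s := by
          unfold Wt
          have h3 : 1 / 2 ≤ y s k / Sg (y s) (k + 1) := by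
            rw [le_div_iff₀ hS, Sg_succ]; linarith [(hCs s hs).2]
          have h4 : y s k * (y s (k + 1) / Sg (y s) (k + 1) * Real.exp (γ * I s (k + 2)))
              = y s (k + 1) * (y s k / Sg (y s) (k + 1)) * Real.exp (γ * I s (k + 2)) := by
            ring
          rw [h4]
          have h5 := mul_le_mul_of_nonneg_left h3 hqs.le
          have h6 := mul_le_mul_of_nonneg_left hes.1
            (show 0 ≤ y s (k + 1) * (y s k / Sg (y s) (k + 1)) by positivity)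
          linarith
        have : 0 ≤ δ * y s k / 2 := by positivity
        linarith)
    simp only [hI₀] at key
    have h0 := h.Wt_nonneg hk ht₀c
    have hS := h.Sg_pos hk.le ht
    have h1 : Wt γ y I k t ≤ y t (k + 1) / Sg (y t) (k + 1) * (4 / 3) :=
      mul_le_mul_of_nonneg_left he.2 (by positivity)
    have h2 : 1 ≤ y t (k + 1) / Sg (y t) (k + 1) := by linarith
    rwa [le_div_iff₀ hS, one_mul] at h2

lemma claim (h : Boot Λ δ γ d A ε n τ y y' I) : ∀ k ≤ n, Claim Λ A τ y I k := by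
  intro k
  induction k with
  | zero => exact fun _ => h.claim_zero
  | succ k ih => exact fun hk => h.claim_succ hk (ih (by omega))

/-- Fourth improvement: the integrals stay away from the bootstrap threshold. -/
lemma I_strict (h : Boot Λ δ γ d A ε n τ y y' I) {k : ℕ} (hk : k < n) {t : ℝ}
    (ht : t ∈ Icc 0 τ) : I t k < 140 * Λ := by
  have hΛ := h.hΛ
  by_contra hcon
  have hcon := not_lt.1 hcon
  obtain ⟨t₀, ht₀, hI₀⟩ := h.exists_time k ht (c := 7 * Λ) (by positivity) (by linarith)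
  have ht₀c : t₀ ∈ Icc 0 τ := ⟨ht₀.1, ht₀.2.trans ht.2⟩
  have hin : ∀ s ∈ Ioo t₀ t, s ∈ Ioo 0 τ := fun s hs =>
    ⟨by linarith [hs.1, ht₀.1], by linarith [hs.2, ht.2]⟩
  have hCs : ∀ s ∈ Ioo t₀ t, A / 2 * Λ ^ k ≤ y s k ∧ Sg (y s) k ≤ y s k := fun s hs => by
    apply h.claim k hk.le s (Ioo_subset_Icc_self (hin s hs))
    have := h.I_mono k ht₀.1 hs.1.le (hin s hs).2.le
    linarith
  have key := le_of_deriv_nonneg (a := t₀) (b := t)
    (f := fun s => (Wt γ y I k s + 2 * δ / 3) * Real.exp (-(3 / 4 * I s k)))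
    (f' := fun s => Wt' γ y y' I k s * Real.exp (-(3 / 4 * I s k))
      + (Wt γ y I k s + 2 * δ / 3) * (Real.exp (-(3 / 4 * I s k)) * (-(3 / 4 * y s k)))) ht₀.2
    (((h.Wt_cont hk ht₀.1 ht.2).add continuousOn_const).mul
      ((h.cI k).const_mul _).neg.rexp.continuousOn)
    (fun s hs => ((h.Wt_hasDeriv hk (hin s hs)).add_const _).mul
      (((h.dI k s).const_mul _).neg.exp))
    (fun s hs => by
      have h1 := h.Wt'_lower hk (hin s hs) (hCs s hs).1 (hCs s hs).2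
      have he := Real.exp_pos (-(3 / 4 * I s k))
      have := mul_le_mul_of_nonneg_right h1 he.le
      nlinarith)
  simp only [hI₀] at key
  have h0 := h.Wt_nonneg hk ht₀c
  have hδ := h.δ_pos
  have hδ' := h.δ_small
  have hW : Wt γ y I k t ≤ 560 * Λ * (4 / 3) := by
    unfold Wt
    have hS := h.Sg_pos hk.le ht
    have hq := h.pos (k + 1) hk t ht
    have h1 : y t (k + 1) / Sg (y t) (k + 1) ≤ 560 * Λ := by
      rw [div_le_iff₀ hS, Sg_succ]
      have := h.rat k t ht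
      have := mul_nonneg (show 0 ≤ 560 * Λ by positivity) (h.Sg_nonneg k ht)
      nlinarith
    exact mul_le_mul h1 (h.exp_γI (k + 2) ht).2 (Real.exp_pos _).le (by positivity)
  have h1 : Real.exp (-(3 / 4 * I t k)) ≤ Real.exp (-(105 * Λ)) :=
    Real.exp_le_exp.2 (by linarith)
  have h2 : (Wt γ y I k t + 2 * δ / 3) * Real.exp (-(3 / 4 * I t k))
      ≤ (750 * Λ) * Real.exp (-(105 * Λ)) :=
    mul_le_mul (by linarith) h1 (Real.exp_pos _).le (by positivity)
  have h3 : Real.exp (-(42 * Λ)) / 3 * Real.exp (-(3 / 4 * (7 * Λ)))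
      ≤ (Wt γ y I k t₀ + 2 * δ / 3) * Real.exp (-(3 / 4 * (7 * Λ))) :=
    mul_le_mul_of_nonneg_right (by linarith [h.hδ2]) (Real.exp_pos _).le
  have h4 : Real.exp (-(42 * Λ)) * Real.exp (-(3 / 4 * (7 * Λ)))
      = Real.exp (231 / 4 * Λ) * Real.exp (-(105 * Λ)) := by
    rw [← Real.exp_add, ← Real.exp_add]; congr 1; ring
  have h5 : Real.exp (231 / 4 * Λ) * Real.exp (-(105 * Λ))
      ≤ 2250 * Λ * Real.exp (-(105 * Λ)) := by linarith
  have h6 : Real.exp (231 / 4 * Λ) ≤ 2250 * Λ := le_of_mul_le_mul_right h5 (Real.exp_pos _)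
  have h7 := Real.pow_div_factorial_le_exp (231 / 4 * Λ) (by positivity) 3
  have h8 : (231 / 4 * Λ) ^ 3 / (Nat.factorial 3 : ℝ) = (231 / 4) ^ 3 / 6 * Λ ^ 3 := by
    simp [Nat.factorial]; ring
  have h9 : Λ ≤ Λ ^ 3 := by nlinarith [sq_nonneg Λ, mul_self_nonneg (Λ - 1)]
  rw [h8] at h7
  nlinarith

end Boot

end Pool.Agent.Work.MP_6bf1e5_an.Vortex
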