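import Pool.Agent.Work.MP_6bf1e5_an.Vortex.Calc

/-! The building blocks of the vortex profile. -/

namespace Pool.Agent.Work.MP_6bf1e5_an.Vortex

open MeasureTheory Filter Topology
open scoped ContDiff

/-- The coordinate functionals. -/
noncomputable abbrev pr (i : Fin 3) : E →L[ℝ] ℝ := EuclideanSpace.proj i

/-- The strain `diag (-1, 0, 1)`. -/
noncomputable def Sm : E →L[ℝ] E := (pr 2).smulRight (e 2) - (pr 0).smulRight (e 0)

/-- The map `x ↦ (x₃, 0, x₂)`. -/
noncomputable def Mm : E →L[ℝ] E := (pr 2).smulRight (e 0) + (pr 1).smulRight (e 2)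

lemma Sm_apply (x : E) : Sm x = x 2 • e 2 - x 0 • e 0 := by simp [Sm]
lemma Mm_apply (x : E) : Mm x = x 2 • e 0 + x 1 • e 2 := by simp [Mm]
@[simp] lemma Sm_0 (x : E) : Sm x 0 = - x 0 := by simp [Sm_apply]
@[simp] lemma Sm_1 (x : E) : Sm x 1 = 0 := by simp [Sm_apply]
@[simp] lemma Sm_2 (x : E) : Sm x 2 = x 2 := by simp [Sm_apply]
@[simp] lemma Mm_0 (x : E) : Mm x 0 = x 2 := by simp [Mm_apply]
@[simp] lemma Mm_1 (x : E) : Mm x 1 = 0 := by simp [Mm_apply]
@[simp] lemma Mm_2 (x : E) : Mm x 2 = x 1 := by simp [Mm_apply]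

lemma Sm_symm (x y : E) : inner ℝ (Sm x) y = inner ℝ x (Sm y) := by
  simp [inner_eq_sum, Fin.sum_univ_three]

/-- The planar curl of a scalar function. -/
noncomputable def Jc (i j : Fin 3) (g : E → ℝ) (x : E) : E := pd i g x • e j - pd j g x • e i

lemma Jc_contDiff {g : E → ℝ} (hg : ContDiff ℝ ∞ g) (i j : Fin 3) : ContDiff ℝ ∞ (Jc i j g) :=
  ((pd_contDiff hg i).smul contDiff_const).sub ((pd_contDiff hg j).smul contDiff_const)

lemma Jc_dvg {g : E → ℝ} (hg : ContDiff ℝ ∞ g) (i j : Fin 3) (x : E) : dvg (Jc i j g) x = 0 := by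
  have h1 : ∀ l, pd l (Jc i j g) x = pd l (pd i g) x • e j - pd l (pd j g) x • e i := by
    intro l
    have hi := ((pd_contDiff hg i).differentiable (by simp) x).hasFDerivAt
    have hj := ((pd_contDiff hg j).differentiable (by simp) x).hasFDerivAt
    have : fderiv ℝ (Jc i j g) x = _ := ((hi.smul_const (e j)).sub (hj.smul_const (e i))).fderiv
    show fderiv ℝ (Jc i j g) x (e l) = fderiv ℝ (pd i g) x (e l) • e j
      - fderiv ℝ (pd j g) x (e l) • e i
    rw [this]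
    simp
  unfold dvg
  simp only [h1, PiLp.sub_apply, PiLp.smul_apply, PiLp.single_apply, smul_eq_mul,
    mul_ite, mul_one, mul_zero, Finset.sum_sub_distrib, Finset.sum_ite_eq', Finset.mem_univ,
    if_true]
  rw [pd_comm hg, sub_self]

lemma Jc_congr {g h : E → ℝ} {x : E} (hh : g =ᶠ[𝓝 x] h) (i j : Fin 3) :
    Jc i j g x = Jc i j h x := by
  unfold Jc
  rw [(pd_congr hh i).eq_of_nhds, (pd_congr hh j).eq_of_nhds]

/-- The cut-off function. -/
noncomputable def χ : ContDiffBump (0 : E) := ⟨1, 2, one_pos, one_lt_two⟩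

lemma Jc_cut_far (q : E → ℝ) (i j : Fin 3) {x : E} (hx : Jc i j (fun y => χ y * q y) x ≠ 0) :
    ‖x‖ ≤ 2 := by
  by_contra hcon
  apply hx
  have h : (fun y => χ y * q y) =ᶠ[𝓝 x] fun _ => 0 := by
    have ho : IsOpen {y : E | 2 < ‖y‖} := isOpen_lt continuous_const continuous_norm
    filter_upwards [ho.mem_nhds (not_le.1 hcon)] with y hy
    rw [χ.zero_of_le_dist (by simpa [χ] using le_of_lt hy), zero_mul]
  rw [Jc_congr h]
  simp [Jc, pd]

lemma Jc_cut_near (q : E → ℝ) (i j : Fin 3) {x : E} (hx : ‖x‖ < 1) :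
    Jc i j (fun y => χ y * q y) x = Jc i j q x := by
  apply Jc_congr
  filter_upwards [χ.eventuallyEq_one_of_mem_ball (x := x) (by simpa [χ] using hx)] with y hy
  simp [hy]

lemma pr_contDiff (i : Fin 3) : ContDiff ℝ ∞ fun y : E => y i := (pr i).contDiff

lemma pr_hasFDerivAt (i : Fin 3) (x : E) : HasFDerivAt (fun y : E => y i) (pr i) x :=
  (pr i).hasFDerivAt

/-- The compactly supported extension of the strain. -/
noncomputable def A0 : E → E := Jc 0 2 fun y => χ y * (y 0 * y 2)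

/-- The compactly supported extension of the modified strain. -/
noncomputable def B0 (x : E) : E :=
  Jc 0 2 (fun y => χ y * (y 0 * y 2 - 1 / 2 * (y 2 * y 2))) x
    + Jc 1 2 (fun y => χ y * (1 / 2 * (y 1 * y 1))) x

/-- A small vortex. -/
noncomputable def E0 : E → E := Jc 0 1 fun y => χ y * 1

lemma A0_pot : ContDiff ℝ ∞ fun y : E => χ y * (y 0 * y 2) :=
  χ.contDiff.mul ((pr_contDiff 0).mul (pr_contDiff 2))

lemma B0_pot1 : ContDiff ℝ ∞ fun y : E => χ y * (y 0 * y 2 - 1 / 2 * (y 2 * y 2)) :=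
  χ.contDiff.mul (((pr_contDiff 0).mul (pr_contDiff 2)).sub
    (contDiff_const.mul ((pr_contDiff 2).mul (pr_contDiff 2))))

lemma B0_pot2 : ContDiff ℝ ∞ fun y : E => χ y * (1 / 2 * (y 1 * y 1)) :=
  χ.contDiff.mul (contDiff_const.mul ((pr_contDiff 1).mul (pr_contDiff 1)))

lemma E0_pot : ContDiff ℝ ∞ fun y : E => χ y * 1 := χ.contDiff.mul contDiff_const

lemma A0_contDiff : ContDiff ℝ ∞ A0 := Jc_contDiff A0_pot _ _
lemma B0_contDiff : ContDiff ℝ ∞ B0 := (Jc_contDiff B0_pot1 _ _).add (Jc_contDiff B0_pot2 _ _)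
lemma E0_contDiff : ContDiff ℝ ∞ E0 := Jc_contDiff E0_pot _ _

lemma A0_dvg (x : E) : dvg A0 x = 0 := Jc_dvg A0_pot _ _ x
lemma B0_dvg (x : E) : dvg B0 x = 0 := by
  have := dvg_add ((Jc_contDiff B0_pot1 0 2).differentiable (by simp))
    ((Jc_contDiff B0_pot2 1 2).differentiable (by simp)) x
  rw [Jc_dvg B0_pot1, Jc_dvg B0_pot2, add_zero] at this
  exact this
lemma E0_dvg (x : E) : dvg E0 x = 0 := Jc_dvg E0_pot _ _ x

lemma A0_far {x : E} (hx : A0 x ≠ 0) : ‖x‖ ≤ 2 := Jc_cut_far _ _ _ hx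
lemma E0_far {x : E} (hx : E0 x ≠ 0) : ‖x‖ ≤ 2 := Jc_cut_far _ _ _ hx
lemma B0_far {x : E} (hx : B0 x ≠ 0) : ‖x‖ ≤ 2 := by
  by_contra hcon
  apply hx
  unfold B0
  rw [not_not.1 (mt (Jc_cut_far _ 0 2) hcon), not_not.1 (mt (Jc_cut_far _ 1 2) hcon), add_zero]

lemma A0_near {x : E} (hx : ‖x‖ < 1) : A0 x = Sm x := by
  unfold A0
  rw [Jc_cut_near _ _ _ hx]
  have h := ((pr_hasFDerivAt 0 x).mul (pr_hasFDerivAt 2 x)).fderiv
  have h' : fderiv ℝ (fun y : E => y 0 * y 2) x = x 0 • pr 2 + x 2 • pr 0 := h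
  simp [Jc, pd, h', Sm_apply]

lemma B0_near {x : E} (hx : ‖x‖ < 1) : B0 x = (Sm + Mm) x := by
  unfold B0
  rw [Jc_cut_near _ _ _ hx, Jc_cut_near _ _ _ hx]
  have h1 : fderiv ℝ (fun y : E => y 0 * y 2 - 1 / 2 * (y 2 * y 2)) x
      = (x 0 • pr 2 + x 2 • pr 0) - (1 / 2 : ℝ) • (x 2 • pr 2 + x 2 • pr 2) :=
    (((pr_hasFDerivAt 0 x).mul (pr_hasFDerivAt 2 x)).sub
      (((pr_hasFDerivAt 2 x).mul (pr_hasFDerivAt 2 x)).const_mul (1 / 2))).fderiv
  have h2 : fderiv ℝ (fun y : E => 1 / 2 * (y 1 * y 1)) x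
      = (1 / 2 : ℝ) • (x 1 • pr 1 + x 1 • pr 1) :=
    (((pr_hasFDerivAt 1 x).mul (pr_hasFDerivAt 1 x)).const_mul (1 / 2)).fderiv
  ext i
  simp only [Jc, pd, h1, h2]
  fin_cases i <;> simp <;> ring

lemma compact_of_far {F : Type} [Zero F] {u : E → F} {R : ℝ} (h : ∀ x, u x ≠ 0 → ‖x‖ ≤ R) :
    HasCompactSupport u :=
  HasCompactSupport.intro (isCompact_closedBall (0 : E) R) fun x hx => by
    by_contra hcon
    exact hx (mem_closedBall_zero_iff.2 (h x hcon))

lemma E0_compact : HasCompactSupport E0 := compact_of_far fun _ => E0_far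

lemma E0_apply (x : E) : E0 x = pd 0 χ x • e 1 - pd 1 χ x • e 0 := by simp [E0, Jc]

lemma E0_2 (x : E) : E0 x 2 = 0 := by simp [E0_apply]

lemma E0_strain (x : E) : inner ℝ (Sm (E0 x)) (E0 x) = - pd 1 χ x ^ 2 := by
  simp [inner_eq_sum, Fin.sum_univ_three, E0_apply]
  ring

lemma t_pos : 0 < ∫ x, pd 1 χ x ^ 2 := by
  have hc : Continuous (pd 1 χ) := pd_continuous χ.contDiff 1
  have hex : ∃ x, pd 1 χ x ≠ 0 := by
    by_contra hcon
    push Not at hcon
    have hd : ∀ s : ℝ, HasDerivAt (fun s : ℝ => χ (s • e 1)) 0 s := by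
      intro s
      have h1 := ((χ.contDiff (n := 1)).differentiable one_ne_zero (s • e 1)).hasFDerivAt
      have h2 : HasDerivAt (fun s : ℝ => s • e 1) (e 1) s := by
        simpa using (hasDerivAt_id s).smul_const (e 1)
      have h3 := h1.comp_hasDerivAt s h2
      have h4 := hcon (s • e 1)
      unfold pd at h4
      rw [h4] at h3
      exact h3
    have h5 := is_const_of_deriv_eq_zero (fun s => (hd s).differentiableAt)
      (fun s => (hd s).deriv) 0 2
    rw [χ.one_of_mem_closedBall (by simp [χ]), χ.zero_of_le_dist (by simp [χ, norm_smul])] at h5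
    exact one_ne_zero h5
  obtain ⟨x, hx⟩ := hex
  exact (hc.pow 2).integral_pos_of_hasCompactSupport_nonneg_nonzero
    (compact_of_zero (pd_compact χ.hasCompactSupport 1) fun x hx => by simp [hx])
    (fun x => sq_nonneg _) (pow_ne_zero 2 hx)

lemma E0_moment (N : E →L[ℝ] E) :
    ∫ x, inner ℝ (N x) (E0 x) = (∫ x, χ x) * (N (e 1) 0 - N (e 0) 1) := by
  have hint : ∀ i j : Fin 3, Integrable fun x => N x j * pd i χ x := fun i j =>
    ((((pr j).comp N).continuous).mul (pd_continuous χ.contDiff i)).integrable_of_hasCompactSupport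
      (compact_of_zero (pd_compact χ.hasCompactSupport i) fun x hx => by simp [hx])
  have key : ∀ i j : Fin 3, ∫ x, N x j * pd i χ x = - ((∫ x, χ x) * N (e i) j) := by
    intro i j
    have hNj : ContDiff ℝ 1 fun x => N x j := ((pr j).comp N).contDiff
    have h := integral_pd (hNj.mul (χ.contDiff (n := 1)))
      (compact_of_zero χ.hasCompactSupport fun x hx => by simp [hx]) i
    have h1 : ∀ x, pd i (fun x => N x j * χ x) x = N x j * pd i χ x + χ x * N (e i) j := by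
      intro x
      have h2 : HasFDerivAt (fun x => N x j) ((pr j).comp N) x := ((pr j).comp N).hasFDerivAt
      have h3 : fderiv ℝ (fun x => N x j * χ x) x = _ :=
        (h2.mul ((χ.contDiff (n := 1)).differentiable one_ne_zero x).hasFDerivAt).fderiv
      unfold pd
      rw [h3]
      simp
    simp_rw [h1] at h
    rw [integral_add (hint i j) (χ.integrable.mul_const _), integral_mul_const] at h
    linarith
  have h1 : ∀ x, inner ℝ (N x) (E0 x) = N x 1 * pd 0 χ x - N x 0 * pd 1 χ x := by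
    intro x
    simp [inner_eq_sum, Fin.sum_univ_three, E0_apply]
    ring
  simp_rw [h1]
  rw [integral_sub (hint 0 1) (hint 1 0), key, key]
  ring

end Pool.Agent.Work.MP_6bf1e5_an.Vortex
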