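import Pool.Agent.Work.MP_6bf1e5_an.Vortex.Limit

/-! Blow-up and uniqueness for the infinite shell system. -/

namespace Pool.Agent.Work.MP_6bf1e5_an.Vortex

open Set Filter Topology

namespace LimSol

variable {Λ δ ρ d A τ : ℝ} {Y : ℝ → ℕ → ℝ}

lemma dI (h : LimSol Λ δ ρ d A τ Y) (k : ℕ) (t : ℝ) : HasDerivAt (fun t => Iof Y t k) (Y t k) t :=
  ((h.cY k).integral_hasStrictDerivAt 0 t).hasDerivAt

lemma cI (h : LimSol Λ δ ρ d A τ Y) (k : ℕ) : Continuous (fun t => Iof Y t k) :=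
  continuous_iff_continuousAt.2 fun t => (h.dI k t).continuousAt

lemma I_mono (h : LimSol Λ δ ρ d A τ Y) (k : ℕ) {s t : ℝ} (hst : s ≤ t) :
    Iof Y s k ≤ Iof Y t k :=
  le_of_deriv_nonneg (f := fun t => Iof Y t k) (f' := fun t => Y t k) hst (h.cI k).continuousOn
    (fun u _ => h.dI k u) (fun u _ => (h.bd u k).1)

lemma I_zero (k : ℕ) : Iof Y 0 k = 0 := by simp [Iof]

lemma I_half (h : LimSol Λ δ ρ d A τ Y) (k : ℕ) {t : ℝ} (ht : t ∈ Ico 0 τ)
    (hI : Iof Y t k < 14 * Λ) : Iof Y t (k + 1) ≤ Iof Y t k / 2 := by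
  have key := le_of_deriv_nonpos (a := 0) (b := t)
    (f := fun t => Iof Y t (k + 1) - Iof Y t k / 2) (f' := fun t => Y t (k + 1) - Y t k / 2) ht.1
    ((h.cI (k + 1)).sub ((h.cI k).div_const 2)).continuousOn
    (fun s _ => (h.dI (k + 1) s).sub ((h.dI k s).div_const 2))
    (fun s hs => by
      have := h.half k s ⟨hs.1.le, hs.2.trans ht.2⟩ (lt_of_le_of_lt (h.I_mono k hs.2.le) hI)
      linarith)
  simp only [I_zero] at key
  linarith

lemma exists_sigma (h : LimSol Λ δ ρ d A τ Y) (hΛ : 1 ≤ Λ) (k : ℕ) :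
    ∃ σ ∈ Ioo 0 τ, Iof Y σ k = 21 / 2 * Λ := by
  have h1 := intermediate_value_Icc h.hτ (h.cI k).continuousOn
  have h2 := h.big k
  obtain ⟨σ, hσ, hσ2⟩ := h1 (show 21 / 2 * Λ ∈ Icc (Iof Y 0 k) (Iof Y τ k) from
    ⟨by rw [I_zero]; positivity, by linarith⟩)
  simp only at hσ2
  refine ⟨σ, ⟨lt_of_le_of_ne hσ.1 ?_, lt_of_le_of_ne hσ.2 ?_⟩, hσ2⟩
  · rintro rfl
    rw [I_zero] at hσ2
    linarith
  · rintro rfl
    linarith

lemma I_decay (h : LimSol Λ δ ρ d A τ Y) (hΛ : 1 ≤ Λ) {k : ℕ} {t : ℝ} (ht : t ∈ Ico 0 τ)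
    (hI : Iof Y t k ≤ 21 / 2 * Λ) (m : ℕ) : Iof Y t (k + m) ≤ 21 / 2 * Λ * (1 / 2) ^ m := by
  induction m with
  | zero => simpa using hI
  | succ m ih =>
    have h1 : (1 / 2 : ℝ) ^ m ≤ 1 := pow_le_one₀ (by norm_num) (by norm_num)
    have h2 : 21 / 2 * Λ * (1 / 2 : ℝ) ^ m ≤ 21 / 2 * Λ * 1 :=
      mul_le_mul_of_nonneg_left h1 (by positivity)
    have h3 := h.I_half (k + m) ht (by linarith)
    rw [← add_assoc, pow_succ]
    linarith

lemma rapid (h : LimSol Λ δ ρ d A τ Y) (hp : Par Λ δ ρ d A) {k : ℕ} {σ : ℝ} (hσ : σ ∈ Ico 0 τ)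
    (hI : Iof Y σ k ≤ 21 / 2 * Λ) {θ : ℝ} (hθ : 0 < θ) :
    ∃ C, ∀ t ∈ Icc 0 σ, ∀ l, |Y t l| ≤ C * θ ^ l := by
  have hΛ := hp.hΛ
  have hA := hp.hA
  have hδ := hp.δ_pos
  have hδ1 := hp.δ_le_one
  obtain ⟨m₀, hm₀⟩ := exists_pow_lt_of_lt_one (x := θ / (21 * Λ)) (y := (1 / 2 : ℝ))
    (by positivity) (by norm_num)
  have hstep : ∀ t ∈ Icc 0 σ, ∀ m, m₀ ≤ m → Y t (k + m + 1) ≤ θ * Y t (k + m) := by
    intro t ht m hm
    have ht' : t ∈ Ico 0 τ := ⟨ht.1, lt_of_le_of_lt ht.2 hσ.2⟩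
    have hIt : Iof Y t k ≤ 21 / 2 * Λ := (h.I_mono k ht.2).trans hI
    have h1 := h.I_decay hΛ ht' hIt m
    have h2 := h.I_decay hΛ ht' hIt (m + 1)
    have h3 := h.rat (k + m) t ht'
    have h4 : (1 / 2 : ℝ) ^ m ≤ (1 / 2) ^ m₀ := pow_le_pow_of_le_one (by norm_num) (by norm_num) hm
    have h5 : 0 ≤ Iof Y t (k + m) := by
      have := h.I_mono (k + m) ht.1
      rwa [I_zero] at this
    have h6 : 21 * Λ * (1 / 2 : ℝ) ^ m ≤ θ := by
      rw [lt_div_iff₀ (by positivity)] at hm₀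
      nlinarith
    rw [← add_assoc, pow_succ] at h2
    have h7 : 2 * Iof Y t (k + m + 1) + δ * Iof Y t (k + m) ≤ θ := by nlinarith
    exact h3.trans (mul_le_mul_of_nonneg_right h7 (h.bd t _).1)
  set N := k + m₀
  refine ⟨∑ j ∈ Finset.range (N + 1), (560 * Λ) ^ j * A / θ ^ j, fun t ht l => ?_⟩
  set C := ∑ j ∈ Finset.range (N + 1), (560 * Λ) ^ j * A / θ ^ j
  have hlow : ∀ l ≤ N, Y t l ≤ C * θ ^ l := by
    intro l hl
    have h1 : (560 * Λ) ^ l * A / θ ^ l ≤ C :=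
      Finset.single_le_sum (f := fun j => (560 * Λ) ^ j * A / θ ^ j)
        (fun j _ => by positivity) (Finset.mem_range.2 (by omega))
    rw [div_le_iff₀ (by positivity)] at h1
    exact (h.bd t l).2.trans h1
  rw [abs_of_nonneg (h.bd t l).1]
  induction l with
  | zero => exact hlow 0 (Nat.zero_le _)
  | succ l ih =>
    rcases le_or_gt (l + 1) N with hl | hl
    · exact hlow _ hl
    · have h1 := hstep t ht (l - k) (by omega)
      rw [show k + (l - k) = l by omega] at h1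
      have h2 := mul_le_mul_of_nonneg_left ih hθ.le
      rw [pow_succ]
      linarith

end LimSol

/-- A solution of the infinite system that decays rapidly in `k` and blows up at time `T`. -/
structure BlowSol (Λ δ ρ d A T : ℝ) (Y : ℝ → ℕ → ℝ) : Prop where
  hT : 0 < T
  cY : ∀ k, Continuous (fun t => Y t k)
  init : ∀ k, Y 0 k = if k = 0 then A else 0
  ode : ∀ k, ∀ t ∈ Ico 0 T, HasDerivWithinAt (fun t => Y t k) (fld d Λ δ ρ (Y t) k) (Ico 0 T) t
  bd : ∀ t k, |Y t k| ≤ (560 * Λ) ^ k * A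
  rapid : ∀ t₁ < T, ∀ θ > 0, ∃ C, ∀ t ∈ Icc 0 t₁, ∀ k, |Y t k| ≤ C * θ ^ k
  blow : ∀ k, ∃ t ∈ Ico 0 T, A / 2 * Λ ^ k ≤ Y t k

theorem exists_blowSol {Λ δ ρ d A : ℝ} (hp : Par Λ δ ρ d A) : ∃ T Y, BlowSol Λ δ ρ d A T Y := by
  obtain ⟨τ, Y, h⟩ := exists_limSol hp
  have hΛ := hp.hΛ
  choose σ hσ hσI using h.exists_sigma hΛ
  have hmono : ∀ k, σ k < σ (k + 1) := fun k => by
    have h1 := h.I_half k (t := σ k) ⟨(hσ k).1.le, (hσ k).2⟩ (by rw [hσI]; linarith)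
    by_contra hcon
    have h2 := h.I_mono (k + 1) (not_lt.1 hcon)
    rw [hσI] at h1 h2
    linarith
  have hbdd : BddAbove (range σ) := ⟨τ, by rintro _ ⟨k, rfl⟩; exact (hσ k).2.le⟩
  set T := ⨆ k, σ k
  have hσT : ∀ k, σ k < T := fun k => lt_of_lt_of_le (hmono k) (le_ciSup hbdd (k + 1))
  have hTτ : T ≤ τ := ciSup_le fun k => (hσ k).2.le
  have bd' : ∀ t k, |Y t k| ≤ (560 * Λ) ^ k * A := fun t k => by
    rw [abs_of_nonneg (h.bd t k).1]; exact (h.bd t k).2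
  have hT : 0 < T := (hσ 0).1.trans (hσT 0)
  refine ⟨T, Y, hT, h.cY, fun k => ?_, fun k t ht => ?_, bd', fun t₁ ht₁ θ hθ => ?_, fun k => ?_⟩
  · have := h.eqn k 0 ⟨le_rfl, lt_of_lt_of_le hT hTτ⟩
    simpa using this
  · have h1 := (((fld_continuous (d := d) (Λ := Λ) (δ := δ) hp.hρ hp.hq h.cY bd'
      k).integral_hasStrictDerivAt 0 t).hasDerivAt.const_add
      (if k = 0 then A else 0)).hasDerivWithinAt (s := Ico 0 T)
    exact h1.congr_of_mem (fun s hs => h.eqn k s ⟨hs.1, lt_of_lt_of_le hs.2 hTτ⟩) ht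
  · obtain ⟨k, hk⟩ := exists_lt_of_lt_ciSup ht₁
    obtain ⟨C, hC⟩ := h.rapid hp (k := k) ⟨(hσ k).1.le, (hσ k).2⟩ (hσI k).le hθ
    exact ⟨C, fun t ht l => hC t ⟨ht.1, ht.2.trans hk.le⟩ l⟩
  · refine ⟨σ k, ⟨(hσ k).1.le, hσT k⟩, h.low k _ ⟨(hσ k).1.le, (hσ k).2⟩ ?_⟩
    rw [hσI]
    linarith

/-- One step of the weighted Gronwall iteration. -/
lemma damped_le {W f : ℝ → ℝ} {D c M t₁ : ℝ} (hD : 0 ≤ D) (hM : 0 ≤ M)
    (cW : ContinuousOn W (Icc 0 t₁)) (dW : ∀ t ∈ Ioo 0 t₁, HasDerivAt W (-D * W t + f t) t)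
    (h0 : W 0 = 0) (hf : ∀ t ∈ Ioo 0 t₁, f t ≤ c * M * Real.exp (2 * c * t)) :
    ∀ t ∈ Icc 0 t₁, W t ≤ M / 2 * Real.exp (2 * c * t) := by
  intro t ht
  have key := le_of_deriv_nonpos (a := 0) (b := t)
    (f := fun s => Real.exp (D * s) * (W s - M / 2 * Real.exp (2 * c * s)))
    (f' := fun s => Real.exp (D * s) * (D * 1) * (W s - M / 2 * Real.exp (2 * c * s))
      + Real.exp (D * s) * ((-D * W s + f s) - M / 2 * (Real.exp (2 * c * s) * (2 * c * 1)))) ht.1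
    (((continuous_id.const_mul D).rexp.continuousOn).mul
      ((cW.mono (Icc_subset_Icc le_rfl ht.2)).sub
        (((continuous_id.const_mul (2 * c)).rexp.const_mul _).continuousOn)))
    (fun s hs => (((hasDerivAt_id s).const_mul D).exp).mul
      ((dW s ⟨hs.1, by linarith [hs.2, ht.2]⟩).sub
        ((((hasDerivAt_id s).const_mul (2 * c)).exp).const_mul _)))
    (fun s hs => by
      have h1 := hf s ⟨hs.1, by linarith [hs.2, ht.2]⟩
      have h2 := Real.exp_pos (D * s)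
      have h3 := Real.exp_pos (2 * c * s)
      have h4 : 0 ≤ D * (M / 2 * Real.exp (2 * c * s)) := by positivity
      have h5 : D * 1 * (W s - M / 2 * Real.exp (2 * c * s))
          + ((-D * W s + f s) - M / 2 * (Real.exp (2 * c * s) * (2 * c * 1))) ≤ 0 := by
        linarith
      have := mul_nonpos_of_nonneg_of_nonpos h2.le h5
      linarith)
  simp only [mul_zero, Real.exp_zero, h0, mul_one, one_mul] at key
  have h2 := Real.exp_pos (D * t)
  by_contra hcon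
  have := mul_pos h2 (sub_pos.2 (not_le.1 hcon))
  linarith

lemma fld_diff {d Λ δ ρ C m : ℝ} (hδ : |δ| ≤ 1) (hρ : 0 ≤ ρ) (hρ' : ρ ≤ 1 / 4) (hC : 0 ≤ C)
    (hm : 0 ≤ m) {y z : ℕ → ℝ} (hy : ∀ k, |y k| ≤ C * (1 / 2) ^ k) (hz : ∀ k, |z k| ≤ C)
    (hw : ∀ k, |y k - z k| ≤ 2 ^ k * m) (k : ℕ) :
    |fld d Λ δ ρ y k - fld d Λ δ ρ z k + d * Λ ^ k * (y k - z k)| ≤ 9 * C * (2 ^ k * m) := by
  have hy' : ∀ k, |y k| ≤ C := fun k => (hy k).trans (by
    have : (1 / 2 : ℝ) ^ k ≤ 1 := pow_le_one₀ (by norm_num) (by norm_num)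
    nlinarith)
  set M := 2 ^ k * m with hM
  have hM0 : 0 ≤ M := by positivity
  have h1 : |Sg y k| ≤ 2 * C := by
    refine (Finset.abs_sum_le_sum_abs _ _).trans ((Finset.sum_le_sum fun j _ => hy j).trans ?_)
    rw [← Finset.mul_sum]
    have := sum_geometric_two_le k
    nlinarith
  have h2 : |Sg y k - Sg z k| ≤ M := by
    have : ∀ j, |Sg y j - Sg z j| ≤ 2 ^ j * m := by
      intro j
      induction j with
      | zero => simpa using hm
      | succ j ih =>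
        rw [Sg_succ, Sg_succ, pow_succ]
        have := abs_le.1 ih
        have := abs_le.1 (hw j)
        rw [abs_le]; constructor <;> linarith
    exact this k
  have h3 : |Sg y k * y k - Sg z k * z k| ≤ 3 * C * M := by
    have e : Sg y k * y k - Sg z k * z k = Sg y k * (y k - z k) + (Sg y k - Sg z k) * z k := by
      ring
    rw [e]
    refine (abs_add_le _ _).trans ?_
    rw [abs_mul, abs_mul]
    have a1 := mul_le_mul h1 (hw k) (abs_nonneg _) (by positivity)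
    have a2 := mul_le_mul h2 (hz k) (abs_nonneg _) hM0
    linarith
  have hsq : ∀ j, |y j ^ 2 - z j ^ 2| ≤ 2 * C * (2 ^ j * m) := fun j => by
    rw [sq_sub_sq, abs_mul]
    exact mul_le_mul ((abs_add_le _ _).trans (by linarith [hy' j, hz j])) (hw j) (abs_nonneg _)
      (by positivity)
  have h4 : |δ * prev y k ^ 2 - δ * prev z k ^ 2| ≤ C * M := by
    rw [← mul_sub, abs_mul]
    cases k with
    | zero => simp; positivity
    | succ k =>
      have := mul_le_mul hδ (hsq k) (abs_nonneg _) zero_le_one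
      simp only [prev_succ]
      rw [hM, pow_succ 2 k]
      linarith
  have h5 : |δ * ρ * y k * y (k + 1) - δ * ρ * z k * z (k + 1)| ≤ 3 * C * M := by
    have e : δ * ρ * y k * y (k + 1) - δ * ρ * z k * z (k + 1)
        = (δ * ρ) * (y k * (y (k + 1) - z (k + 1)) + (y k - z k) * z (k + 1)) := by ring
    have b1 : |δ * ρ| ≤ 1 := by
      rw [abs_mul, abs_of_nonneg hρ]
      nlinarith [abs_nonneg δ]
    have b2 : |y k * (y (k + 1) - z (k + 1)) + (y k - z k) * z (k + 1)| ≤ 3 * C * M := by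
      refine (abs_add_le _ _).trans ?_
      rw [abs_mul, abs_mul]
      have a1 := mul_le_mul (hy' k) (hw (k + 1)) (abs_nonneg _) hC
      have a2 := mul_le_mul (hw k) (hz (k + 1)) (abs_nonneg _) hM0
      rw [pow_succ] at a1
      linarith
    rw [e, abs_mul]
    have := mul_le_mul b1 b2 (abs_nonneg _) zero_le_one
    linarith
  have h6 : |Rt ρ y k - Rt ρ z k| ≤ 2 * C * M := by
    have hq : ρ * (1 : ℝ) ^ 2 ≤ 1 / 3 := by linarith
    have sy := Rt_summable (b := C) hρ hq (y := y) (k := k) fun j => by simpa using hy' _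
    have sz := Rt_summable (b := C) hρ hq (y := z) (k := k) fun j => by simpa using hz _
    unfold Rt
    rw [← sy.tsum_sub sz]
    have hg : HasSum (fun j : ℕ => C * M * (1 / 2 : ℝ) ^ j) (C * M * 2) :=
      hasSum_geometric_two.mul_left _
    have := tsum_of_norm_bounded hg (f := fun j => ρ ^ (j + 1) * y (k + j + 1) ^ 2
      - ρ ^ (j + 1) * z (k + j + 1) ^ 2) fun j => by
        rw [← mul_sub, Real.norm_eq_abs, abs_mul, abs_of_nonneg (by positivity)]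
        have a1 : ρ ^ (j + 1) ≤ (1 / 4) ^ (j + 1) := pow_le_pow_left₀ hρ hρ' _
        have a2 := mul_le_mul a1 (hsq (k + j + 1)) (abs_nonneg _) (by positivity)
        refine a2.trans (le_of_eq ?_)
        rw [hM, show (1 / 4 : ℝ) = (1 / 2) * (1 / 2) by norm_num, mul_pow, pow_add 2 (k + j),
          pow_add 2 k j]
        have e : (1 / 2 : ℝ) ^ j * 2 ^ j = 1 := by rw [← mul_pow]; simp
        calc (1 / 2 : ℝ) ^ (j + 1) * (1 / 2) ^ (j + 1) * (2 * C * (2 ^ k * 2 ^ j * 2 ^ 1 * m))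
            = ((1 / 2 : ℝ) ^ j * 2 ^ j) * (C * (2 ^ k * m) * (1 / 2) ^ j) := by ring
          _ = C * (2 ^ k * m) * (1 / 2) ^ j := by rw [e, one_mul]
    rw [Real.norm_eq_abs] at this
    linarith
  unfold fld
  have := abs_le.1 h3
  have := abs_le.1 h4
  have := abs_le.1 h5
  have := abs_le.1 h6
  rw [abs_le]
  constructor <;> linarith

/-- Uniqueness in the class of bounded sequences. -/
theorem shell_unique {d Λ δ ρ C t₁ : ℝ} (hd : 0 ≤ d) (hΛ : 0 ≤ Λ) (hδ : |δ| ≤ 1) (hρ : 0 ≤ ρ)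
    (hρ' : ρ ≤ 1 / 4) (hC : 0 < C) {Y Z : ℝ → ℕ → ℝ}
    (cY : ∀ k, ContinuousOn (fun t => Y t k) (Icc 0 t₁))
    (cZ : ∀ k, ContinuousOn (fun t => Z t k) (Icc 0 t₁))
    (dY : ∀ k, ∀ t ∈ Ioo 0 t₁, HasDerivAt (fun t => Y t k) (fld d Λ δ ρ (Y t) k) t)
    (dZ : ∀ k, ∀ t ∈ Ioo 0 t₁, HasDerivAt (fun t => Z t k) (fld d Λ δ ρ (Z t) k) t)
    (h0 : ∀ k, Y 0 k = Z 0 k) (hY : ∀ t ∈ Icc 0 t₁, ∀ k, |Y t k| ≤ C * (1 / 2) ^ k)
    (hZ : ∀ t ∈ Icc 0 t₁, ∀ k, |Z t k| ≤ C) : ∀ t ∈ Icc 0 t₁, ∀ k, Y t k = Z t k := by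
  have main : ∀ j : ℕ, ∀ t ∈ Icc 0 t₁, ∀ k,
      |Y t k - Z t k| ≤ 2 ^ k * (2 * C * (1 / 2) ^ j * Real.exp (2 * (9 * C) * t)) := by
    intro j
    induction j with
    | zero =>
      intro t ht k
      have h1 : (1 / 2 : ℝ) ^ k ≤ 1 := pow_le_one₀ (by norm_num) (by norm_num)
      have h2 : (1 : ℝ) ≤ 2 ^ k := one_le_pow₀ (by norm_num)
      have h3 : 1 ≤ Real.exp (2 * (9 * C) * t) := Real.one_le_exp (by have := ht.1; positivity)
      have h4 : |Y t k - Z t k| ≤ 2 * C := by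
        refine (abs_sub _ _).trans ?_
        have := hY t ht k
        have := hZ t ht k
        nlinarith
      have h5 : 2 * C * 1 ≤ 2 * C * Real.exp (2 * (9 * C) * t) :=
        mul_le_mul_of_nonneg_left h3 (by positivity)
      have h6 := mul_le_mul_of_nonneg_right h2
        (show 0 ≤ 2 * C * Real.exp (2 * (9 * C) * t) by positivity)
      simp only [pow_zero, mul_one]
      linarith
    | succ j ih =>
      intro t ht k
      have hf : ∀ s ∈ Ioo 0 t₁, |fld d Λ δ ρ (Y s) k - fld d Λ δ ρ (Z s) k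
          + d * Λ ^ k * (Y s k - Z s k)|
          ≤ 9 * C * (2 ^ k * (2 * C * (1 / 2) ^ j)) * Real.exp (2 * (9 * C) * s) := fun s hs => by
        have hs' := Ioo_subset_Icc_self hs
        have := fld_diff (d := d) (Λ := Λ) hδ hρ hρ' hC.le (by positivity) (hY s hs') (hZ s hs')
          (ih s hs') k
        linarith
      have h1 := damped_le (W := fun s => Y s k - Z s k) (D := d * Λ ^ k) (c := 9 * C)
        (M := 2 ^ k * (2 * C * (1 / 2) ^ j)) (t₁ := t₁)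
        (f := fun s => fld d Λ δ ρ (Y s) k - fld d Λ δ ρ (Z s) k + d * Λ ^ k * (Y s k - Z s k))
        (by positivity) (by positivity) ((cY k).sub (cZ k))
        (fun s hs => ((dY k s hs).sub (dZ k s hs)).congr_deriv (by ring))
        (by simp [h0]) (fun s hs => (abs_le.1 (hf s hs)).2) t ht
      have h2 := damped_le (W := fun s => Z s k - Y s k) (D := d * Λ ^ k) (c := 9 * C)
        (M := 2 ^ k * (2 * C * (1 / 2) ^ j)) (t₁ := t₁)
        (f := fun s => -(fld d Λ δ ρ (Y s) k - fld d Λ δ ρ (Z s) k + d * Λ ^ k * (Y s k - Z s k)))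
        (by positivity) (by positivity) ((cZ k).sub (cY k))
        (fun s hs => ((dZ k s hs).sub (dY k s hs)).congr_deriv (by ring))
        (by simp [h0]) (fun s hs => by linarith [(abs_le.1 (hf s hs)).1]) t ht
      rw [abs_le, pow_succ]
      constructor <;> linarith
  intro t ht k
  have hlim : Tendsto (fun j : ℕ => 2 ^ k * (2 * C * (1 / 2 : ℝ) ^ j * Real.exp (2 * (9 * C) * t)))
      atTop (𝓝 (2 ^ k * (2 * C * 0 * Real.exp (2 * (9 * C) * t)))) :=
    (((tendsto_pow_atTop_nhds_zero_of_lt_one (by norm_num) (by norm_num)).const_mul _).mul_const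
      _).const_mul _
  simp only [mul_zero, zero_mul] at hlim
  have := ge_of_tendsto' hlim fun j => main j t ht k
  exact sub_eq_zero.1 (abs_nonpos_iff.1 this)

end Pool.Agent.Work.MP_6bf1e5_an.Vortex
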