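import Pool.Agent.Work.MP_6bf1e5_an.Vortex.Defs

/-! Integration by parts on three-dimensional space. -/

namespace Pool.Agent.Work.MP_6bf1e5_an.Vortex

open MeasureTheory Filter Topology
open scoped ContDiff

/-- The standard basis. -/
noncomputable abbrev e (i : Fin 3) : E := EuclideanSpace.single i 1

lemma eq_sum_e (v : E) : v = ∑ i, v i • e i := by
  ext j
  simp [Fin.sum_univ_three]
  fin_cases j <;> simp

lemma clm_apply_eq_sum {F : Type} [NormedAddCommGroup F] [NormedSpace ℝ F] (L : E →L[ℝ] F)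
    (v : E) : L v = ∑ i, v i • L (e i) := by
  conv_lhs => rw [eq_sum_e v]
  simp

lemma inner_eq_sum (v w : E) : inner ℝ v w = ∑ i, v i * w i := by
  simp [PiLp.inner_apply, mul_comm]

lemma two_le_infty : (2 : WithTop ℕ∞) ≤ ∞ := WithTop.coe_le_coe.2 (le_top (a := (2 : ℕ∞)))

lemma one_le_infty : (1 : WithTop ℕ∞) ≤ ∞ := WithTop.coe_le_coe.2 (le_top (a := (1 : ℕ∞)))

lemma compact_of_zero {F G : Type} [Zero F] [Zero G] {u : E → F} {v : E → G}
    (hc : HasCompactSupport u) (h : ∀ x, u x = 0 → v x = 0) : HasCompactSupport v :=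
  hc.mono fun x hx hx' => hx (h x hx')

section
variable {F : Type} [NormedAddCommGroup F] [NormedSpace ℝ F]

lemma pd_contDiff {u : E → F} (hu : ContDiff ℝ ∞ u) (i : Fin 3) : ContDiff ℝ ∞ (pd i u) :=
  (hu.fderiv_right (m := ∞) le_rfl).clm_apply contDiff_const

lemma pd_contDiff_one {u : E → F} (hu : ContDiff ℝ 2 u) (i : Fin 3) : ContDiff ℝ 1 (pd i u) :=
  (hu.fderiv_right (m := 1) le_rfl).clm_apply contDiff_const

lemma pd_continuous {u : E → F} (hu : ContDiff ℝ 1 u) (i : Fin 3) : Continuous (pd i u) :=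
  (hu.continuous_fderiv one_ne_zero).clm_apply continuous_const

lemma pd_compact {u : E → F} (hu : HasCompactSupport u) (i : Fin 3) :
    HasCompactSupport (pd i u) := hu.fderiv_apply ℝ _

lemma pd_congr {u v : E → F} {x : E} (h : u =ᶠ[𝓝 x] v) (i : Fin 3) : pd i u =ᶠ[𝓝 x] pd i v := by
  filter_upwards [h.fderiv (𝕜 := ℝ)] with y hy
  simp only [pd, hy]

lemma pd_comm {g : E → F} (hg : ContDiff ℝ ∞ g) (i j : Fin 3) (x : E) :
    pd i (pd j g) x = pd j (pd i g) x := by
  have h1 : ∀ v w : E, fderiv ℝ (fun y => fderiv ℝ g y v) x w = fderiv ℝ (fderiv ℝ g) x w v := by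
    intro v w
    have hd : DifferentiableAt ℝ (fderiv ℝ g) x :=
      ((hg.fderiv_right (m := ∞) le_rfl).differentiable (by simp)) x
    rw [fderiv_clm_apply hd (differentiableAt_const v)]
    simp
  have h2 := (hg.contDiffAt (x := x)).isSymmSndFDerivAt (by
    simp only [minSmoothness_of_isRCLikeNormedField]; exact two_le_infty)
  unfold pd
  rw [h1, h1]
  exact h2 _ _

end

lemma integral_pd {g : E → ℝ} (hg : ContDiff ℝ 1 g) (hc : HasCompactSupport g) (i : Fin 3) :
    ∫ x, pd i g x = 0 := by
  have h := integral_mul_fderiv_eq_neg_fderiv_mul_of_integrable (μ := (volume : Measure E))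
    (f := fun _ : E => (1 : ℝ)) (g := g) (v := e i) (by simp)
    (by
      simp only [one_mul]
      exact (pd_continuous hg i).integrable_of_hasCompactSupport (pd_compact hc i))
    (by simpa using hg.continuous.integrable_of_hasCompactSupport hc)
    (fun _ _ => differentiableAt_const _) (fun x _ => hg.differentiable one_ne_zero x)
  simpa [pd] using h

lemma pd_coord {u : E → E} {x : E} (hu : DifferentiableAt ℝ u x) (i j : Fin 3) :
    pd i (fun y => u y j) x = pd i u x j := by
  have := ((EuclideanSpace.proj j : E →L[ℝ] ℝ).hasFDerivAt.comp x hu.hasFDerivAt).fderiv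
  unfold pd
  exact congrArg (fun L => L (e i)) this

/-- The divergence theorem for `g • u`. -/
lemma integral_div {g : E → ℝ} {u : E → E} (hg : ContDiff ℝ 1 g) (hu : ContDiff ℝ 1 u)
    (hc : HasCompactSupport fun x => g x • u x) :
    ∫ x, (fderiv ℝ g x (u x) + g x * dvg u x) = 0 := by
  have hi : ∀ i, ContDiff ℝ 1 fun x => g x * u x i := fun i =>
    hg.mul ((EuclideanSpace.proj i : E →L[ℝ] ℝ).contDiff.comp hu)
  have hci : ∀ i, HasCompactSupport fun x => g x * u x i := fun i =>
    hc.comp_left (g := fun v : E => v i) rfl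
  have h1 : ∀ x, fderiv ℝ g x (u x) + g x * dvg u x = ∑ i, pd i (fun x => g x * u x i) x := by
    intro x
    have hgx := hg.differentiable one_ne_zero x
    have hux := hu.differentiable one_ne_zero x
    rw [clm_apply_eq_sum, dvg, Finset.mul_sum, ← Finset.sum_add_distrib]
    refine Finset.sum_congr rfl fun i _ => ?_
    rw [← pd_coord hux]
    unfold pd
    have hi' : DifferentiableAt ℝ (fun y => u y i) x :=
      ((EuclideanSpace.proj i : E →L[ℝ] ℝ).differentiableAt).comp x hux
    rw [fderiv_fun_mul hgx hi']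
    simp
    ring
  simp_rw [h1]
  rw [integral_finsetSum _ fun i _ =>
    (pd_continuous (hi i) i).integrable_of_hasCompactSupport (pd_compact (hci i) i)]
  exact Finset.sum_eq_zero fun i _ => integral_pd (hi i) (hci i) i

lemma integral_fderiv_apply {g : E → ℝ} {u : E → E} (hg : ContDiff ℝ 1 g) (hu : ContDiff ℝ 1 u)
    (hc : HasCompactSupport fun x => g x • u x) (hd : ∀ x, dvg u x = 0) :
    ∫ x, fderiv ℝ g x (u x) = 0 := by
  simpa [hd] using integral_div hg hu hc

lemma integrable_inner_right {v w : E → E} (hv : Continuous v) (hw : Continuous w)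
    (hc : HasCompactSupport w) : Integrable (fun x => inner ℝ (v x) (w x)) := by
  exact (hv.inner hw).integrable_of_hasCompactSupport (compact_of_zero hc fun x hx => by simp [hx])

lemma integrable_inner_left {v w : E → E} (hv : Continuous v) (hw : Continuous w)
    (hc : HasCompactSupport v) : Integrable (fun x => inner ℝ (v x) (w x)) := by
  simpa only [real_inner_comm] using integrable_inner_right hw hv hc

/-- The trilinear form of the Euler nonlinearity, `∫ ⟨(u · ∇) v, w⟩`. -/
noncomputable def tri (u v w : E → E) : ℝ := ∫ x, inner ℝ (fderiv ℝ v x (u x)) (w x)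

lemma tri_antisymm {u v w : E → E} (hu : ContDiff ℝ 1 u) (hv : ContDiff ℝ 1 v)
    (hw : ContDiff ℝ 1 w) (hc : HasCompactSupport u) (hd : ∀ x, dvg u x = 0) :
    tri u v w = - tri u w v := by
  have h := integral_fderiv_apply (g := fun x => inner ℝ (v x) (w x)) (hv.inner ℝ hw) hu
    (compact_of_zero hc fun x hx => by simp [hx]) hd
  have hcomp : ∀ {v : E → E}, HasCompactSupport fun x => fderiv ℝ v x (u x) := fun {v} =>
    compact_of_zero hc fun x hx => by simp [hx]
  simp_rw [fderiv_inner_apply ℝ (hv.differentiable one_ne_zero _)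
    (hw.differentiable one_ne_zero _)] at h
  rw [integral_add (integrable_inner_right hv.continuous
      ((hw.continuous_fderiv one_ne_zero).clm_apply hu.continuous) hcomp)
    (integrable_inner_left ((hv.continuous_fderiv one_ne_zero).clm_apply hu.continuous)
      hw.continuous hcomp)] at h
  unfold tri
  simp_rw [real_inner_comm (w _)] at h
  simp_rw [real_inner_comm (w _), real_inner_comm (v _)] at *
  linarith

/-- A symmetric affine field is a gradient, hence orthogonal to divergence-free fields. -/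
lemma integral_inner_symm_affine {φ : E → E} (hφ : ContDiff ℝ 1 φ) (hc : HasCompactSupport φ)
    (hd : ∀ x, dvg φ x = 0) (N : E →L[ℝ] E) (hN : ∀ x y, inner ℝ (N x) y = inner ℝ x (N y))
    (v : E) : ∫ x, inner ℝ (N x + v) (φ x) = 0 := by
  have h := integral_fderiv_apply (g := fun x => (1 / 2 : ℝ) * inner ℝ (N x) x + inner ℝ v x)
    ((contDiff_const.mul (N.contDiff.inner ℝ contDiff_id)).add (contDiff_const.inner ℝ contDiff_id))
    hφ (compact_of_zero hc fun x hx => by simp [hx]) hd
  rw [← h]
  congr 1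
  funext x
  have h1 : HasFDerivAt (fun x => (1 / 2 : ℝ) * inner ℝ (N x) x + inner ℝ v x) _ x :=
    ((N.hasFDerivAt.inner ℝ (hasFDerivAt_id x)).const_mul (1 / 2 : ℝ)).add
      ((hasFDerivAt_const v x).inner ℝ (hasFDerivAt_id x))
  rw [h1.fderiv]
  have h2 : inner ℝ (N (φ x)) x = inner ℝ (N x) (φ x) := by rw [hN, real_inner_comm]
  simp [inner_add_left, h2]
  ring

lemma integral_inner_pd_pd {u w : E → E} (hu : ContDiff ℝ 2 u) (hw : ContDiff ℝ 1 w)
    (hc : HasCompactSupport w) (i : Fin 3) :
    ∫ x, inner ℝ (pd i (pd i u) x) (w x) = - ∫ x, inner ℝ (pd i u x) (pd i w x) := by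
  have hu1 := pd_contDiff_one hu i
  have hcc : HasCompactSupport fun x => inner ℝ (pd i u x) (w x) := 
    compact_of_zero hc fun x hx => by simp [hx]
  have h := integral_pd (hu1.inner ℝ hw) hcc i
  have h1 : ∀ x, pd i (fun x => inner ℝ (pd i u x) (w x)) x
      = inner ℝ (pd i u x) (pd i w x) + inner ℝ (pd i (pd i u) x) (w x) := fun x =>
    fderiv_inner_apply ℝ (hu1.differentiable one_ne_zero _) (hw.differentiable one_ne_zero _) _
  simp_rw [h1] at h
  rw [integral_add (integrable_inner_right hu1.continuous (pd_continuous hw i) (pd_compact hc i))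
    (integrable_inner_right (pd_continuous hu1 i) hw.continuous hc)] at h
  linarith

lemma integral_inner_lap {u w : E → E} (hu : ContDiff ℝ 2 u) (hw : ContDiff ℝ 1 w)
    (hc : HasCompactSupport w) :
    ∫ x, inner ℝ (lap u x) (w x) = - ∑ i, ∫ x, inner ℝ (pd i u x) (pd i w x) := by
  simp_rw [lap, sum_inner]
  rw [integral_finsetSum _ fun i _ =>
    integrable_inner_right (pd_continuous (pd_contDiff_one hu i) i) hw.continuous hc,
    ← Finset.sum_neg_distrib]
  exact Finset.sum_congr rfl fun i _ => integral_inner_pd_pd hu hw hc i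

lemma integral_inner_pd_pd' {u w : E → E} (hu : ContDiff ℝ 1 u) (hw : ContDiff ℝ 2 w)
    (hc : HasCompactSupport w) (i : Fin 3) :
    ∫ x, inner ℝ (u x) (pd i (pd i w) x) = - ∫ x, inner ℝ (pd i u x) (pd i w x) := by
  have hw1 := pd_contDiff_one hw i
  have hcc : HasCompactSupport fun x => inner ℝ (u x) (pd i w x) :=
    compact_of_zero (pd_compact hc i) fun x hx => by simp [hx]
  have h := integral_pd (hu.inner ℝ hw1) hcc i
  have h1 : ∀ x, pd i (fun x => inner ℝ (u x) (pd i w x)) x
      = inner ℝ (u x) (pd i (pd i w) x) + inner ℝ (pd i u x) (pd i w x) := fun x =>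
    fderiv_inner_apply ℝ (hu.differentiable one_ne_zero _) (hw1.differentiable one_ne_zero _) _
  simp_rw [h1] at h
  rw [integral_add (integrable_inner_right hu.continuous (pd_continuous hw1 i)
      (pd_compact (pd_compact hc i) i))
    (integrable_inner_right (pd_continuous hu i) hw1.continuous (pd_compact hc i))] at h
  linarith

lemma lap_continuous {w : E → E} (hw : ContDiff ℝ 2 w) : Continuous (lap w) :=
  continuous_finsetSum _ fun i _ => pd_continuous (pd_contDiff_one hw i) i

lemma lap_compact {w : E → E} (hc : HasCompactSupport w) : HasCompactSupport (lap w) := by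
  have : lap w = pd 0 (pd 0 w) + pd 1 (pd 1 w) + pd 2 (pd 2 w) := by
    funext x; simp [lap, Fin.sum_univ_three]
  rw [this]
  exact ((pd_compact (pd_compact hc 0) 0).add (pd_compact (pd_compact hc 1) 1)).add
    (pd_compact (pd_compact hc 2) 2)

lemma integral_lap_symm {u w : E → E} (hu : ContDiff ℝ 2 u) (hw : ContDiff ℝ 2 w)
    (hc : HasCompactSupport w) :
    ∫ x, inner ℝ (lap u x) (w x) = ∫ x, inner ℝ (u x) (lap w x) := by
  rw [integral_inner_lap hu (hw.of_le (by norm_num)) hc]
  simp_rw [lap, inner_sum]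
  rw [integral_finsetSum _ fun i _ => integrable_inner_right hu.continuous
    (pd_continuous (pd_contDiff_one hw i) i) (pd_compact (pd_compact hc i) i),
    ← Finset.sum_neg_distrib]
  exact Finset.sum_congr rfl fun i _ =>
    (integral_inner_pd_pd' (hu.of_le (by norm_num)) hw hc i).symm

lemma integral_lap_self_nonpos {w : E → E} (hw : ContDiff ℝ 2 w) (hc : HasCompactSupport w) :
    ∫ x, inner ℝ (w x) (lap w x) ≤ 0 := by
  rw [← integral_lap_symm hw hw hc, integral_inner_lap hw (hw.of_le (by norm_num)) hc]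
  exact neg_nonpos.2 (Finset.sum_nonneg fun i _ => integral_nonneg fun x => real_inner_self_nonneg)

lemma integral_scale (f : E → ℝ) {s : ℝ} (hs : 0 < s) :
    ∫ x, f (s • x) = (s ^ 3)⁻¹ * ∫ x, f x := by
  rw [Measure.integral_comp_smul]
  simp [abs_of_pos hs]

section
variable {F : Type} [NormedAddCommGroup F] [NormedSpace ℝ F]

lemma fderiv_scale (φ : E → F) (c s : ℝ) (hφ : Differentiable ℝ φ) (x : E) :
    fderiv ℝ (fun y => c • φ (s • y)) x = (c * s) • fderiv ℝ φ (s • x) := by
  have h1 : HasFDerivAt (fun y : E => s • y) (s • ContinuousLinearMap.id ℝ E) x :=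
    (hasFDerivAt_id x).const_smul s
  have h2 := ((hφ (s • x)).hasFDerivAt.comp x h1).const_smul c
  rw [show (fun y => c • φ (s • y)) = c • (φ ∘ fun y : E => s • y) from rfl, h2.fderiv]
  ext v
  simp [smul_smul]

lemma pd_scale (φ : E → F) (c s : ℝ) (hφ : Differentiable ℝ φ) (i : Fin 3) :
    pd i (fun y => c • φ (s • y)) = fun x => (c * s) • pd i φ (s • x) := by
  funext x
  simp [pd, fderiv_scale φ c s hφ]

lemma pd_translate (φ : E → F) (c : E) (i : Fin 3) (x : E) :
    pd i (fun y => φ (y - c)) x = pd i φ (x - c) := by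
  simp only [pd, sub_eq_add_neg, fderiv_comp_add_right]

end

lemma lap_scale {φ : E → E} (c s : ℝ) (hφ : ContDiff ℝ 2 φ) (x : E) :
    lap (fun y => c • φ (s • y)) x = (c * s ^ 2) • lap φ (s • x) := by
  unfold lap
  rw [Finset.smul_sum]
  refine Finset.sum_congr rfl fun i _ => ?_
  rw [pd_scale φ c s (hφ.differentiable (by norm_num)),
    pd_scale (pd i φ) (c * s) s ((pd_contDiff_one hφ i).differentiable one_ne_zero)]
  simp only
  congr 1
  ring

lemma dvg_scale {φ : E → E} (c s : ℝ) (hφ : Differentiable ℝ φ) (x : E) :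
    dvg (fun y => c • φ (s • y)) x = (c * s) * dvg φ (s • x) := by
  unfold dvg
  rw [Finset.mul_sum]
  refine Finset.sum_congr rfl fun i _ => ?_
  rw [pd_scale φ c s hφ]
  simp

lemma dvg_add {u v : E → E} (hu : Differentiable ℝ u) (hv : Differentiable ℝ v) (x : E) :
    dvg (fun y => u y + v y) x = dvg u x + dvg v x := by
  unfold dvg pd
  rw [fderiv_fun_add (hu x) (hv x), ← Finset.sum_add_distrib]
  simp

lemma dvg_translate (u : E → E) (c x : E) : dvg (fun y => u (y - c)) x = dvg u (x - c) := by
  simp only [dvg, pd_translate]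

lemma lap_affine {φ : E → E} {x : E} (N : E →L[ℝ] E) (v : E)
    (h : φ =ᶠ[𝓝 x] fun y => N y + v) : lap φ x = 0 := by
  refine Finset.sum_eq_zero fun i _ => ?_
  have h1 : pd i (fun y => N y + v) = fun _ => N (e i) := by
    funext y
    simp [pd, (N.hasFDerivAt.add_const v).fderiv]
  rw [(pd_congr (pd_congr h i) i).eq_of_nhds, h1]
  simp [pd]

lemma fderiv_affine {φ : E → E} {x : E} (N : E →L[ℝ] E) (v : E)
    (h : φ =ᶠ[𝓝 x] fun y => N y + v) : fderiv ℝ φ x = N := by
  rw [h.fderiv_eq, (N.hasFDerivAt.add_const v).fderiv]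

end Pool.Agent.Work.MP_6bf1e5_an.Vortex
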