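import Pool.Agent.Work.MP_6bf1e5_an.Vortex.Apriori

/-! The shell vector field and the truncated problem. -/

namespace Pool.Agent.Work.MP_6bf1e5_an.Vortex

open Set Finset Filter Topology

/-- The back-reaction of all higher modes. -/
noncomputable def Rt (ρ : ℝ) (y : ℕ → ℝ) (k : ℕ) : ℝ := ∑' m, ρ ^ (m + 1) * y (k + m + 1) ^ 2

/-- The shell vector field. -/
noncomputable def fld (d Λ δ ρ : ℝ) (y : ℕ → ℝ) (k : ℕ) : ℝ :=
  (Sg y k - d * Λ ^ k) * y k + δ * prev y k ^ 2 - δ * ρ * y k * y (k + 1) - Rt ρ y k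

/-- The running integral. -/
noncomputable def Iof (y : ℝ → ℕ → ℝ) (t : ℝ) (k : ℕ) : ℝ := ∫ s in (0 : ℝ)..t, y s k

lemma Rt_nonneg {ρ : ℝ} (hρ : 0 ≤ ρ) (y : ℕ → ℝ) (k : ℕ) : 0 ≤ Rt ρ y k :=
  tsum_nonneg fun m => by positivity

lemma term_le {ρ K b : ℝ} (hρ : 0 ≤ ρ) {y : ℕ → ℝ} {k : ℕ}
    (hb : ∀ m, |y (k + m + 1)| ≤ K ^ m * b) (m : ℕ) :
    ρ ^ (m + 1) * y (k + m + 1) ^ 2 ≤ ρ * b ^ 2 * (ρ * K ^ 2) ^ m := by
  have h1 : y (k + m + 1) ^ 2 ≤ (K ^ m * b) ^ 2 := by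
    rw [← sq_abs (y _)]
    exact pow_le_pow_left₀ (abs_nonneg _) (hb m) 2
  calc ρ ^ (m + 1) * y (k + m + 1) ^ 2 ≤ ρ ^ (m + 1) * (K ^ m * b) ^ 2 :=
        mul_le_mul_of_nonneg_left h1 (by positivity)
    _ = ρ * b ^ 2 * (ρ * K ^ 2) ^ m := by ring

lemma Rt_summable {ρ K b : ℝ} (hρ : 0 ≤ ρ) (hq : ρ * K ^ 2 ≤ 1 / 3) {y : ℕ → ℝ} {k : ℕ}
    (hb : ∀ m, |y (k + m + 1)| ≤ K ^ m * b) :
    Summable fun m => ρ ^ (m + 1) * y (k + m + 1) ^ 2 :=
  Summable.of_nonneg_of_le (fun m => by positivity) (term_le hρ hb)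
    ((summable_geometric_of_lt_one (by positivity) (by linarith)).mul_left _)

lemma Rt_le {ρ K b : ℝ} (hρ : 0 ≤ ρ) (hq : ρ * K ^ 2 ≤ 1 / 3) {y : ℕ → ℝ} {k : ℕ}
    (hb : ∀ m, |y (k + m + 1)| ≤ K ^ m * b) : Rt ρ y k ≤ 3 / 2 * (ρ * b ^ 2) := by
  have hs : Summable fun m => ρ * b ^ 2 * (ρ * K ^ 2) ^ m :=
    (summable_geometric_of_lt_one (by positivity) (by linarith)).mul_left _
  have h1 : Rt ρ y k ≤ ∑' m, ρ * b ^ 2 * (ρ * K ^ 2) ^ m :=
    (Rt_summable hρ hq hb).tsum_le_tsum (term_le hρ hb) hs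
  rw [tsum_mul_left, tsum_geometric_of_lt_one (by positivity) (by linarith)] at h1
  have h2 : (1 - ρ * K ^ 2)⁻¹ ≤ 3 / 2 := by
    rw [inv_le_comm₀ (by linarith) (by norm_num)]
    linarith
  have h3 : ρ * b ^ 2 * (1 - ρ * K ^ 2)⁻¹ ≤ ρ * b ^ 2 * (3 / 2) :=
    mul_le_mul_of_nonneg_left h2 (by positivity)
  linarith

lemma fld_tendsto {ι : Type*} {l : Filter ι} {d Λ δ ρ K A : ℝ} (hρ : 0 ≤ ρ)
    (hq : ρ * K ^ 2 ≤ 1 / 3) {y : ι → ℕ → ℝ} {Y : ℕ → ℝ}
    (hb : ∀ᶠ i in l, ∀ k, |y i k| ≤ K ^ k * A) (hlim : ∀ k, Tendsto (fun i => y i k) l (𝓝 (Y k)))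
    (k : ℕ) : Tendsto (fun i => fld d Λ δ ρ (y i) k) l (𝓝 (fld d Λ δ ρ Y k)) := by
  have hS : Tendsto (fun i => Sg (y i) k) l (𝓝 (Sg Y k)) :=
    tendsto_finsetSum _ fun j _ => hlim j
  have hP : Tendsto (fun i => prev (y i) k) l (𝓝 (prev Y k)) := by
    cases k with
    | zero => exact tendsto_const_nhds
    | succ k => exact hlim k
  have hR : Tendsto (fun i => Rt ρ (y i) k) l (𝓝 (Rt ρ Y k)) := by
    unfold Rt
    refine tendsto_tsum_of_dominated_convergence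
      (bound := fun m => ρ * (K ^ (k + 1) * A) ^ 2 * (ρ * K ^ 2) ^ m)
      ((summable_geometric_of_lt_one (by positivity) (by linarith)).mul_left _)
      (fun m => ((hlim (k + m + 1)).pow 2).const_mul _) ?_
    filter_upwards [hb] with i hi m
    rw [Real.norm_of_nonneg (by positivity)]
    apply term_le hρ
    intro m
    calc |y i (k + m + 1)| ≤ K ^ (k + m + 1) * A := hi _
      _ = K ^ m * (K ^ (k + 1) * A) := by ring
  unfold fld
  exact ((((hS.sub_const _).mul (hlim k)).add ((hP.pow 2).const_mul δ)).sub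
    (((hlim k).const_mul _).mul (hlim (k + 1)))).sub hR

lemma fld_bound {d Λ δ ρ K A : ℝ} (hρ : 0 ≤ ρ) (hq : ρ * K ^ 2 ≤ 1 / 3) (k : ℕ) :
    ∃ L, ∀ y : ℕ → ℝ, (∀ k, |y k| ≤ K ^ k * A) → |fld d Λ δ ρ y k| ≤ L := by
  refine ⟨(∑ j ∈ Finset.range k, K ^ j * A + |d * Λ ^ k|) * (K ^ k * A)
    + |δ| * (prev (fun j => K ^ j * A) k) ^ 2 + |δ * ρ| * (K ^ k * A) * (K ^ (k + 1) * A)
    + 3 / 2 * (ρ * (K ^ (k + 1) * A) ^ 2), fun y hy => ?_⟩
  have h1 : |Sg y k| ≤ ∑ j ∈ Finset.range k, K ^ j * A :=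
    (Finset.abs_sum_le_sum_abs _ _).trans (Finset.sum_le_sum fun j _ => hy j)
  have h2 : |(Sg y k - d * Λ ^ k) * y k|
      ≤ (∑ j ∈ Finset.range k, K ^ j * A + |d * Λ ^ k|) * (K ^ k * A) := by
    rw [abs_mul]
    apply mul_le_mul _ (hy k) (abs_nonneg _)
    · exact add_nonneg ((abs_nonneg _).trans h1) (abs_nonneg _)
    · exact (abs_sub _ _).trans (by linarith)
  have h3 : |δ * prev y k ^ 2| ≤ |δ| * (prev (fun j => K ^ j * A) k) ^ 2 := by
    rw [abs_mul, abs_pow]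
    apply mul_le_mul_of_nonneg_left _ (abs_nonneg _)
    cases k with
    | zero => simp
    | succ k => exact pow_le_pow_left₀ (abs_nonneg _) (hy k) 2
  have h4 : |δ * ρ * y k * y (k + 1)| ≤ |δ * ρ| * (K ^ k * A) * (K ^ (k + 1) * A) := by
    rw [abs_mul, abs_mul]
    apply mul_le_mul (mul_le_mul_of_nonneg_left (hy k) (abs_nonneg _)) (hy (k + 1)) (abs_nonneg _)
    exact mul_nonneg (abs_nonneg _) ((abs_nonneg _).trans (hy k))
  have h5 : Rt ρ y k ≤ 3 / 2 * (ρ * (K ^ (k + 1) * A) ^ 2) := by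
    apply Rt_le hρ hq
    intro m
    calc |y (k + m + 1)| ≤ K ^ (k + m + 1) * A := hy _
      _ = K ^ m * (K ^ (k + 1) * A) := by ring
  have h6 := Rt_nonneg hρ y k
  unfold fld
  have := abs_le.1 h2
  have := abs_le.1 h3
  have := abs_le.1 h4
  rw [abs_le]
  constructor <;> linarith

/-- The admissible constants. -/
structure Par (Λ δ ρ d A : ℝ) : Prop where
  hΛ : 1 ≤ Λ
  hρ : 0 ≤ ρ
  hq : ρ * (560 * Λ) ^ 2 ≤ 1 / 3
  hδ1 : δ ≤ Real.exp (-(42 * Λ))
  hδ2 : Real.exp (-(42 * Λ)) / 2 ≤ δ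
  hd : 0 ≤ d
  hA : 0 < A
  hdA : 2240 * d * Λ ≤ A

lemma Par.δ_pos {Λ δ ρ d A : ℝ} (h : Par Λ δ ρ d A) : 0 < δ :=
  lt_of_lt_of_le (by positivity) h.hδ2

lemma Par.δ_le_one {Λ δ ρ d A : ℝ} (h : Par Λ δ ρ d A) : δ ≤ 1 :=
  h.hδ1.trans (Real.exp_le_one_iff.2 (by linarith [h.hΛ]))

lemma react_bounds {Λ δ ρ d A : ℝ} (h : Par Λ δ ρ d A) {y : ℕ → ℝ} (h0 : ∀ k, 0 ≤ y k)
    (hr : ∀ k, y (k + 1) ≤ 560 * Λ * y k) (k : ℕ) :
    δ * ρ * y k * y (k + 1) + Rt ρ y k ≤ 3 * ρ * (560 * Λ) * y (k + 1) * y k := by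
  have hΛ := h.hΛ
  have hρ := h.hρ
  have hb : ∀ m, |y (k + m + 1)| ≤ (560 * Λ) ^ m * y (k + 1) := by
    intro m
    rw [abs_of_nonneg (h0 _)]
    induction m with
    | zero => simp
    | succ m ih =>
      have := hr (k + m + 1)
      have h2 := mul_le_mul_of_nonneg_left ih (show 0 ≤ 560 * Λ by positivity)
      rw [pow_succ, show k + (m + 1) + 1 = k + m + 1 + 1 by ring]
      linarith
  have h1 := Rt_le hρ h.hq hb
  have hp := h0 k
  have hq := h0 (k + 1)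
  have h2 : ρ * y (k + 1) * y (k + 1) ≤ ρ * y (k + 1) * (560 * Λ * y k) :=
    mul_le_mul_of_nonneg_left (hr k) (by positivity)
  have h3 : δ * (ρ * y k * y (k + 1)) ≤ (560 * Λ) * (ρ * y k * y (k + 1)) :=
    mul_le_mul_of_nonneg_right (by linarith [h.δ_le_one]) (by positivity)
  have h4 : 0 ≤ (560 * Λ) * (ρ * y k * y (k + 1)) := by positivity
  nlinarith

lemma boot_of {Λ δ ρ d A ε τ : ℝ} {n : ℕ} (h : Par Λ δ ρ d A) (hε : 0 < ε) (hεδ : ε ≤ δ)
    (hτ : 0 ≤ τ) (hτT : τ ≤ 560 * Λ / A) {y : ℝ → ℕ → ℝ}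
    (cy : ∀ k, Continuous (fun t => y t k))
    (dy : ∀ k ≤ n, ∀ t ∈ Ioo 0 τ, HasDerivAt (fun t => y t k) (fld d Λ δ ρ (y t) k) t)
    (y0 : ∀ k ≤ n, y 0 k = ε ^ k * A) (pos : ∀ k ≤ n, ∀ t ∈ Icc 0 τ, 0 < y t k)
    (zero : ∀ k, n < k → ∀ t, y t k = 0)
    (rat : ∀ k, ∀ t ∈ Icc 0 τ, y t (k + 1) ≤ 560 * Λ * y t k)
    (Ile : ∀ k, ∀ t ∈ Icc 0 τ, Iof y t k ≤ 140 * Λ) :
    Boot Λ δ (3 * ρ * (560 * Λ)) d A ε n τ y (fun t => fld d Λ δ ρ (y t)) (Iof y) := by
  have hΛ := h.hΛ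
  have hρ := h.hρ
  have hA := h.hA
  have hd := h.hd
  have hnn : ∀ t ∈ Icc 0 τ, ∀ k, 0 ≤ y t k := fun t ht k => by
    rcases le_or_gt k n with hk | hk
    · exact (pos k hk t ht).le
    · rw [zero k hk]
  refine ⟨hΛ, by positivity, by nlinarith [h.hq], hε, hεδ, h.hδ1, h.hδ2, hd, hA, hτ, ?_,
    by nlinarith [h.hdA], cy, dy, fun k t => ((cy k).integral_hasStrictDerivAt 0 t).hasDerivAt,
    fun k => by simp [Iof], y0, pos, zero, rat, Ile, ?_, ?_⟩
  · have h1 : d * τ ≤ d * (560 * Λ / A) := mul_le_mul_of_nonneg_left hτT hd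
    have h2 : d * (560 * Λ / A) ≤ 1 / 4 := by
      rw [← mul_div_assoc, div_le_iff₀ hA]
      linarith [h.hdA]
    linarith
  · intro k _ t ht
    have htc := Ioo_subset_Icc_self ht
    have h1 := Rt_nonneg hρ (y t) k
    have h2 : 0 ≤ δ * ρ * y t k * y t (k + 1) := by
      have := h.δ_pos
      have := hnn t htc k
      have := hnn t htc (k + 1)
      positivity
    simp only [fld]
    linarith
  · intro k _ t ht
    have htc := Ioo_subset_Icc_self ht
    have h1 := react_bounds h (hnn t htc) (fun k => rat k t htc) k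
    simp only [fld]
    linarith

/-- Extension by zero of a finite vector. -/
def ext {n : ℕ} (v : Fin (n + 1) → ℝ) (k : ℕ) : ℝ := if h : k < n + 1 then v ⟨k, h⟩ else 0

lemma ext_contDiff {n : ℕ} (k : ℕ) : ContDiff ℝ 1 (fun v : Fin (n + 1) → ℝ => ext v k) := by
  unfold ext
  split_ifs with h
  · exact contDiff_apply ℝ ℝ _
  · exact contDiff_const

lemma fld_ext_contDiff {n : ℕ} (d Λ δ ρ : ℝ) (k : ℕ) :
    ContDiff ℝ 1 (fun v : Fin (n + 1) → ℝ => fld d Λ δ ρ (ext v) k) := by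
  have hS : ContDiff ℝ 1 (fun v : Fin (n + 1) → ℝ => Sg (ext v) k) :=
    ContDiff.sum fun j _ => ext_contDiff j
  have hP : ContDiff ℝ 1 (fun v : Fin (n + 1) → ℝ => prev (ext v) k) := by
    cases k with
    | zero => exact contDiff_const
    | succ k => exact ext_contDiff k
  have hR : ContDiff ℝ 1 (fun v : Fin (n + 1) → ℝ => Rt ρ (ext v) k) := by
    have : (fun v : Fin (n + 1) → ℝ => Rt ρ (ext v) k)
        = fun v => ∑ m ∈ Finset.range (n + 1), ρ ^ (m + 1) * ext v (k + m + 1) ^ 2 := by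
      funext v
      apply tsum_eq_sum
      intro m hm
      have : ¬ (k + m + 1 < n + 1) := by simp at hm; omega
      simp [ext, this]
    rw [this]
    exact ContDiff.sum fun m _ => contDiff_const.mul ((ext_contDiff _).pow 2)
  unfold fld
  exact ((((hS.sub contDiff_const).mul (ext_contDiff k)).add
    (contDiff_const.mul (hP.pow 2))).sub
    ((contDiff_const.mul (ext_contDiff k)).mul (ext_contDiff (k + 1)))).sub hR

/-- A solution of the cut-off truncated system on `[0, T]`. -/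
lemma exists_cutoff (d Λ δ ρ : ℝ) (n : ℕ) (x₀ : ℕ → ℝ) {T C : ℝ} (hT : 0 ≤ T) (hC : 0 < C) :
    ∃ y : ℝ → ℕ → ℝ, (∀ k, Continuous (fun t => y t k)) ∧ (∀ k ≤ n, y 0 k = x₀ k) ∧
      (∀ k, n < k → ∀ t, y t k = 0) ∧
      ∀ t ∈ Ioo 0 T, (∀ k, |y t k| ≤ C) → ∀ k ≤ n,
        HasDerivAt (fun t => y t k) (fld d Λ δ ρ (y t) k) t := by
  let χ : ContDiffBump (0 : Fin (n + 1) → ℝ) := ⟨C, C + 1, hC, by linarith⟩
  let F : (Fin (n + 1) → ℝ) → (Fin (n + 1) → ℝ) := fun v i => fld d Λ δ ρ (ext v) i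
  have hF : ContDiff ℝ 1 F := contDiff_pi.2 fun i => fld_ext_contDiff d Λ δ ρ i
  let V : (Fin (n + 1) → ℝ) → (Fin (n + 1) → ℝ) := fun v => χ v • F v
  have hV : ContDiff ℝ 1 V := χ.contDiff.smul hF
  have hVc : HasCompactSupport V := χ.hasCompactSupport.smul_right
  obtain ⟨K, hK⟩ := hV.lipschitzWith_of_hasCompactSupport hVc one_ne_zero
  obtain ⟨L, hL⟩ := hV.continuous.bounded_above_of_compact_support hVc
  have hL0 : 0 ≤ L := (norm_nonneg _).trans (hL 0)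
  have hPL : IsPicardLindelof (fun _ : ℝ => V) (⟨0, left_mem_Icc.2 hT⟩ : Icc (0 : ℝ) T)
      (fun i => x₀ i) ⟨L * T, by positivity⟩ 0 ⟨L, hL0⟩ K := by
    refine ⟨fun _ _ => hK.lipschitzOnWith, fun _ _ => continuousOn_const, fun _ _ x _ => hL x, ?_⟩
    simp [hT]
    exact le_rfl
  obtain ⟨α, hα0, hα⟩ := hPL.exists_eq_forall_mem_Icc_hasDerivWithinAt₀
  have hαc : ContinuousOn α (Icc 0 T) := fun t ht => (hα t ht).continuousWithinAt
  have hβ : Continuous (fun t => α (projIcc 0 T hT t)) :=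
    hαc.comp_continuous (continuous_subtype_val.comp continuous_projIcc)
      fun t => (projIcc 0 T hT t).2
  refine ⟨fun t => ext (α (projIcc 0 T hT t)), fun k => (ext_contDiff k).continuous.comp hβ,
    ?_, ?_, ?_⟩
  · intro k hk
    have : k < n + 1 := by omega
    simp only [projIcc_left, ext, this, dif_pos]
    exact congrFun hα0 _
  · intro k hk t
    have : ¬ (k < n + 1) := by omega
    simp [ext, this]
  · intro t ht hb k hk
    have hk' : k < n + 1 := by omega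
    have hpt : (projIcc 0 T hT t : ℝ) = t := by
      rw [projIcc_of_mem hT (Ioo_subset_Icc_self ht)]
    simp only [hpt] at hb ⊢
    have h1 : HasDerivAt α (V (α t)) t :=
      (hα t (Ioo_subset_Icc_self ht)).hasDerivAt (Icc_mem_nhds ht.1 ht.2)
    have h2 : χ (α t) = 1 := by
      apply χ.one_of_mem_closedBall
      rw [mem_closedBall_zero_iff, pi_norm_le_iff_of_nonneg hC.le]
      intro i
      have := hb i
      simpa [ext, i.2] using this
    have h3 : HasDerivAt (fun t => α t ⟨k, hk'⟩) (V (α t) ⟨k, hk'⟩) t := hasDerivAt_pi.1 h1 _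
    have h4 : V (α t) ⟨k, hk'⟩ = fld d Λ δ ρ (ext (α t)) k := by simp [V, F, h2]
    rw [h4] at h3
    apply h3.congr_of_eventuallyEq
    filter_upwards [Ioo_mem_nhds ht.1 ht.2] with s hs
    rw [projIcc_of_mem hT (Ioo_subset_Icc_self hs)]
    simp [ext, hk']

lemma exists_first_bad {G W : Set ℝ} (hG : IsOpen G) (hW : IsClosed W) (hGW : G ⊆ W) {T : ℝ}
    (hT : 0 < T) (h0 : (0 : ℝ) ∈ G) :
    ∃ τ ∈ Icc 0 T, Icc 0 τ ⊆ W ∧ (τ = T ∨ τ ∉ G) := by
  by_cases hB : (Icc 0 T ∩ Gᶜ).Nonempty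
  · have hc : IsClosed (Icc 0 T ∩ Gᶜ) := isClosed_Icc.inter hG.isClosed_compl
    have hbdd : BddBelow (Icc 0 T ∩ Gᶜ) := ⟨0, fun t ht => ht.1.1⟩
    have hm := hc.csInf_mem hB hbdd
    set τ := sInf (Icc 0 T ∩ Gᶜ)
    have hτ0 : (0 : ℝ) ≠ τ := fun h => hm.2 (h ▸ h0)
    refine ⟨τ, hm.1, ?_, Or.inr hm.2⟩
    rw [← closure_Ico hτ0]
    apply hW.closure_subset_iff.2
    intro t ht
    apply hGW
    by_contra hcon
    have : τ ≤ t := csInf_le hbdd ⟨⟨ht.1, ht.2.le.trans hm.1.2⟩, hcon⟩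
    linarith [ht.2]
  · refine ⟨T, right_mem_Icc.2 hT.le, fun t ht => hGW ?_, Or.inl rfl⟩
    by_contra hcon
    exact hB ⟨t, ht, hcon⟩

/-- The truncated problem is solvable up to the time when the top mode has accumulated `J`. -/
lemma exists_trunc {Λ δ ρ d A ε : ℝ} (h : Par Λ δ ρ d A) (hε : 0 < ε) (hεδ : ε ≤ δ) (n : ℕ) :
    ∃ τ ∈ Icc 0 (560 * Λ / A), ∃ y : ℝ → ℕ → ℝ,
      Boot Λ δ (3 * ρ * (560 * Λ)) d A ε n τ y (fun t => fld d Λ δ ρ (y t)) (Iof y) ∧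
      14 * Λ ≤ Iof y τ n := by
  have hΛ := h.hΛ
  have hA := h.hA
  set T := 560 * Λ / A with hTdef
  have hT : 0 < T := by positivity
  obtain ⟨y, cy, y0, zero, dy⟩ := exists_cutoff d Λ δ ρ n (fun k => ε ^ k * A) hT.le
    (C := (560 * Λ) ^ n * (2 * A)) (by positivity)
  have cI : ∀ k, Continuous (fun t => Iof y t k) := fun k =>
    continuous_iff_continuousAt.2 fun t =>
      ((cy k).integral_hasStrictDerivAt 0 t).hasDerivAt.continuousAt
  let η : ℕ → ℝ := fun k => ε ^ k * A * Real.exp (-(d * Λ ^ k * T)) / 2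
  have hη : ∀ k, 0 < η k := fun k => by positivity
  let G : Set ℝ := {t | (∀ k ∈ Finset.range (n + 1), η k < y t k ∧
    y t (k + 1) < 560 * Λ * y t k) ∧ (∀ k ∈ Finset.range n, Iof y t k < 140 * Λ) ∧
    Iof y t n < 14 * Λ ∧ y t 0 < 2 * A}
  let W : Set ℝ := {t | (∀ k ∈ Finset.range (n + 1), η k ≤ y t k ∧
    y t (k + 1) ≤ 560 * Λ * y t k) ∧ (∀ k ∈ Finset.range n, Iof y t k ≤ 140 * Λ) ∧
    Iof y t n ≤ 14 * Λ ∧ y t 0 ≤ 2 * A}
  have hG : IsOpen G := by
    simp only [G, ofPred_and, ofPred_forall]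
    refine (isOpen_biInter_finset fun k _ => (isOpen_lt continuous_const (cy k)).inter
      (isOpen_lt (cy _) ((cy k).const_mul _))).inter
      ((isOpen_biInter_finset fun k _ => isOpen_lt (cI k) continuous_const).inter
      ((isOpen_lt (cI n) continuous_const).inter (isOpen_lt (cy 0) continuous_const)))
  have hW : IsClosed W := by
    simp only [W, ofPred_and, ofPred_forall]
    refine (isClosed_biInter fun k _ => (isClosed_le continuous_const (cy k)).inter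
      (isClosed_le (cy _) ((cy k).const_mul _))).inter
      ((isClosed_biInter fun k _ => isClosed_le (cI k) continuous_const).inter
      ((isClosed_le (cI n) continuous_const).inter (isClosed_le (cy 0) continuous_const)))
  have hGW : G ⊆ W := fun t ht =>
    ⟨fun k hk => ⟨(ht.1 k hk).1.le, (ht.1 k hk).2.le⟩, fun k hk => (ht.2.1 k hk).le,
      ht.2.2.1.le, ht.2.2.2.le⟩
  have hε1 : ε ≤ 1 := hεδ.trans h.δ_le_one
  have h0 : (0 : ℝ) ∈ G := by
    refine ⟨fun k hk => ⟨?_, ?_⟩, fun k _ => by simp [Iof]; positivity,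
      by simp [Iof]; positivity, ?_⟩
    · have hk' : k ≤ n := by simp at hk; omega
      rw [y0 k hk']
      have h1 : Real.exp (-(d * Λ ^ k * T)) ≤ 1 := by
        apply Real.exp_le_one_iff.2
        have := h.hd
        have : 0 ≤ d * Λ ^ k * T := by positivity
        linarith
      have h2 : 0 < ε ^ k * A := by positivity
      simp only [η]
      nlinarith
    · have hk' : k ≤ n := by simp at hk; omega
      have h2 : 0 < ε ^ k * A := by positivity
      rw [y0 k hk']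
      rcases lt_or_ge k n with hlt | hge
      · rw [y0 (k + 1) hlt, pow_succ]
        nlinarith
      · rw [zero (k + 1) (by omega)]
        positivity
    · rw [y0 0 (Nat.zero_le n)]
      simp [hA]
  obtain ⟨τ, hτ, hτW, hτG⟩ := exists_first_bad hG hW hGW hT h0
  have pos : ∀ k ≤ n, ∀ t ∈ Icc 0 τ, 0 < y t k := fun k hk t ht =>
    lt_of_lt_of_le (hη k) ((hτW ht).1 k (by simp; omega)).1
  have rat : ∀ k, ∀ t ∈ Icc 0 τ, y t (k + 1) ≤ 560 * Λ * y t k := fun k t ht => by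
    rcases le_or_gt k n with hk | hk
    · exact ((hτW ht).1 k (by simp; omega)).2
    · rw [zero k hk, zero (k + 1) (by omega)]; simp
  have Ile : ∀ k, ∀ t ∈ Icc 0 τ, Iof y t k ≤ 140 * Λ := fun k t ht => by
    rcases lt_trichotomy k n with hk | hk | hk
    · exact (hτW ht).2.1 k (by simpa using hk)
    · have := (hτW ht).2.2.1
      rw [hk]; linarith
    · simp only [Iof, zero k hk, intervalIntegral.integral_zero]
      positivity
  have hB := boot_of h hε hεδ hτ.1 hτ.2 cy (fun k hk t ht => by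
    apply dy t ⟨ht.1, by linarith [ht.2, hτ.2]⟩ _ k hk
    have htc := Ioo_subset_Icc_self ht
    have hup : ∀ j, y t j ≤ (560 * Λ) ^ j * (2 * A) := by
      intro j
      induction j with
      | zero => simpa using (hτW htc).2.2.2
      | succ j ih =>
        have h1 := rat j t htc
        have := mul_le_mul_of_nonneg_left ih (show 0 ≤ 560 * Λ by positivity)
        rw [pow_succ]
        linarith
    intro j
    rcases le_or_gt j n with hj | hj
    · rw [abs_of_pos (pos j hj t htc)]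
      refine (hup j).trans (mul_le_mul_of_nonneg_right ?_ (by positivity))
      exact pow_le_pow_right₀ (by linarith) hj
    · rw [zero j hj]; simp; positivity) y0 pos zero rat Ile
  refine ⟨τ, hτ, y, hB, ?_⟩
  have hτc : τ ∈ Icc 0 τ := right_mem_Icc.2 hτ.1
  rcases hτG with hτT | hτG
  · exfalso
    have key := le_of_deriv_nonneg (a := 0) (b := τ) (f := fun t => Iof y t 0 - A / 2 * t)
      (f' := fun t => y t 0 - A / 2 * 1) hτ.1
      ((cI 0).sub (continuous_id.const_mul _)).continuousOn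
      (fun s _ => (hB.dI 0 s).sub ((hasDerivAt_id s).const_mul _))
      (fun s hs => by linarith [hB.y0_lower (Ioo_subset_Icc_self hs)])
    simp only [hB.I0] at key
    have h1 := Ile 0 τ hτc
    have h2 : A / 2 * τ = 280 * Λ := by rw [hτT, hTdef]; field_simp; ring
    linarith
  · by_contra hcon
    apply hτG
    refine ⟨fun k hk => ⟨?_, hB.ratio_strict (by simp at hk; omega) hτc⟩,
      fun k hk => hB.I_strict (by simpa using hk) hτc, not_le.1 hcon, ?_⟩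
    · have hk' : k ≤ n := by simp at hk; omega
      have h1 := hB.lower hk' hτc
      have h2 : Real.exp (d * Λ ^ k * τ) * Real.exp (-(d * Λ ^ k * T)) ≤ 1 := by
        rw [← Real.exp_add]
        apply Real.exp_le_one_iff.2
        have := h.hd
        have : d * Λ ^ k * τ ≤ d * Λ ^ k * T := mul_le_mul_of_nonneg_left hτ.2 (by positivity)
        linarith
      have h3 := mul_le_mul_of_nonneg_right h1 (Real.exp_pos (-(d * Λ ^ k * T))).le
      have h4 := pos k hk' τ hτc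
      have h5 := mul_le_mul_of_nonneg_left h2 h4.le
      simp only [η]
      nlinarith
    · linarith [hB.y0_upper hτc]

end Pool.Agent.Work.MP_6bf1e5_an.Vortex
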