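import Pool.Agent.Work.MP_6bf1e5_an.Vortex.Family
import Pool.Agent.Work.MP_6bf1e5_an.Vortex.Trunc

/-! The projected equation in terms of the coefficients. -/

namespace Pool.Agent.Work.MP_6bf1e5_an.Vortex

open MeasureTheory Filter Topology
open scoped ContDiff

lemma tendsto_pair {w : ℕ → E → E} {f : ℕ → E → ℝ} {g : E → ℝ} {C : ℝ}
    (hg : Integrable fun x => g x ^ 2) (hwi : ∀ n, Integrable fun x => ‖w n x‖ ^ 2)
    (hw : Tendsto (fun n => ∫ x, ‖w n x‖ ^ 2) atTop (𝓝 0))
    (hf : ∀ n x, |f n x| ≤ g x * ‖w n x‖ + C * ‖w n x‖ ^ 2) :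
    Tendsto (fun n => ∫ x, f n x) atTop (𝓝 0) := by
  rw [Metric.tendsto_nhds]
  intro ε hε
  set G := ∫ x, g x ^ 2
  have hG : 0 ≤ G := integral_nonneg fun x => sq_nonneg _
  set η := ε / (2 * (G + 1)) with hη
  have hη0 : 0 < η := by positivity
  have hηG : η * G < ε / 2 := by
    rw [hη, div_mul_eq_mul_div, div_lt_div_iff₀ (by positivity) (by norm_num)]
    nlinarith
  have h1 : Tendsto (fun n => (η⁻¹ + C) * ∫ x, ‖w n x‖ ^ 2) atTop (𝓝 ((η⁻¹ + C) * 0)) :=
    hw.const_mul _
  rw [mul_zero] at h1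
  filter_upwards [h1.eventually (gt_mem_nhds (show 0 < ε / 2 by positivity))] with n hn
  rw [dist_zero_right]
  have i1 : Integrable fun x => η * g x ^ 2 := hg.const_mul η
  have i2 : Integrable fun x => (η⁻¹ + C) * ‖w n x‖ ^ 2 := (hwi n).const_mul _
  have i3 : Integrable fun x => η * g x ^ 2 + (η⁻¹ + C) * ‖w n x‖ ^ 2 := i1.add i2
  have h2 := norm_integral_le_of_norm_le (f := f n) i3 (Eventually.of_forall fun x => by
    refine (hf n x).trans ?_
    have h3 : 0 ≤ η⁻¹ * (η * g x - ‖w n x‖) ^ 2 := by positivity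
    have h4 : η⁻¹ * (η * g x - ‖w n x‖) ^ 2
        = η * g x ^ 2 - 2 * (g x * ‖w n x‖) + η⁻¹ * ‖w n x‖ ^ 2 := by
      field_simp
      ring
    have h5 : 0 ≤ η * g x ^ 2 := by positivity
    have h6 : 0 ≤ η⁻¹ * ‖w n x‖ ^ 2 := by positivity
    linarith)
  rw [integral_add i1 i2, integral_const_mul, integral_const_mul] at h2
  linarith

/-- The sum of the first `n` terms of the series. -/
noncomputable def ps (Ψ : ℕ → E → E) (X : ℕ → ℝ) (n : ℕ) (x : E) : E :=
  ∑ k ∈ Finset.range n, X k • Ψ k x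

/-- `u` is the `L²`-sum of the series with coefficients `X`. -/
structure IsSum (Ψ : ℕ → E → E) (X : ℕ → ℝ) (u : E → E) : Prop where
  smooth : ContDiff ℝ ∞ u
  l2 : MemLp u 2 volume
  lim : Tendsto (fun n => ∫ x, ‖u x - ps Ψ X n x‖ ^ 2) atTop (𝓝 0)

lemma dbl_sum {μ a δ : ℝ} (hμ : 0 < μ) (X : ℕ → ℝ) (k p : ℕ) :
    a * μ ^ (5 * k) * ∑ i ∈ Finset.range (k + 1 + (p + 1)), ∑ j ∈ Finset.range (k + 1 + (p + 1)),
      X i * X j * β μ a δ i k j
    = Sg (fun j => a * μ ^ (5 * j) * X j) k * (a * μ ^ (5 * k) * X k)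
      + δ * prev (fun j => a * μ ^ (5 * j) * X j) k ^ 2
      - δ * (μ ^ 10)⁻¹ * (a * μ ^ (5 * k) * X k) * (a * μ ^ (5 * (k + 1)) * X (k + 1))
      - ∑ m ∈ Finset.range (p + 1),
        (μ ^ 10)⁻¹ ^ (m + 1) * (a * μ ^ (5 * (k + m + 1)) * X (k + m + 1)) ^ 2 := by
  set n := k + 1 + (p + 1) with hn
  have t1 : ∑ i ∈ Finset.range n, ∑ j ∈ Finset.range n,
      X i * X j * (if i = j ∧ k < j then -μ ^ (5 * k) else 0)
      = -(μ ^ (5 * k) * ∑ m ∈ Finset.range (p + 1), X (k + m + 1) ^ 2) := by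
    have : ∀ i ∈ Finset.range n, ∑ j ∈ Finset.range n,
        X i * X j * (if i = j ∧ k < j then -μ ^ (5 * k) else 0)
        = if k < i then -(μ ^ (5 * k) * X i ^ 2) else 0 := fun i hi => by
      rw [Finset.sum_eq_single i (fun j _ hj => by rw [if_neg (by omega), mul_zero])
        (fun h => absurd hi h)]
      by_cases h : k < i
      · simp [h]; ring
      · simp [h]
    rw [Finset.sum_congr rfl this, hn, Finset.sum_range_add,
      Finset.sum_eq_zero (fun i hi => if_neg (by simp at hi; omega)), zero_add, Finset.mul_sum,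
      ← Finset.sum_neg_distrib]
    refine Finset.sum_congr rfl fun m _ => ?_
    rw [if_pos (by omega), show k + 1 + m = k + m + 1 by ring]
  have t2 : ∑ i ∈ Finset.range n, ∑ j ∈ Finset.range n,
      X i * X j * (if i = k ∧ j < k then μ ^ (5 * j) else 0)
      = X k * ∑ j ∈ Finset.range k, μ ^ (5 * j) * X j := by
    rw [Finset.sum_eq_single k (fun i _ hi => Finset.sum_eq_zero fun j _ => by
      rw [if_neg (by omega), mul_zero]) (fun h => absurd (Finset.mem_range.2 (by omega)) h),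
      show n = k + (p + 2) by omega, Finset.sum_range_add,
      Finset.sum_eq_zero (s := Finset.range (p + 2))
        (fun j _ => by rw [if_neg (by omega), mul_zero]), add_zero, Finset.mul_sum]
    refine Finset.sum_congr rfl fun j hj => ?_
    rw [if_pos ⟨rfl, Finset.mem_range.1 hj⟩]
    ring
  have t3 : ∑ i ∈ Finset.range n, ∑ j ∈ Finset.range n,
      X i * X j * (if i = j ∧ j + 1 = k then δ * (μ ^ (5 * j)) ^ 2 / μ ^ (5 * k) else 0)
      = δ * prev (fun j => μ ^ (5 * j) * X j) k ^ 2 / μ ^ (5 * k) := by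
    cases k with
    | zero => simp
    | succ k =>
      rw [Finset.sum_eq_single k (fun i _ hi => Finset.sum_eq_zero fun j _ => by
        rw [if_neg (by omega), mul_zero]) (fun h => absurd (Finset.mem_range.2 (by omega)) h),
        Finset.sum_eq_single k (fun j _ hj => by rw [if_neg (by omega), mul_zero])
        (fun h => absurd (Finset.mem_range.2 (by omega)) h), if_pos ⟨rfl, rfl⟩, prev_succ]
      ring
  have t4 : ∑ i ∈ Finset.range n, ∑ j ∈ Finset.range n, X i * X j *
      (if i = k ∧ j = k + 1 then δ * (μ ^ (5 * k)) ^ 2 / μ ^ (5 * (k + 1)) else 0)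
      = X k * X (k + 1) * (δ * (μ ^ (5 * k)) ^ 2 / μ ^ (5 * (k + 1))) := by
    rw [Finset.sum_eq_single k (fun i _ hi => Finset.sum_eq_zero fun j _ => by
      rw [if_neg (by omega), mul_zero]) (fun h => absurd (Finset.mem_range.2 (by omega)) h),
      Finset.sum_eq_single (k + 1) (fun j _ hj => by rw [if_neg (by omega), mul_zero])
      (fun h => absurd (Finset.mem_range.2 (by omega)) h), if_pos ⟨rfl, rfl⟩]
  have split : ∑ i ∈ Finset.range n, ∑ j ∈ Finset.range n, X i * X j * β μ a δ i k j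
      = a * ((∑ i ∈ Finset.range n, ∑ j ∈ Finset.range n,
          X i * X j * (if i = j ∧ k < j then -μ ^ (5 * k) else 0))
        + (∑ i ∈ Finset.range n, ∑ j ∈ Finset.range n,
          X i * X j * (if i = k ∧ j < k then μ ^ (5 * j) else 0))
        + (∑ i ∈ Finset.range n, ∑ j ∈ Finset.range n,
          X i * X j * (if i = j ∧ j + 1 = k then δ * (μ ^ (5 * j)) ^ 2 / μ ^ (5 * k) else 0))
        - ∑ i ∈ Finset.range n, ∑ j ∈ Finset.range n, X i * X j *
          (if i = k ∧ j = k + 1 then δ * (μ ^ (5 * k)) ^ 2 / μ ^ (5 * (k + 1)) else 0)) := by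
    simp only [← Finset.sum_add_distrib, ← Finset.sum_sub_distrib, Finset.mul_sum]
    refine Finset.sum_congr rfl fun i _ => Finset.sum_congr rfl fun j _ => ?_
    unfold β
    ring
  have e1 : Sg (fun j => a * μ ^ (5 * j) * X j) k
      = a * ∑ j ∈ Finset.range k, μ ^ (5 * j) * X j := by
    simp only [Sg, Finset.mul_sum, mul_assoc]
  have e2 : prev (fun j => a * μ ^ (5 * j) * X j) k = a * prev (fun j => μ ^ (5 * j) * X j) k := by
    cases k <;> simp [mul_assoc]
  have e3 : ∑ m ∈ Finset.range (p + 1),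
      (μ ^ 10)⁻¹ ^ (m + 1) * (a * μ ^ (5 * (k + m + 1)) * X (k + m + 1)) ^ 2
      = (a * μ ^ (5 * k)) ^ 2 * ∑ m ∈ Finset.range (p + 1), X (k + m + 1) ^ 2 := by
    rw [Finset.mul_sum]
    refine Finset.sum_congr rfl fun m _ => ?_
    rw [inv_pow]
    field_simp
    ring
  rw [split, t1, t2, t3, t4, e1, e2, e3]
  field_simp
  ring

namespace Fam

variable {μ a δ m₂ R B : ℝ} {Ψ : ℕ → E → E}

lemma compact (h : Fam μ a δ m₂ R B Ψ) (k : ℕ) : HasCompactSupport (Ψ k) :=
  compact_of_far (h.far k)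

lemma far' (h : Fam μ a δ m₂ R B Ψ) (k : ℕ) (x : E) (hx : Ψ k x ≠ 0) : ‖x‖ ≤ R := by
  refine (h.far k x hx).trans (div_le_self h.hR.le (one_le_pow₀ ?_))
  nlinarith [h.hμ]

lemma ps_continuous (h : Fam μ a δ m₂ R B Ψ) (X : ℕ → ℝ) (n : ℕ) : Continuous (ps Ψ X n) :=
  continuous_finsetSum _ fun k _ => (h.smooth k).continuous.const_smul (X k)

lemma ps_far (h : Fam μ a δ m₂ R B Ψ) (X : ℕ → ℝ) (n : ℕ) (x : E) (hx : ps Ψ X n x ≠ 0) :
    ‖x‖ ≤ R := by
  by_contra hcon
  exact hx (Finset.sum_eq_zero fun k _ => by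
    rw [not_not.1 (mt (h.far' k x) hcon), smul_zero])

lemma ps_compact (h : Fam μ a δ m₂ R B Ψ) (X : ℕ → ℝ) (n : ℕ) : HasCompactSupport (ps Ψ X n) :=
  compact_of_far (h.ps_far X n)

lemma err_integrable (h : Fam μ a δ m₂ R B Ψ) {X : ℕ → ℝ} {u : E → E} (hu : IsSum Ψ X u)
    (n : ℕ) : Integrable fun x => ‖u x - ps Ψ X n x‖ ^ 2 :=
  (hu.l2.sub ((h.ps_continuous X n).memLp_of_hasCompactSupport
    (h.ps_compact X n))).integrable_norm_pow two_ne_zero

lemma pair_tendsto (h : Fam μ a δ m₂ R B Ψ) {X : ℕ → ℝ} {u G : E → E} (hu : IsSum Ψ X u)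
    (hG : Continuous G) (hc : HasCompactSupport G) :
    Tendsto (fun n => ∑ j ∈ Finset.range n, X j * ∫ x, inner ℝ (Ψ j x) (G x)) atTop
      (𝓝 (∫ x, inner ℝ (u x) (G x))) := by
  have h1 := tendsto_pair (f := fun n x => inner ℝ (u x - ps Ψ X n x) (G x))
    (g := fun x => ‖G x‖) (C := 0)
    ((hG.norm.pow 2).integrable_of_hasCompactSupport (compact_of_zero hc fun x hx => by simp [hx]))
    (h.err_integrable hu) hu.lim (fun n x => by
      rw [zero_mul, add_zero, mul_comm]
      exact abs_real_inner_le_norm _ _)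
  have h2 : ∀ n, ∫ x, inner ℝ (u x - ps Ψ X n x) (G x) = (∫ x, inner ℝ (u x) (G x))
      - ∑ j ∈ Finset.range n, X j * ∫ x, inner ℝ (Ψ j x) (G x) := fun n => by
    simp_rw [inner_sub_left]
    rw [integral_sub (integrable_inner_right hu.smooth.continuous hG hc)
      (integrable_inner_right (h.ps_continuous X n) hG hc)]
    simp only [ps, sum_inner, inner_smul_left, conj_trivial]
    rw [integral_finsetSum _ fun j _ =>
      (integrable_inner_right (h.smooth j).continuous hG hc).const_mul _]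
    simp only [integral_const_mul]
  simp only [h2] at h1
  have h3 := h1.const_sub (∫ x, inner ℝ (u x) (G x))
  simpa using h3

lemma pair_eq (h : Fam μ a δ m₂ R B Ψ) {X : ℕ → ℝ} {u G : E → E} (hu : IsSum Ψ X u)
    (hG : Continuous G) (hc : HasCompactSupport G) {k : ℕ} {c : ℝ}
    (hk : ∀ j, ∫ x, inner ℝ (Ψ j x) (G x) = if j = k then c else 0) :
    ∫ x, inner ℝ (u x) (G x) = X k * c := by
  refine tendsto_nhds_unique (h.pair_tendsto hu hG hc) (tendsto_const_nhds.congr' ?_)
  filter_upwards [eventually_gt_atTop k] with n hn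
  simp [hk, hn]

lemma coef_eq (h : Fam μ a δ m₂ R B Ψ) {X : ℕ → ℝ} {u : E → E} (hu : IsSum Ψ X u) (k : ℕ) :
    ∫ x, inner ℝ (u x) (Ψ k x) = X k := by
  simpa using h.pair_eq hu (h.smooth k).continuous (h.compact k) (fun j => h.orth j k)

lemma lap_eq (h : Fam μ a δ m₂ R B Ψ) {X : ℕ → ℝ} {u : E → E} (hu : IsSum Ψ X u) (k : ℕ) :
    ∫ x, inner ℝ (lap u x) (Ψ k x) = X k * -(m₂ * (μ ^ 4) ^ k) := by
  rw [integral_lap_symm (hu.smooth.of_le two_le_infty) ((h.smooth k).of_le two_le_infty)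
    (h.compact k)]
  exact h.pair_eq hu (lap_continuous ((h.smooth k).of_le two_le_infty)) (lap_compact (h.compact k))
    (fun j => h.lapl j k)

lemma weak_div (h : Fam μ a δ m₂ R B Ψ) {X : ℕ → ℝ} {u : E → E} (hu : IsSum Ψ X u) {g : E → ℝ}
    (hg : ContDiff ℝ 1 g) (hc : HasCompactSupport g) : ∫ x, fderiv ℝ g x (u x) = 0 := by
  have h1 : ∀ x v, fderiv ℝ g x v = inner ℝ v (∑ i, pd i g x • e i) := fun x v => by
    rw [clm_apply_eq_sum, inner_sum]
    refine Finset.sum_congr rfl fun i _ => ?_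
    simp [inner_smul_right, EuclideanSpace.inner_single_right, pd, mul_comm]
  simp_rw [h1]
  have := h.pair_eq hu (G := fun x => ∑ i, pd i g x • e i)
    (continuous_finsetSum _ fun i _ => (pd_continuous hg i).smul continuous_const)
    (compact_of_zero (hc.fderiv ℝ) fun x hx => by simp [pd, hx]) (k := 0) (c := 0) fun j => by
      simp_rw [← h1]
      rw [integral_fderiv_apply hg ((h.smooth j).of_le one_le_infty)
        (compact_of_zero hc fun x hx => by simp [hx]) (h.dv j)]
      simp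
  simpa using this

lemma conv_eq (h : Fam μ a δ m₂ R B Ψ) {X : ℕ → ℝ} {u : E → E} (hu : IsSum Ψ X u) (k : ℕ) :
    tri u u (Ψ k) = - tri u (Ψ k) u := by
  have hu1 := hu.smooth.of_le one_le_infty
  have hΨ := (h.smooth k).of_le one_le_infty
  have h1 := h.weak_div hu (g := fun x => inner ℝ (u x) (Ψ k x)) (hu1.inner ℝ hΨ)
    (compact_of_zero (h.compact k) fun x hx => by simp [hx])
  simp_rw [fderiv_inner_apply ℝ (hu1.differentiable one_ne_zero _)
    (hΨ.differentiable one_ne_zero _)] at h1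
  rw [integral_add (integrable_inner_right hu1.continuous
      ((hΨ.continuous_fderiv one_ne_zero).clm_apply hu1.continuous)
      (compact_of_zero ((h.compact k).fderiv ℝ) fun x hx => by simp [hx]))
    (integrable_inner_right ((hu1.continuous_fderiv one_ne_zero).clm_apply hu1.continuous)
      hΨ.continuous (h.compact k))] at h1
  unfold tri
  simp_rw [real_inner_comm (u _)]
  linarith

lemma tri_tendsto (h : Fam μ a δ m₂ R B Ψ) {X : ℕ → ℝ} {u : E → E} (hu : IsSum Ψ X u) (k : ℕ) :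
    Tendsto (fun n => ∑ i ∈ Finset.range n, ∑ j ∈ Finset.range n, X i * X j * β μ a δ i k j)
      atTop (𝓝 (tri u (Ψ k) u)) := by
  have hD : Continuous (fderiv ℝ (Ψ k)) := (h.smooth k).continuous_fderiv (by simp)
  have hDc : HasCompactSupport (fderiv ℝ (Ψ k)) := (h.compact k).fderiv ℝ
  have huc := hu.smooth.continuous
  obtain ⟨C, hC⟩ := hD.bounded_above_of_compact_support hDc
  have h1 := tendsto_pair (f := fun n x => inner ℝ (fderiv ℝ (Ψ k) x (u x)) (u x)
      - inner ℝ (fderiv ℝ (Ψ k) x (ps Ψ X n x)) (ps Ψ X n x))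
    (g := fun x => 2 * (‖fderiv ℝ (Ψ k) x‖ * ‖u x‖)) (C := C)
    ((((hD.norm.mul huc.norm).const_mul 2).pow 2).integrable_of_hasCompactSupport
      (compact_of_zero hDc fun x hx => by simp [hx]))
    (h.err_integrable hu) hu.lim (fun n x => by
      set w := u x - ps Ψ X n x with hw
      set D := fderiv ℝ (Ψ k) x
      have e1 : ps Ψ X n x = u x - w := by rw [hw]; abel
      have e2 : inner ℝ (D (u x)) (u x) - inner ℝ (D (ps Ψ X n x)) (ps Ψ X n x)
          = inner ℝ (D (u x)) w + inner ℝ (D w) (u x) - inner ℝ (D w) w := by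
        rw [e1]
        clear_value w
        simp only [map_sub, inner_sub_left, inner_sub_right]
        ring
      have b : ∀ p q : E, |inner ℝ (D p) q| ≤ ‖D‖ * ‖p‖ * ‖q‖ := fun p q =>
        (abs_real_inner_le_norm _ _).trans
          (mul_le_mul_of_nonneg_right (D.le_opNorm p) (norm_nonneg _))
      have b1 := abs_le.1 (b (u x) w)
      have b2 := abs_le.1 (b w (u x))
      have b3 := abs_le.1 (b w w)
      have b4 := mul_le_mul_of_nonneg_right (hC x) (sq_nonneg ‖w‖)
      rw [e2, abs_le]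
      constructor <;> nlinarith)
  have h2 : ∀ n, ∫ x, (inner ℝ (fderiv ℝ (Ψ k) x (u x)) (u x)
      - inner ℝ (fderiv ℝ (Ψ k) x (ps Ψ X n x)) (ps Ψ X n x)) = tri u (Ψ k) u
      - ∑ i ∈ Finset.range n, ∑ j ∈ Finset.range n, X i * X j * β μ a δ i k j := fun n => by
    rw [integral_sub (integrable_inner_left (hD.clm_apply huc) huc
        (compact_of_zero hDc fun x hx => by simp [hx]))
      (integrable_inner_right (hD.clm_apply (h.ps_continuous X n)) (h.ps_continuous X n)
        (h.ps_compact X n))]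
    congr 1
    have i1 : ∀ i j, Integrable fun x =>
        X i * X j * inner ℝ (fderiv ℝ (Ψ k) x (Ψ i x)) (Ψ j x) := fun i j =>
      (integrable_inner_right (hD.clm_apply (h.smooth i).continuous) (h.smooth j).continuous
        (h.compact j)).const_mul _
    have e1 : ∀ x, inner ℝ (fderiv ℝ (Ψ k) x (ps Ψ X n x)) (ps Ψ X n x)
        = ∑ i ∈ Finset.range n, ∑ j ∈ Finset.range n,
          X i * X j * inner ℝ (fderiv ℝ (Ψ k) x (Ψ i x)) (Ψ j x) := fun x => by
      conv_lhs => rw [ps, map_sum, sum_inner]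
      refine Finset.sum_congr rfl fun i _ => ?_
      rw [inner_sum]
      refine Finset.sum_congr rfl fun j _ => ?_
      simp only [map_smul, inner_smul_left, inner_smul_right, conj_trivial]
      ring
    simp_rw [e1]
    rw [integral_finsetSum _ fun i _ => integrable_finsetSum _ fun j _ => i1 i j]
    refine Finset.sum_congr rfl fun i _ => ?_
    rw [integral_finsetSum _ fun j _ => i1 i j]
    refine Finset.sum_congr rfl fun j _ => ?_
    rw [integral_const_mul, ← h.tril, tri]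
  simp only [h2] at h1
  have h3 := h1.const_sub (tri u (Ψ k) u)
  simpa using h3

/-- The projected nonlinearity and viscosity are given by the shell vector field. -/
theorem projected (h : Fam μ a δ m₂ R B Ψ) {X : ℕ → ℝ} {u : E → E} (hu : IsSum Ψ X u) (ν : ℝ)
    (k : ℕ) (hs : Summable fun m =>
      (μ ^ 10)⁻¹ ^ (m + 1) * (a * μ ^ (5 * (k + m + 1)) * X (k + m + 1)) ^ 2) :
    a * μ ^ (5 * k) * ∫ x, inner ℝ (fderiv ℝ u x (u x) - ν • lap u x) (Ψ k x)
      = - fld (ν * m₂) (μ ^ 4) δ (μ ^ 10)⁻¹ (fun j => a * μ ^ (5 * j) * X j) k := by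
  have hμ : 0 < μ := by linarith [h.hμ]
  have hu1 := hu.smooth.of_le one_le_infty
  have h1 := ((h.tri_tendsto hu k).comp
    (show Tendsto (fun p => k + 1 + (p + 1)) atTop atTop from
      tendsto_atTop_mono (fun p => by simp only [id]; omega) tendsto_id)).const_mul
      (a * μ ^ (5 * k))
  simp only [Function.comp_def, dbl_sum hμ] at h1
  have h2 := (hs.hasSum.tendsto_sum_nat.comp (tendsto_add_atTop_nat 1)).const_sub
    (Sg (fun j => a * μ ^ (5 * j) * X j) k * (a * μ ^ (5 * k) * X k)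
      + δ * prev (fun j => a * μ ^ (5 * j) * X j) k ^ 2
      - δ * (μ ^ 10)⁻¹ * (a * μ ^ (5 * k) * X k) * (a * μ ^ (5 * (k + 1)) * X (k + 1)))
  have h3 := tendsto_nhds_unique h1 h2
  simp_rw [inner_sub_left, inner_smul_left]
  rw [integral_sub (integrable_inner_right
      ((hu1.continuous_fderiv one_ne_zero).clm_apply hu1.continuous) (h.smooth k).continuous
      (h.compact k))
    ((integrable_inner_right (lap_continuous (hu.smooth.of_le two_le_infty))
      (h.smooth k).continuous (h.compact k)).const_mul _), integral_const_mul, h.lap_eq hu]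
  have h4 := h.conv_eq hu k
  unfold tri at h4 h3
  rw [h4]
  simp only [fld, Rt, conj_trivial]
  linear_combination -h3

end Fam

end Pool.Agent.Work.MP_6bf1e5_an.Vortex
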