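import Mathlib

/-! Definitions used in the statement of the Galerkin blow-up theorem. -/

namespace Pool.Agent.Work.MP_6bf1e5_an.Vortex

open MeasureTheory Filter Topology
open scoped ContDiff

/-- Three-dimensional Euclidean space. -/
abbrev E := EuclideanSpace ℝ (Fin 3)

/-- The derivative of `u` in the `i`-th coordinate direction. -/
noncomputable def pd {F : Type} [NormedAddCommGroup F] [NormedSpace ℝ F] (i : Fin 3) (u : E → F)
    (x : E) : F :=
  fderiv ℝ u x (EuclideanSpace.single i 1)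

/-- The divergence of a vector field. -/
noncomputable def dvg (u : E → E) (x : E) : ℝ := ∑ i, pd i u x i

/-- The Laplacian of a vector field. -/
noncomputable def lap (u : E → E) (x : E) : E := ∑ i, pd i (pd i u) x

/-- The `L²`-invariant rescaling `lam ^ (3k/2) ψ (lam ^ k x)`. -/
noncomputable def mode (ψ : E → E) (lam : ℝ) (k : ℕ) (x : E) : E :=
  lam ^ (3 * (k : ℝ) / 2) • ψ (lam ^ k • x)

/-- `u` is a smooth solution, on the time set `I`, of the unforced Navier-Stokes equations with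
viscosity `ν` projected onto the closed `L²`-span of the fields `Ψ k`: it is smooth in `(t, x)`,
each `u t` is the `L²`-sum of a series in the `Ψ k`, and the Navier-Stokes residual
`∂ₜ u + (u · ∇) u - ν Δ u` is `L²`-orthogonal to every `Ψ k`. -/
structure IsGalerkinSolution (ν : ℝ) (Ψ : ℕ → E → E) (I : Set ℝ) (u : ℝ → E → E) : Prop where
  smooth : ContDiffOn ℝ ∞ (fun p : ℝ × E => u p.1 p.2) (I ×ˢ Set.univ)
  memL2 : ∀ t ∈ I, MemLp (u t) 2 volume
  span : ∀ t ∈ I, ∃ X : ℕ → ℝ,
    Tendsto (fun n => ∫ x, ‖u t x - ∑ k ∈ Finset.range n, X k • Ψ k x‖ ^ 2) atTop (𝓝 0)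
  eqn : ∀ t ∈ I, ∀ k, ∫ x, inner ℝ (derivWithin (fun s => u s x) I t
    + fderiv ℝ (u t) x (u t x) - ν • lap (u t) x) (Ψ k x) = 0

end Pool.Agent.Work.MP_6bf1e5_an.Vortex
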