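import Pool.Agent.Work.MP_6bf1e5_an.Vortex.Series

/-! Incompressibility and the energy identity. -/

namespace Pool.Agent.Work.MP_6bf1e5_an.Vortex

open MeasureTheory Filter Topology Set
open scoped ContDiff

lemma exists_functional {w : ℕ → ℝ} {c : ℝ} (hw : ∀ k, |w k| ≤ c * (1 / 2) ^ k) :
    ∃ l : H →L[ℝ] ℝ, ∀ z, (Summable fun k => w k * z k) ∧ l z = ∑' k, w k * z k := by
  have hc : 0 ≤ c := by simpa using (abs_nonneg _).trans (hw 0)
  have hb : ∀ (z : H) k, ‖w k * z k‖ ≤ c * ‖z‖ * (1 / 2) ^ k := fun z k => by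
    rw [Real.norm_eq_abs, abs_mul]
    have := mul_le_mul (hw k) (abs_H_le z k) (abs_nonneg _) (by positivity)
    linarith
  have hs : ∀ z : H, Summable fun k => w k * z k := fun z =>
    Summable.of_norm_bounded (summable_geometric_two.mul_left _) (hb z)
  obtain ⟨L, hL⟩ := exists_op (fun z _ => ∑' k, w k * z k)
    (fun z z' _ => by rw [← (hs z).tsum_add (hs z')]; simp [mul_add])
    (fun c z _ => by rw [← tsum_mul_left]; simp [mul_left_comm]) (c * 2) (by positivity)
    fun z _ => by
      have := tsum_of_norm_bounded (hasSum_geometric_two.mul_left (c * ‖z‖)) (hb z)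
      rw [Real.norm_eq_abs] at this
      linarith
  exact ⟨(BoundedContinuousFunction.evalCLM ℝ 0).comp L, fun z => ⟨hs z, hL z 0⟩⟩

namespace Fam

variable {μ a δ m₂ R B : ℝ} {Ψ : ℕ → E → E}

lemma sm_compact (h : Fam μ a δ m₂ R B Ψ) (X : ℕ → ℝ) : HasCompactSupport (sm Ψ X) :=
  compact_of_far (R := R) fun x hx => by
    by_contra hcon
    apply hx
    simp [sm, fun k => not_not.1 (mt (h.far' k x) hcon)]

lemma dvg_zero (h : Fam μ a δ m₂ R B Ψ) {X : ℕ → ℝ} {u : E → E} (hu : IsSum Ψ X u)
    (hc : HasCompactSupport u) (x : E) : dvg u x = 0 := by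
  have hd : ContDiff ℝ ∞ (dvg u) :=
    ContDiff.sum fun i _ => (pr i).contDiff.comp (pd_contDiff hu.smooth i)
  have hdc : HasCompactSupport (dvg u) :=
    compact_of_zero (hc.fderiv ℝ) fun x hx => by simp [dvg, pd, hx]
  have h1 := integral_div (hd.of_le one_le_infty) (hu.smooth.of_le one_le_infty)
    (compact_of_zero hc fun x hx => by simp [hx])
  have i1 : Integrable fun x => fderiv ℝ (dvg u) x (u x) :=
    ((hd.continuous_fderiv (by simp)).clm_apply
      hu.smooth.continuous).integrable_of_hasCompactSupport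
      (compact_of_zero hc fun x hx => by simp [hx])
  have c2 : Continuous fun x => dvg u x * dvg u x := hd.continuous.mul hd.continuous
  have k2 : HasCompactSupport fun x => dvg u x * dvg u x :=
    compact_of_zero hdc fun x hx => by simp [hx]
  rw [integral_add i1 (c2.integrable_of_hasCompactSupport k2),
    h.weak_div hu (hd.of_le one_le_infty) hdc, zero_add] at h1
  by_contra hx
  exact (c2.integral_pos_of_hasCompactSupport_nonneg_nonzero k2 (fun x => mul_self_nonneg _)
    (mul_ne_zero hx hx)).ne' h1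

lemma pair_tsum (h : Fam μ a δ m₂ R B Ψ) {X c : ℕ → ℝ} {u G : E → E} (hu : IsSum Ψ X u)
    (hG : Continuous G) (hc : HasCompactSupport G) (hk : ∀ j, ∫ x, inner ℝ (G x) (Ψ j x) = c j)
    (hs : Summable fun j => X j * c j) : ∫ x, inner ℝ (G x) (u x) = ∑' j, X j * c j := by
  have h1 := h.pair_tendsto hu hG hc
  simp_rw [real_inner_comm (G _), hk] at h1
  exact tendsto_nhds_unique h1 hs.hasSum.tendsto_sum_nat

lemma norm_sq_eq (h : Fam μ a δ m₂ R B Ψ) {X : ℕ → ℝ} {u : E → E} (hu : IsSum Ψ X u)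
    (hc : HasCompactSupport u) (hs : Summable fun j => X j * X j) :
    ∫ x, ‖u x‖ ^ 2 = ∑' j, X j * X j := by
  simp_rw [← real_inner_self_eq_norm_sq]
  exact h.pair_tsum hu hu.smooth.continuous hc (h.coef_eq hu) hs

lemma grad_sq_eq {u : E → E} (hu : ContDiff ℝ ∞ u) (hc : HasCompactSupport u) :
    ∫ x, ∑ i, ‖pd i u x‖ ^ 2 = - ∫ x, inner ℝ (lap u x) (u x) := by
  rw [integral_inner_lap (hu.of_le two_le_infty) (hu.of_le one_le_infty) hc, neg_neg]
  simp_rw [← real_inner_self_eq_norm_sq]
  exact integral_finsetSum _ fun i _ => integrable_inner_right (pd_contDiff hu i).continuous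
    (pd_contDiff hu i).continuous (pd_compact hc i)

lemma power_eq (h : Fam μ a δ m₂ R B Ψ) {X : ℕ → ℝ} {u v : E → E} (hu : IsSum Ψ X u)
    (hc : HasCompactSupport u) (hv : Continuous v) (hvc : HasCompactSupport v) (ν : ℝ)
    (he : ∀ k, ∫ x, inner ℝ (v x + fderiv ℝ u x (u x) - ν • lap u x) (Ψ k x) = 0) :
    ∫ x, inner ℝ (v x) (u x) = -(ν * ∫ x, ∑ i, ‖pd i u x‖ ^ 2) := by
  have hu1 := hu.smooth.of_le one_le_infty
  have c1 : Continuous fun x => fderiv ℝ u x (u x) :=
    (hu1.continuous_fderiv one_ne_zero).clm_apply hu1.continuous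
  have c2 := lap_continuous (hu.smooth.of_le two_le_infty)
  have k1 : HasCompactSupport fun x => fderiv ℝ u x (u x) :=
    compact_of_zero hc fun x hx => by simp [hx]
  have k2 : HasCompactSupport fun x => ν • lap u x :=
    compact_of_zero (lap_compact hc) fun x hx => by simp [hx]
  have h1 := h.pair_tsum hu (G := fun x => v x + fderiv ℝ u x (u x) - ν • lap u x)
    ((hv.add c1).sub (c2.const_smul ν)) ((hvc.add k1).sub k2) he (by simp [summable_zero])
  have h2 := tri_antisymm hu1 hu1 hu1 hc (h.dvg_zero hu hc)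
  have i1 := integrable_inner_right hv hu1.continuous hc
  have i2 := integrable_inner_right c1 hu1.continuous hc
  have i3 : Integrable fun x => inner ℝ (v x) (u x) + inner ℝ (fderiv ℝ u x (u x)) (u x) :=
    i1.add i2
  simp_rw [inner_sub_left, inner_add_left, inner_smul_left] at h1
  rw [integral_sub i3 ((integrable_inner_right c2 hu1.continuous hc).const_mul _),
    integral_add i1 i2, integral_const_mul] at h1
  unfold tri at h2
  rw [grad_sq_eq hu.smooth hc]
  simp only [mul_zero, tsum_zero, conj_trivial] at h1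
  linarith

end Fam

end Pool.Agent.Work.MP_6bf1e5_an.Vortex
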