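import Pool.Agent.Work.MP_6bf1e5_an.Vortex.Pairing

/-! The orthonormal family and its structure constants. -/

namespace Pool.Agent.Work.MP_6bf1e5_an.Vortex

open MeasureTheory Filter Topology
open scoped ContDiff

/-- The structure constants `∫ ⟨(Ψ i · ∇) Ψ k, Ψ j⟩`. -/
noncomputable def β (μ a δ : ℝ) (i k j : ℕ) : ℝ :=
  a * ((if i = j ∧ k < j then -μ ^ (5 * k) else 0) + (if i = k ∧ j < k then μ ^ (5 * j) else 0)
    + (if i = j ∧ j + 1 = k then δ * (μ ^ (5 * j)) ^ 2 / μ ^ (5 * k) else 0)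
    - (if i = k ∧ j = k + 1 then δ * (μ ^ (5 * k)) ^ 2 / μ ^ (5 * (k + 1)) else 0))

/-- The properties of the family of modes. -/
structure Fam (μ a δ m₂ R B : ℝ) (Ψ : ℕ → E → E) : Prop where
  hμ : 1000 ≤ μ
  ha : 0 < a
  hm₂ : 0 ≤ m₂
  hR : 0 < R
  hB : 0 ≤ B
  δ1 : δ ≤ Real.exp (-(42 * μ ^ 4))
  δ2 : Real.exp (-(42 * μ ^ 4)) / 2 ≤ δ
  smooth : ∀ k, ContDiff ℝ ∞ (Ψ k)
  far : ∀ k x, Ψ k x ≠ 0 → ‖x‖ ≤ R / (μ ^ 2) ^ k
  dv : ∀ k x, dvg (Ψ k) x = 0
  orth : ∀ j k, ∫ x, inner ℝ (Ψ j x) (Ψ k x) = if j = k then 1 else 0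
  lapl : ∀ j k, ∫ x, inner ℝ (Ψ j x) (lap (Ψ k) x) = if j = k then -(m₂ * (μ ^ 4) ^ k) else 0
  tril : ∀ i k j, tri (Ψ i) (Ψ k) (Ψ j) = β μ a δ i k j
  l1 : ∀ k, ∫ x, ‖Ψ k x‖ = B / μ ^ (3 * k)
  der : ∀ n : ℕ, ∃ C, ∀ k x, ‖iteratedFDeriv ℝ n (Ψ k) x‖ ≤ C * (μ ^ (3 + 2 * n)) ^ k

lemma tri_smul {u v w : E → E} (hv : Differentiable ℝ v) (a b c : ℝ) :
    tri (fun x => a • u x) (fun x => b • v x) (fun x => c • w x) = a * b * c * tri u v w := by
  unfold tri
  rw [← integral_const_mul]
  congr 1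
  funext x
  rw [fderiv_fun_const_smul (hv x)]
  simp [inner_smul_left, inner_smul_right]
  ring

lemma lap_smul {u : E → E} (hu : ContDiff ℝ 2 u) (c : ℝ) (x : E) :
    lap (fun y => c • u y) x = c • lap u x := by
  simpa using lap_scale c 1 hu x

lemma tri_eq_β {μ a δ : ℝ} {T : ℕ → ℕ → ℕ → ℝ} (anti : ∀ i j k, T i j k = - T i k j)
    (third : ∀ i j k, i < k → j < k → T i j k
      = if i + 1 = k ∧ j + 1 = k then -(a * (δ * (μ ^ (5 * j)) ^ 2 / μ ^ (5 * k))) else 0)
    (first : ∀ i j k, i < k → j < k → T k j i = 0)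
    (outer : ∀ j k, j < k → T k j k = -(a * μ ^ (5 * j))) (i k j : ℕ) :
    T i k j = β μ a δ i k j := by
  have diag : ∀ i k, T i k k = 0 := fun i k => by linarith [anti i k k]
  unfold β
  rcases lt_trichotomy k j with hkj | hkj | hkj
  · rcases lt_trichotomy i j with hij | hij | hij
    · rw [third i k j hij hkj]
      by_cases h : i + 1 = j ∧ k + 1 = j
      · obtain ⟨h1, h2⟩ := h
        have h3 : i = k := by omega
        subst h3
        subst h1
        simp
      · rw [if_neg h, if_neg (by omega), if_neg (by omega), if_neg (by omega), if_neg (by omega)]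
        simp
    · subst hij
      rw [outer k i hkj, if_pos ⟨rfl, hkj⟩, if_neg (by omega), if_neg (by omega),
        if_neg (by omega)]
      ring
    · rw [first j k i hij (by omega), if_neg (by omega), if_neg (by omega), if_neg (by omega),
        if_neg (by omega)]
      simp
  · subst hkj
    rw [diag, if_neg (by omega), if_neg (by omega), if_neg (by omega), if_neg (by omega)]
    simp
  · rw [anti]
    rcases lt_trichotomy i k with hik | hik | hik
    · rw [third i j k hik hkj]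
      by_cases h : i + 1 = k ∧ j + 1 = k
      · rw [if_pos h, if_neg (by omega), if_neg (by omega), if_pos (by omega), if_neg (by omega)]
        ring
      · rw [if_neg h, if_neg (by omega), if_neg (by omega), if_neg (by omega), if_neg (by omega)]
        simp
    · subst hik
      rw [outer j i hkj, if_neg (by omega), if_pos ⟨rfl, hkj⟩, if_neg (by omega),
        if_neg (by omega)]
      ring
    · rw [first k j i hik (by omega), if_neg (by omega), if_neg (by omega), if_neg (by omega),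
        if_neg (by omega)]
      simp

lemma der_scale {ψ : E → E} (hψ : ContDiff ℝ ∞ ψ) (hc : HasCompactSupport ψ) (n : ℕ) :
    ∃ C, ∀ (c s : ℝ), 0 ≤ c → 0 ≤ s → ∀ x,
      ‖iteratedFDeriv ℝ n (fun y => c • ψ (s • y)) x‖ ≤ C * (c * s ^ n) := by
  have hn : (n : WithTop ℕ∞) ≤ ∞ := by exact_mod_cast le_top
  obtain ⟨C, hC⟩ := (hψ.continuous_iteratedFDeriv hn).bounded_above_of_compact_support
    (hc.iteratedFDeriv n)
  have hC0 : 0 ≤ C := (norm_nonneg _).trans (hC 0)
  refine ⟨C, fun c s hc0 hs x => ?_⟩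
  rw [iteratedFDeriv_const_smul_apply' ((scale_contDiff hψ s).of_le hn).contDiffAt, norm_smul,
    Real.norm_of_nonneg hc0]
  have h1 := (s • ContinuousLinearMap.id ℝ E).iteratedFDeriv_comp_right hψ x hn
  have h2 : (fun y => ψ (s • y)) = ψ ∘ (s • ContinuousLinearMap.id ℝ E) := by
    funext y; simp
  rw [h2, h1]
  have h3 := ContinuousMultilinearMap.norm_compContinuousLinearMap_le
    (iteratedFDeriv ℝ n ψ ((s • ContinuousLinearMap.id ℝ E) x))
    (fun _ => s • ContinuousLinearMap.id ℝ E)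
  have h4 : ‖s • ContinuousLinearMap.id ℝ E‖ = s := by
    rw [norm_smul, ContinuousLinearMap.norm_id, Real.norm_of_nonneg hs, mul_one]
  simp only [h4, Finset.prod_const, Finset.card_univ, Fintype.card_fin] at h3
  have h5 := mul_le_mul_of_nonneg_right (hC ((s • ContinuousLinearMap.id ℝ E) x))
    (pow_nonneg hs n)
  have h6 := mul_le_mul_of_nonneg_left (h3.trans h5) hc0
  linarith

theorem exists_fam : ∃ μ₀ : ℝ, 1000 ≤ μ₀ ∧ ∀ μ, μ₀ ≤ μ → ∃ ψ : E → E, ∃ a δ m₂ R B,
    Fam μ a δ m₂ R B (fun k x => μ ^ (3 * k) • ψ ((μ ^ 2) ^ k • x)) := by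
  obtain ⟨lam₀, hlam₀⟩ := exists_prof
  refine ⟨max 1000 lam₀, le_max_left _ _, fun μ hμ => ?_⟩
  have hμ1 : 1000 ≤ μ := (le_max_left _ _).trans hμ
  have hμ2 : lam₀ ≤ μ := (le_max_right _ _).trans hμ
  have hμ0 : 0 < μ := by linarith
  obtain ⟨ϑ, a₀, m, τ, h⟩ := hlam₀ (μ ^ 2) (by nlinarith)
  have hl : 8 ≤ μ ^ 2 := by nlinarith
  let φ : E → E := fun x => m x + τ x
  have hφ : ContDiff ℝ ∞ φ := h.sm.add h.sτ
  have hφc : HasCompactSupport φ := compact_of_far (h.far hl)
  have hN : 0 < ∫ x, inner ℝ (φ x) (φ x) := by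
    refine (hφ.continuous.inner hφ.continuous).integral_pos_of_hasCompactSupport_nonneg_nonzero
      (x := (1 / 2 : ℝ) • e 0) (compact_of_zero hφc fun x hx => by simp [hx])
      (fun x => real_inner_self_nonneg) ?_
    have h1 : φ ((1 / 2 : ℝ) • e 0) = Sm ((1 / 2 : ℝ) • e 0) :=
      h.lin0 _ (by simp [norm_smul]; norm_num)
    rw [h1, inner_eq_sum]
    simp [Fin.sum_univ_three]
  set N := ∫ x, inner ℝ (φ x) (φ x) with hNdef
  set n := (Real.sqrt N)⁻¹ with hn
  have hn0 : 0 < n := by positivity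
  have hn2 : n ^ 2 * N = 1 := by
    rw [hn, inv_pow, Real.sq_sqrt hN.le]
    field_simp
  let ψ : E → E := fun x => n • φ x
  have hψ : ContDiff ℝ ∞ ψ := hφ.const_smul n
  have hψc : HasCompactSupport ψ := compact_of_zero hφc fun x hx => by simp [ψ, hx]
  have hΨ : ∀ (k : ℕ) (x : E), μ ^ (3 * k) • ψ ((μ ^ 2) ^ k • x)
      = (μ ^ (3 * k) * n) • ph (μ ^ 2) m τ k x := by
    intro k x
    simp only [ψ, φ, ph, smul_smul]
  have hsm : ∀ k, ContDiff ℝ ∞ fun x => (μ ^ (3 * k) * n) • ph (μ ^ 2) m τ k x := fun k =>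
    (h.ph_contDiff k).const_smul _
  have hcp : ∀ k, HasCompactSupport fun x => (μ ^ (3 * k) * n) • ph (μ ^ 2) m τ k x := fun k =>
    compact_of_zero (h.ph_compact hl k) fun x hx => by simp [hx]
  have hdv : ∀ k x, dvg (fun x => (μ ^ (3 * k) * n) • ph (μ ^ 2) m τ k x) x = 0 := fun k x => by
    rw [dvg_smul ((h.ph_contDiff k).differentiable (by simp)), h.ph_dvg, mul_zero]
  have ha₀ := h.a_pos
  have hsq : (μ ^ 2) ^ 2 = μ ^ 4 := by ring
  refine ⟨ψ, n ^ 3 * a₀, -ϑ / a₀, -∫ x, inner ℝ (ψ x) (lap ψ x), 5 * μ ^ 2 + 2, ∫ x, ‖ψ x‖,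
    hμ1, by positivity, neg_nonneg.2 (integral_lap_self_nonpos (hψ.of_le two_le_infty) hψc),
    by positivity, integral_nonneg fun x => norm_nonneg _, hsq ▸ h.δ1, hsq ▸ h.δ2,
    by simpa only [hΨ] using hsm, ?_, by simpa only [hΨ] using hdv, ?_, ?_, ?_, ?_, ?_⟩
  · simp only [hΨ]
    intro k x hx
    apply h.ph_far hl k x
    intro h0
    apply hx
    simp [h0]
  · simp only [hΨ]
    intro j k
    simp only [inner_smul_left, inner_smul_right, conj_trivial]
    rw [integral_const_mul, integral_const_mul]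
    rcases lt_trichotomy j k with hjk | hjk | hjk
    · rw [h.orth_lt hl hjk, if_neg hjk.ne]; simp
    · subst hjk
      have h1 := integral_scale (fun y => inner ℝ (φ y) (φ y)) (show 0 < (μ ^ 2) ^ j by positivity)
      rw [if_pos rfl]
      unfold ph
      rw [h1, ← hNdef, ← hn2]
      field_simp
      ring
    · simp_rw [real_inner_comm (ph (μ ^ 2) m τ k _)]
      rw [h.orth_lt hl hjk, if_neg hjk.ne']; simp
  · intro j k
    rcases lt_trichotomy j k with hjk | hjk | hjk
    · simp only [hΨ]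
      rw [← integral_lap_symm ((hsm j).of_le two_le_infty) ((hsm k).of_le two_le_infty) (hcp k)]
      simp only [lap_smul ((h.ph_contDiff j).of_le two_le_infty), inner_smul_left,
        inner_smul_right, conj_trivial]
      rw [integral_const_mul, integral_const_mul, h.lap_lt hl hjk, if_neg hjk.ne]
      simp
    · subst hjk
      simp only [lap_scale _ _ (hψ.of_le two_le_infty), inner_smul_left, inner_smul_right,
        conj_trivial]
      rw [integral_const_mul, integral_const_mul,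
        integral_scale (fun y => inner ℝ (ψ y) (lap ψ y)) (show 0 < (μ ^ 2) ^ j by positivity),
        if_pos trivial]
      field_simp
      ring
    · simp only [hΨ]
      simp only [lap_smul ((h.ph_contDiff k).of_le two_le_infty), inner_smul_left,
        inner_smul_right, conj_trivial]
      simp_rw [real_inner_comm (lap (ph (μ ^ 2) m τ k) _)]
      rw [integral_const_mul, integral_const_mul, h.lap_lt hl hjk, if_neg hjk.ne']
      simp
  · simp only [hΨ]
    apply tri_eq_β (T := fun i k j => tri (fun x => (μ ^ (3 * i) * n) • ph (μ ^ 2) m τ i x)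
      (fun x => (μ ^ (3 * k) * n) • ph (μ ^ 2) m τ k x)
      (fun x => (μ ^ (3 * j) * n) • ph (μ ^ 2) m τ j x))
    · intro i j k
      exact tri_antisymm ((hsm i).of_le one_le_infty) ((hsm j).of_le one_le_infty)
        ((hsm k).of_le one_le_infty) (hcp i) (hdv i)
    · intro i j k hik hjk
      rw [tri_smul ((h.ph_contDiff j).differentiable (by simp)), h.tri_third hl hik hjk]
      split_ifs with hc
      · obtain ⟨h1, h2⟩ := hc
        have h3 : i = j := by omega
        subst h3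
        subst h1
        field_simp
        ring
      · simp
    · intro i j k hik hjk
      rw [tri_smul ((h.ph_contDiff j).differentiable (by simp)), h.tri_first hl hik hjk, mul_zero]
    · intro j k hjk
      rw [tri_smul ((h.ph_contDiff j).differentiable (by simp)), h.tri_outer hl hjk]
      field_simp
      ring
  · intro k
    simp only [norm_smul, Real.norm_of_nonneg (show 0 ≤ μ ^ (3 * k) by positivity)]
    rw [integral_const_mul,
      integral_scale (fun y => ‖ψ y‖) (show 0 < (μ ^ 2) ^ k by positivity)]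
    field_simp
    ring
  · intro r
    obtain ⟨C, hC⟩ := der_scale hψ hψc r
    refine ⟨C, fun k x => (hC _ _ (by positivity) (by positivity) x).trans (le_of_eq ?_)⟩
    ring

end Pool.Agent.Work.MP_6bf1e5_an.Vortex
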