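import Pool.Agent.Work.MP_6bf1e5_an.Vortex.Trunc

/-! Passing to the limit in the truncated problems. -/

namespace Pool.Agent.Work.MP_6bf1e5_an.Vortex

open Set Filter Topology

lemma abs_sub_le_of_deriv {f f' : ℝ → ℝ} {τ L : ℝ} (hc : ContinuousOn f (Icc 0 τ))
    (hd : ∀ t ∈ Ioo 0 τ, HasDerivAt f (f' t) t) (hL : ∀ t ∈ Ioo 0 τ, |f' t| ≤ L) {a b : ℝ}
    (ha : a ∈ Icc 0 τ) (hb : b ∈ Icc 0 τ) : |f b - f a| ≤ L * |b - a| := by
  wlog hab : a ≤ b generalizing a b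
  · rw [abs_sub_comm, abs_sub_comm b]
    exact this hb ha (le_of_not_ge hab)
  have hsub : Icc a b ⊆ Icc 0 τ := Icc_subset_Icc ha.1 hb.2
  have hsub' : ∀ t ∈ Ioo a b, t ∈ Ioo 0 τ := fun t ht =>
    ⟨by linarith [ht.1, ha.1], by linarith [ht.2, hb.2]⟩
  have h1 := le_of_deriv_nonneg (f := fun t => f t + L * t) (f' := fun t => f' t + L * 1) hab
    ((hc.mono hsub).add (continuous_id.const_mul L).continuousOn)
    (fun t ht => (hd t (hsub' t ht)).add ((hasDerivAt_id t).const_mul L))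
    (fun t ht => by linarith [(abs_le.1 (hL t (hsub' t ht))).1])
  have h2 := le_of_deriv_nonpos (f := fun t => f t - L * t) (f' := fun t => f' t - L * 1) hab
    ((hc.mono hsub).sub (continuous_id.const_mul L).continuousOn)
    (fun t ht => (hd t (hsub' t ht)).sub ((hasDerivAt_id t).const_mul L))
    (fun t ht => by linarith [(abs_le.1 (hL t (hsub' t ht))).2])
  rw [abs_of_nonneg (sub_nonneg.2 hab), abs_le]
  constructor <;> linarith

lemma fld_continuous {d Λ δ ρ K A : ℝ} (hρ : 0 ≤ ρ) (hq : ρ * K ^ 2 ≤ 1 / 3) {y : ℝ → ℕ → ℝ}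
    (cy : ∀ k, Continuous (fun t => y t k)) (hb : ∀ t k, |y t k| ≤ K ^ k * A) (k : ℕ) :
    Continuous fun t => fld d Λ δ ρ (y t) k :=
  continuous_iff_continuousAt.2 fun t =>
    fld_tendsto hρ hq (Eventually.of_forall hb) (fun j => (cy j).continuousAt (x := t)) k

/-- What is kept of the truncated solution. -/
structure Pack (Λ δ ρ d A ε : ℝ) (L : ℕ → ℝ) (n : ℕ) (τ : ℝ) (z : ℝ → ℕ → ℝ) : Prop where
  hτ : τ ∈ Icc 0 (560 * Λ / A)
  cz : ∀ k, Continuous (fun t => z t k)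
  bd : ∀ t k, z t k ∈ Icc 0 ((560 * Λ) ^ k * A)
  lip : ∀ k s t, |z t k - z s k| ≤ L k * |t - s|
  eqn : ∀ k ≤ n, ∀ t ∈ Icc 0 τ,
    z t k = ε ^ k * A + ∫ s in (0 : ℝ)..t, fld d Λ δ ρ (z s) k
  big : ∀ k ≤ n, 14 * Λ ≤ Iof z τ k
  low : ∀ k ≤ n, ∀ t ∈ Icc 0 τ, 7 * Λ ≤ Iof z t k → A / 2 * Λ ^ k ≤ z t k
  half : ∀ k, ∀ t ∈ Icc 0 τ, Iof z t k ≤ 14 * Λ → z t (k + 1) ≤ z t k / 2
  rat : ∀ k, ∀ t ∈ Icc 0 τ,
    z t (k + 1) ≤ (ε + 2 * Iof z t (k + 1) + δ * Iof z t k) * z t k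

lemma exists_pack {Λ δ ρ d A : ℝ} (h : Par Λ δ ρ d A) :
    ∃ L : ℕ → ℝ, ∀ ε, 0 < ε → ε ≤ δ → ∀ n, ∃ τ z, Pack Λ δ ρ d A ε L n τ z := by
  choose L hL using fun k => fld_bound (d := d) (Λ := Λ) (δ := δ) (A := A) h.hρ h.hq k
  have hΛ := h.hΛ
  have hA := h.hA
  have hL0 : ∀ k, 0 ≤ L k := fun k =>
    (abs_nonneg _).trans (hL k (fun _ => 0) fun j => by simp; positivity)
  refine ⟨L, fun ε hε hεδ n => ?_⟩
  obtain ⟨τ, hτ, y, hB, hstop⟩ := exists_trunc h hε hεδ n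
  let z : ℝ → ℕ → ℝ := fun t => y (projIcc 0 τ hτ.1 t)
  have hzy : ∀ t ∈ Icc 0 τ, z t = y t := fun t ht => by simp only [z, projIcc_of_mem hτ.1 ht]
  have cz : ∀ k, Continuous (fun t => z t k) := fun k =>
    (hB.cy k).comp (continuous_subtype_val.comp continuous_projIcc)
  have hI : ∀ t ∈ Icc 0 τ, ∀ k, Iof z t k = Iof y t k := fun t ht k => by
    apply intervalIntegral.integral_congr
    intro s hs
    rw [uIcc_of_le ht.1] at hs
    simp only [hzy s ⟨hs.1, hs.2.trans ht.2⟩]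
  have dz : ∀ k ≤ n, ∀ t ∈ Ioo 0 τ, HasDerivAt (fun t => z t k) (fld d Λ δ ρ (z t) k) t := by
    intro k hk t ht
    rw [hzy t (Ioo_subset_Icc_self ht)]
    apply (hB.dy k hk t ht).congr_of_eventuallyEq
    filter_upwards [Ioo_mem_nhds ht.1 ht.2] with s hs
    rw [hzy s (Ioo_subset_Icc_self hs)]
  have bd : ∀ t k, z t k ∈ Icc 0 ((560 * Λ) ^ k * A) := fun t k =>
    ⟨hB.nonneg k (projIcc 0 τ hτ.1 t).2, hB.upper k (projIcc 0 τ hτ.1 t).2⟩
  have bd' : ∀ t k, |z t k| ≤ (560 * Λ) ^ k * A := fun t k => by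
    rw [abs_of_nonneg (bd t k).1]; exact (bd t k).2
  have hτc : τ ∈ Icc 0 τ := right_mem_Icc.2 hτ.1
  refine ⟨τ, z, hτ, cz, bd, ?_, ?_, ?_, ?_, ?_, ?_⟩
  · intro k s t
    rcases le_or_gt k n with hk | hk
    · have h1 := abs_sub_le_of_deriv (cz k).continuousOn (dz k hk)
        (fun t _ => hL k (z t) (bd' t)) (projIcc 0 τ hτ.1 s).2 (projIcc 0 τ hτ.1 t).2
      rw [hzy _ (projIcc 0 τ hτ.1 s).2, hzy _ (projIcc 0 τ hτ.1 t).2] at h1
      exact h1.trans (mul_le_mul_of_nonneg_left (abs_projIcc_sub_projIcc hτ.1) (hL0 k))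
    · simp only [z, hB.zero k hk, sub_self, abs_zero]
      exact mul_nonneg (hL0 k) (abs_nonneg _)
  · intro k hk t ht
    have h1 := intervalIntegral.integral_eq_sub_of_hasDerivAt_of_le ht.1 (cz k).continuousOn
      (fun s hs => dz k hk s ⟨hs.1, by linarith [hs.2, ht.2]⟩)
      ((fld_continuous h.hρ h.hq cz bd' k).intervalIntegrable 0 t)
    rw [h1, hzy 0 (left_mem_Icc.2 hτ.1), hB.y0 k hk]
    ring
  · have : ∀ j ≤ n, 14 * Λ ≤ Iof y τ (n - j) := by
      intro j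
      induction j with
      | zero => intro _; simpa using hstop
      | succ j ih =>
        intro hj
        have h1 := ih (by omega)
        by_contra hcon
        have h2 := hB.I_next_small (n - (j + 1)) hτc (not_le.1 hcon).le
        rw [show n - (j + 1) + 1 = n - j by omega] at h2
        linarith
    intro k hk
    rw [hI τ hτc]
    have h1 := this (n - k) (by omega)
    rwa [show n - (n - k) = k by omega] at h1
  · intro k hk t ht h7
    rw [hI t ht] at h7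
    rw [hzy t ht]
    exact (hB.claim k hk t ht h7).1
  · intro k t ht h14
    rw [hI t ht] at h14
    rw [hzy t ht]
    have h1 := hB.ratio_tiny k ht h14
    have h2 : 1 / (14 * Λ) ≤ 1 / 2 := one_div_le_one_div_of_le (by norm_num) (by linarith)
    have h3 := mul_le_mul_of_nonneg_right h2 (hB.nonneg k ht)
    linarith
  · intro k t ht
    rw [hI t ht, hI t ht, hzy t ht]
    exact hB.ratio_le k ht

lemma exists_subseq {T : ℝ} (hT : 0 ≤ T) (b L : ℕ → ℝ) (z : ℕ → ℝ → ℕ → ℝ) (τ : ℕ → ℝ)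
    (hτ : ∀ n, τ n ∈ Icc 0 T) (cz : ∀ n k, Continuous (fun t => z n t k))
    (bd : ∀ n t k, z n t k ∈ Icc 0 (b k))
    (lip : ∀ n k s t, |z n t k - z n s k| ≤ L k * |t - s|) :
    ∃ φ : ℕ → ℕ, StrictMono φ ∧ ∃ τ' ∈ Icc 0 T, ∃ Y : ℝ → ℕ → ℝ,
      Tendsto (fun n => τ (φ n)) atTop (𝓝 τ') ∧ (∀ k, Continuous (fun t => Y t k)) ∧
      (∀ t k, Y t k ∈ Icc 0 (b k)) ∧
      ∀ t ∈ Icc 0 T, ∀ k, Tendsto (fun n => z (φ n) t k) atTop (𝓝 (Y t k)) := by
  let 𝒜 : ℕ → Set (BoundedContinuousFunction (Icc (0 : ℝ) T) ℝ) := fun k =>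
    {f | (∀ x, f x ∈ Icc 0 (b k)) ∧ ∀ x y, dist (f x) (f y) ≤ L k * dist x y}
  have hc : ∀ k, IsCompact (closure (𝒜 k)) := fun k => by
    apply BoundedContinuousFunction.arzela_ascoli (Icc 0 (b k)) isCompact_Icc (𝒜 k)
      (fun f x hf => hf.1 x)
    apply Metric.equicontinuous_of_continuity_modulus (fun r => L k * r)
    · have : Tendsto (fun r : ℝ => L k * r) (𝓝 0) (𝓝 (L k * 0)) :=
        tendsto_id.const_mul _
      simpa using this
    · intro x y f
      exact f.2.2 x y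
  let g : ℕ → ℕ → BoundedContinuousFunction (Icc (0 : ℝ) T) ℝ := fun n k =>
    BoundedContinuousFunction.mkOfCompact
      ⟨fun t => z n t k, (cz n k).comp continuous_subtype_val⟩
  have hg : ∀ n k, g n k ∈ 𝒜 k := fun n k =>
    ⟨fun x => bd n x k, fun x y => by
      rw [Real.dist_eq, Subtype.dist_eq, Real.dist_eq]
      exact lip n k y x⟩
  have hK := (isCompact_univ_pi hc).prod (isCompact_Icc (a := (0 : ℝ)) (b := T))
  obtain ⟨⟨G, τ'⟩, hG, φ, hφ, hlim⟩ := hK.tendsto_subseq (x := fun n => (g n, τ n))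
    (fun n => ⟨fun k _ => subset_closure (hg n k), hτ n⟩)
  have hpt : ∀ (x : Icc (0 : ℝ) T) k, Tendsto (fun n => z (φ n) x k) atTop (𝓝 (G k x)) := by
    intro x k
    have h1 : Tendsto (fun n => g (φ n) k) atTop (𝓝 (G k)) :=
      tendsto_pi_nhds.1 ((continuous_fst.tendsto _).comp hlim) k
    exact ((continuous_eval_const x).tendsto _).comp h1
  refine ⟨φ, hφ, τ', hG.2, fun t k => G k (projIcc 0 T hT t),
    (continuous_snd.tendsto _).comp hlim,
    fun k => (G k).continuous.comp continuous_projIcc, fun t k => ?_, fun t ht k => ?_⟩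
  · exact isClosed_Icc.mem_of_tendsto (hpt _ k) (Eventually.of_forall fun n => bd _ _ k)
  · simp only [projIcc_of_mem hT ht]
    exact hpt ⟨t, ht⟩ k

/-- The limit solution of the infinite system. -/
structure LimSol (Λ δ ρ d A τ : ℝ) (Y : ℝ → ℕ → ℝ) : Prop where
  hτ : 0 ≤ τ
  cY : ∀ k, Continuous (fun t => Y t k)
  bd : ∀ t k, Y t k ∈ Icc 0 ((560 * Λ) ^ k * A)
  eqn : ∀ k, ∀ t ∈ Ico 0 τ,
    Y t k = (if k = 0 then A else 0) + ∫ s in (0 : ℝ)..t, fld d Λ δ ρ (Y s) k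
  big : ∀ k, 14 * Λ ≤ Iof Y τ k
  low : ∀ k, ∀ t ∈ Ico 0 τ, 7 * Λ < Iof Y t k → A / 2 * Λ ^ k ≤ Y t k
  half : ∀ k, ∀ t ∈ Ico 0 τ, Iof Y t k < 14 * Λ → Y t (k + 1) ≤ Y t k / 2
  rat : ∀ k, ∀ t ∈ Ico 0 τ, Y t (k + 1) ≤ (2 * Iof Y t (k + 1) + δ * Iof Y t k) * Y t k

lemma exists_limSol {Λ δ ρ d A : ℝ} (h : Par Λ δ ρ d A) : ∃ τ Y, LimSol Λ δ ρ d A τ Y := by
  obtain ⟨L, hL⟩ := exists_pack h
  have hδ := h.δ_pos
  have hΛ := h.hΛ
  have hA := h.hA
  let ε : ℕ → ℝ := fun n => δ * (1 / ((n : ℝ) + 1))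
  have hε : ∀ n, 0 < ε n := fun n => by positivity
  have hεδ : ∀ n, ε n ≤ δ := fun n => by
    have : 1 / ((n : ℝ) + 1) ≤ 1 := by
      rw [div_le_one (by positivity)]; linarith [(Nat.cast_nonneg n : (0 : ℝ) ≤ n)]
    simpa [ε] using mul_le_mul_of_nonneg_left this hδ.le
  choose τ z hP using fun n => hL (ε n) (hε n) (hεδ n) n
  obtain ⟨φ, hφ, τ', hτ', Y, hτlim, cY, bdY, hlim⟩ := exists_subseq (T := 560 * Λ / A)
    (by positivity) (fun k => (560 * Λ) ^ k * A) L z τ (fun n => (hP n).hτ)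
    (fun n => (hP n).cz) (fun n => (hP n).bd) (fun n => (hP n).lip)
  have hεlim : Tendsto (fun n => ε (φ n)) atTop (𝓝 0) := by
    have h1 : Tendsto ε atTop (𝓝 (δ * 0)) :=
      tendsto_one_div_add_atTop_nhds_zero_nat.const_mul δ
    rw [mul_zero] at h1
    exact h1.comp hφ.tendsto_atTop
  have bd' : ∀ n t k, |z n t k| ≤ (560 * Λ) ^ k * A := fun n t k => by
    rw [abs_of_nonneg ((hP n).bd t k).1]; exact ((hP n).bd t k).2
  have hIlim : ∀ t ∈ Icc 0 (560 * Λ / A), ∀ k,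
      Tendsto (fun n => Iof (z (φ n)) t k) atTop (𝓝 (Iof Y t k)) := by
    intro t ht k
    refine intervalIntegral.tendsto_integral_filter_of_dominated_convergence
      (fun _ => (560 * Λ) ^ k * A)
      (Eventually.of_forall fun n => ((hP _).cz k).aestronglyMeasurable)
      (Eventually.of_forall fun n => Eventually.of_forall fun s _ => bd' _ s k)
      intervalIntegrable_const (Eventually.of_forall fun s hs => ?_)
    rw [uIoc_of_le ht.1] at hs
    exact hlim s ⟨hs.1.le, hs.2.trans ht.2⟩ k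
  have hev : ∀ t ∈ Ico 0 τ', ∀ᶠ n in atTop, t ∈ Icc 0 (τ (φ n)) := fun t ht => by
    filter_upwards [hτlim.eventually (lt_mem_nhds ht.2)] with n hn
    exact ⟨ht.1, hn.le⟩
  have hevk : ∀ k, ∀ᶠ n in atTop, k ≤ φ n := fun k => hφ.tendsto_atTop.eventually_ge_atTop k
  have hsub : ∀ t ∈ Ico 0 τ', t ∈ Icc 0 (560 * Λ / A) := fun t ht =>
    ⟨ht.1, ht.2.le.trans hτ'.2⟩
  refine ⟨τ', Y, hτ'.1, cY, bdY, ?_, ?_, ?_, ?_, ?_⟩
  · intro k t ht
    obtain ⟨Lk, hLk⟩ := fld_bound (d := d) (Λ := Λ) (δ := δ) (A := A) h.hρ h.hq k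
    have h1 : Tendsto (fun n => ∫ s in (0 : ℝ)..t, fld d Λ δ ρ (z (φ n) s) k) atTop
        (𝓝 (∫ s in (0 : ℝ)..t, fld d Λ δ ρ (Y s) k)) := by
      refine intervalIntegral.tendsto_integral_filter_of_dominated_convergence (fun _ => Lk)
        (Eventually.of_forall fun n =>
          (fld_continuous h.hρ h.hq (hP _).cz (bd' _) k).aestronglyMeasurable)
        (Eventually.of_forall fun n => Eventually.of_forall fun s _ => hLk _ (bd' _ s))
        intervalIntegrable_const (Eventually.of_forall fun s hs => ?_)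
      rw [uIoc_of_le ht.1] at hs
      exact fld_tendsto h.hρ h.hq (Eventually.of_forall fun n => bd' _ s)
        (hlim s ⟨hs.1.le, hs.2.trans (hsub t ht).2⟩) k
    have h2 : Tendsto (fun n => ε (φ n) ^ k * A) atTop (𝓝 (if k = 0 then A else 0)) := by
      have := (hεlim.pow k).mul_const A
      convert this using 2
      split_ifs with hk
      · simp [hk]
      · simp [hk]
    refine tendsto_nhds_unique (hlim t (hsub t ht) k) ((h2.add h1).congr' ?_)
    filter_upwards [hev t ht, hevk k] with n hn hk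
    exact ((hP _).eqn k hk t hn).symm
  · intro k
    have h1 : Tendsto (fun n => Iof (z (φ n)) τ' k + (560 * Λ) ^ k * A * |τ (φ n) - τ'|) atTop
        (𝓝 (Iof Y τ' k + (560 * Λ) ^ k * A * |τ' - τ'|)) :=
      (hIlim τ' hτ' k).add (((hτlim.sub_const τ').abs).const_mul _)
    simp only [sub_self, abs_zero, mul_zero, add_zero] at h1
    refine ge_of_tendsto h1 ?_
    filter_upwards [hevk k] with n hk
    have h2 := (hP _).big k hk
    have h3 : Iof (z (φ n)) (τ (φ n)) k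
        = Iof (z (φ n)) τ' k + ∫ s in τ'..(τ (φ n)), z (φ n) s k := by
      unfold Iof
      rw [intervalIntegral.integral_add_adjacent_intervals
        (((hP _).cz k).intervalIntegrable _ _) (((hP _).cz k).intervalIntegrable _ _)]
    have h4 : ‖∫ s in τ'..(τ (φ n)), z (φ n) s k‖ ≤ (560 * Λ) ^ k * A * |τ (φ n) - τ'| :=
      intervalIntegral.norm_integral_le_of_norm_le_const fun s _ => bd' _ s k
    have h5 := (abs_le.1 h4).2
    linarith
  · intro k t ht h7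
    refine ge_of_tendsto (hlim t (hsub t ht) k) ?_
    filter_upwards [hev t ht, hevk k, (hIlim t (hsub t ht) k).eventually (lt_mem_nhds h7)]
      with n hn hk hI
    exact (hP _).low k hk t hn hI.le
  · intro k t ht h14
    refine le_of_tendsto_of_tendsto (hlim t (hsub t ht) (k + 1))
      ((hlim t (hsub t ht) k).div_const 2) ?_
    filter_upwards [hev t ht, (hIlim t (hsub t ht) k).eventually (gt_mem_nhds h14)]
      with n hn hI
    exact (hP _).half k t hn hI.le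
  · intro k t ht
    have h1 := ((hεlim.add ((hIlim t (hsub t ht) (k + 1)).const_mul 2)).add
      ((hIlim t (hsub t ht) k).const_mul δ)).mul (hlim t (hsub t ht) k)
    rw [zero_add] at h1
    refine le_of_tendsto_of_tendsto (hlim t (hsub t ht) (k + 1)) h1 ?_
    filter_upwards [hev t ht] with n hn
    exact (hP _).rat k t hn

end Pool.Agent.Work.MP_6bf1e5_an.Vortex
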