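import Pool.Agent.Work.MP_6bf1e5_an.Vortex.Energy

/-! Blow-up for the Galerkin projection. -/

namespace Pool.Agent.Work.MP_6bf1e5_an.Vortex

open MeasureTheory Filter Topology Set
open scoped ContDiff

lemma not_bdd_pow {q c M : ℝ} (hq : 1 < q) (hc : 0 < c) : ¬ ∀ k : ℕ, c * q ^ k ≤ M := by
  intro h
  obtain ⟨k, hk⟩ := ((tendsto_pow_atTop_atTop_of_one_lt hq).eventually_gt_atTop (M / c)).exists
  rw [div_lt_iff₀ hc] at hk
  linarith [h k]

namespace Fam

variable {μ a δ m₂ R B : ℝ} {Ψ : ℕ → E → E}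

lemma rho_le (h : Fam μ a δ m₂ R B Ψ) : (μ ^ 10)⁻¹ ≤ 1 / 4 := by
  have h1 : μ ^ 1 ≤ μ ^ 10 := pow_le_pow_right₀ h.one_le (by norm_num)
  rw [inv_le_comm₀ (by have := h.hμ; positivity) (by norm_num)]
  linarith [h.hμ]

lemma residual (h : Fam μ a δ m₂ R B Ψ) {X : ℕ → ℝ} {u v : E → E} (hu : IsSum Ψ X u)
    (hv : Continuous v) (ν : ℝ) (k : ℕ) (hs : Summable fun m =>
      (μ ^ 10)⁻¹ ^ (m + 1) * (a * μ ^ (5 * (k + m + 1)) * X (k + m + 1)) ^ 2) :
    a * μ ^ (5 * k) * ∫ x, inner ℝ (v x + fderiv ℝ u x (u x) - ν • lap u x) (Ψ k x)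
      = a * μ ^ (5 * k) * (∫ x, inner ℝ (v x) (Ψ k x))
        - fld (ν * m₂) (μ ^ 4) δ (μ ^ 10)⁻¹ (fun j => a * μ ^ (5 * j) * X j) k := by
  have hu1 := hu.smooth.of_le one_le_infty
  have hc : Continuous fun x => fderiv ℝ u x (u x) - ν • lap u x :=
    ((hu1.continuous_fderiv one_ne_zero).clm_apply hu1.continuous).sub
      ((lap_continuous (hu.smooth.of_le two_le_infty)).const_smul ν)
  simp_rw [add_sub_assoc, inner_add_left]
  rw [integral_add (integrable_inner_right hv (h.smooth k).continuous (h.compact k))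
    (integrable_inner_right hc (h.smooth k).continuous (h.compact k)), mul_add,
    h.projected hu ν k hs]
  ring

theorem exists_solution (h : Fam μ a δ m₂ R B Ψ) {ν A : ℝ} (hν : 0 < ν)
    (hA : (2240 * m₂ * μ ^ 4 / a + 1) * ν ≤ A) :
    ∃ T > 0, ∃ u : ℝ → E → E, IsGalerkinSolution ν Ψ (Ico 0 T) u ∧ (u 0 = fun x => A • Ψ 0 x) ∧
      (∀ t ∈ Ico 0 T, HasCompactSupport (u t) ∧ (∀ x, dvg (u t) x = 0) ∧
        (∫ x, ‖u t x‖ ^ 2) + 2 * ν * ∫ s in (0 : ℝ)..t, ∫ x, ∑ i, ‖pd i (u s) x‖ ^ 2 = A ^ 2) ∧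
      ∀ M, ∃ t ∈ Ico 0 T, ∃ x, M < ‖u t x‖ := by
  have hp := h.par hν hA
  obtain ⟨T, Y, hY⟩ := exists_blowSol hp
  have ha := h.ha
  have hμ : 0 < μ := by linarith [h.hμ]
  have hA0 : 0 < A := (mul_pos_iff_of_pos_left ha).1 hp.hA
  have hc1 : ∀ k, 1 ≤ μ ^ (5 * k) := fun k => one_le_pow₀ h.one_le
  have hrap : ∀ {y : ℕ → ℝ}, Rapid y → Rapid fun k => y k / (a * μ ^ (5 * k)) := by
    intro y hy θ h1 h2
    obtain ⟨C, hC⟩ := hy θ h1 h2
    refine ⟨C / a, fun k => ?_⟩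
    rw [abs_div, abs_of_pos (show 0 < a * μ ^ (5 * k) by positivity), div_le_iff₀ (by positivity)]
    have h3 : 0 ≤ C * θ ^ k := (abs_nonneg _).trans (hC k)
    have h4 := mul_le_mul_of_nonneg_left (hc1 k) h3
    have e : C / a * θ ^ k * (a * μ ^ (5 * k)) = C * θ ^ k * μ ^ (5 * k) := by field_simp
    linarith [hC k]
  let X : ℝ → ℕ → ℝ := fun t k => Y t k / (a * μ ^ (5 * k))
  have hXY : ∀ t k, a * μ ^ (5 * k) * X t k = Y t k := fun t k => by
    simp only [X]; field_simp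
  have hX : ∀ t ∈ Ico 0 T, Rapid (X t) := fun t ht => hrap fun θ h1 _ => by
    obtain ⟨C, hC⟩ := hY.rapid t ht.2 θ h1
    exact ⟨C, hC t ⟨ht.1, le_rfl⟩⟩
  have hsm := hY.smooth hp.hΛ hp.hρ (by linarith [h.rho_le])
  have hw : ∀ θ : ℝ, 0 < θ → ∀ k, |θ ^ k / (a * μ ^ (5 * k))| ≤ 1 / a * θ ^ k := fun θ h1 k => by
    rw [abs_of_pos (by positivity), div_le_iff₀ (by positivity)]
    have e : 1 / a * θ ^ k * (a * μ ^ (5 * k)) = θ ^ k * μ ^ (5 * k) := by field_simp
    have := mul_le_mul_of_nonneg_left (hc1 k) (pow_pos h1 k).le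
    linarith
  have hj := fun (n : ℕ) (θ : ℝ) (h1 : 0 < θ) (h3 : θ * μ ^ (3 + 2 * n) ≤ 1 / 2) =>
    h.joint (V := H) (fun k => BoundedContinuousFunction.evalCLM ℝ k) (fun k z => abs_H_le z k) n
      h1 h3 (hw θ h1) (Z := fun t => wt θ (Y t)) (s := Ico 0 T)
  have hcongr : ∀ θ : ℝ, 0 < θ → ∀ t ∈ Ico 0 T, (fun k => θ ^ k / (a * μ ^ (5 * k))
      * (BoundedContinuousFunction.evalCLM ℝ k : H →L[ℝ] ℝ) (wt θ (Y t))) = X t := by
    intro θ h1 t ht
    funext k
    rw [BoundedContinuousFunction.evalCLM_apply, hY.wt_eq h1 ht]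
    simp only [X]
    field_simp
  have hsum : ∀ t ∈ Ico 0 T, IsSum Ψ (X t) (sm Ψ (X t)) := fun t ht => h.sm_isSum (hX t ht)
  let X' : ℝ → ℕ → ℝ := fun t k =>
    fld (ν * m₂) (μ ^ 4) δ (μ ^ 10)⁻¹ (Y t) k / (a * μ ^ (5 * k))
  have hX' : ∀ t ∈ Ico 0 T, Rapid (X' t) := fun t ht => hrap fun θ h1 h2 => by
    obtain ⟨F, hF, _⟩ := (hsm θ h1 h2).2 t ht
    refine ⟨‖F‖, fun k => ?_⟩
    have := abs_H_le F k
    rwa [hF, abs_div, abs_of_pos (pow_pos h1 k), div_le_iff₀ (pow_pos h1 k)] at this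
  have hd : ∀ t ∈ Ico 0 T, ∀ x,
      derivWithin (fun s => sm Ψ (X s) x) (Ico 0 T) t = sm Ψ (X' t) x := by
    intro t ht x
    obtain ⟨θ, h1, h2, h3⟩ := exists_theta (one_le_pow₀ h.one_le (n := 3 + 2 * 0))
    obtain ⟨F, hF, hF'⟩ := (hsm θ h1 h2).2 t ht
    have h4 := ((hj 0 θ h1 h3).2 t F x hF').congr_of_mem (f₁ := fun s => sm Ψ (X s) x)
      (fun s hs => by rw [hcongr θ h1 s hs]) ht
    rw [h4.derivWithin (uniqueDiffOn_Ico 0 T t ht)]
    congr 1
    funext k
    rw [BoundedContinuousFunction.evalCLM_apply, hF]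
    simp only [X']
    field_simp
  have heqn : ∀ t ∈ Ico 0 T, ∀ k, ∫ x, inner ℝ (sm Ψ (X' t) x
      + fderiv ℝ (sm Ψ (X t)) x (sm Ψ (X t) x) - ν • lap (sm Ψ (X t)) x) (Ψ k x) = 0 := by
    intro t ht k
    have hs' := h.sm_isSum (hX' t ht)
    have hres := h.residual (hsum t ht) hs'.smooth.continuous ν k (by
      simp only [hXY]
      exact Rt_summable (b := (560 * μ ^ 4) ^ (k + 1) * (a * A)) hp.hρ hp.hq fun m =>
        (hY.bd t _).trans (le_of_eq (by ring)))
    simp only [hXY, h.coef_eq hs'] at hres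
    have e : a * μ ^ (5 * k) * X' t k = fld (ν * m₂) (μ ^ 4) δ (μ ^ 10)⁻¹ (Y t) k := by
      simp only [X']; field_simp
    rw [e, sub_self] at hres
    exact (mul_eq_zero.1 hres).resolve_left (by positivity)
  have hX0 : ∀ k, X 0 k = if k = 0 then A else 0 := fun k => by
    simp only [X, hY.init]
    split_ifs with hk
    · subst hk
      field_simp
      simp
    · simp
  refine ⟨T, hY.hT, fun t => sm Ψ (X t), ⟨?_, fun t ht => (hsum t ht).l2,
    fun t ht => ⟨X t, (hsum t ht).lim⟩, ?_⟩, ?_, fun t ht => ⟨h.sm_compact _,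
      h.dvg_zero (hsum t ht) (h.sm_compact _), ?_⟩, ?_⟩
  · refine contDiffOn_infty.2 fun n => ?_
    obtain ⟨θ, h1, h2, h3⟩ := exists_theta (one_le_pow₀ h.one_le (n := 3 + 2 * n))
    refine ((hj n θ h1 h3).1 ((hsm θ h1 h2).1 n)).congr fun p hp => ?_
    rw [hcongr θ h1 p.1 hp.1]
  · intro t ht k
    simp only [hd t ht]
    exact heqn t ht k
  · funext x
    simp only [sm]
    rw [tsum_eq_single 0 fun k hk => by simp [hX0, hk], hX0, if_pos rfl]
  · obtain ⟨θ, h1, h2, h3⟩ := exists_theta (one_le_pow₀ h.one_le (n := 4))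
    have hm := h.hm₂
    have hθ2 : θ ≤ 1 / 2 := by nlinarith [one_le_pow₀ h.one_le (n := 4)]
    obtain ⟨l₁, hl₁⟩ := exists_functional (c := |1 / a * (1 / a)|)
      (w := fun k => θ ^ k / (a * μ ^ (5 * k)) * (θ ^ k / (a * μ ^ (5 * k)))) fun k => by
        rw [abs_mul]
        exact geom_bound h1 h1.le (by nlinarith) (abs_nonneg _) (abs_nonneg _) (hw θ h1 k)
          (hw θ h1 k)
    obtain ⟨l₂, hl₂⟩ := exists_functional (c := |1 / a * (1 / a * m₂)|)
      (w := fun k => θ ^ k / (a * μ ^ (5 * k))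
        * (θ ^ k / (a * μ ^ (5 * k)) * (m₂ * (μ ^ 4) ^ k))) fun k => by
        rw [abs_mul]
        refine geom_bound (q := θ * μ ^ 4) h1 (by positivity) (by nlinarith) (abs_nonneg _)
          (abs_nonneg _) (hw θ h1 k) ?_
        rw [abs_mul, abs_of_nonneg (show 0 ≤ m₂ * (μ ^ 4) ^ k by positivity), mul_pow]
        have := mul_le_mul_of_nonneg_right (hw θ h1 k)
          (show 0 ≤ m₂ * (μ ^ 4) ^ k by positivity)
        linarith
    let Z : ℝ → H := fun t => wt θ (Y t)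
    have hZ : ∀ s ∈ Ico 0 T, ∀ k, θ ^ k / (a * μ ^ (5 * k)) * Z s k = X s k := fun s hs k =>
      congrFun (hcongr θ h1 s hs) k
    have he : ∀ s ∈ Ico 0 T, ∫ x, ‖sm Ψ (X s) x‖ ^ 2 = l₁ (Z s * Z s) := fun s hs => by
      obtain ⟨s1, s2⟩ := hl₁ (Z s * Z s)
      have e : ∀ k, θ ^ k / (a * μ ^ (5 * k)) * (θ ^ k / (a * μ ^ (5 * k))) * (Z s * Z s) k
          = X s k * X s k := fun k => by
        rw [← hZ s hs k]; simp only [BoundedContinuousFunction.coe_mul, Pi.mul_apply]; ring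
      simp only [e] at s1 s2
      rw [s2, h.norm_sq_eq (hsum s hs) (h.sm_compact _) s1]
    have hD : ∀ s ∈ Ico 0 T, ∫ x, ∑ i, ‖pd i (sm Ψ (X s)) x‖ ^ 2 = l₂ (Z s * Z s) := by
      intro s hs
      obtain ⟨s1, s2⟩ := hl₂ (Z s * Z s)
      have e : ∀ k, θ ^ k / (a * μ ^ (5 * k)) * (θ ^ k / (a * μ ^ (5 * k)) * (m₂ * (μ ^ 4) ^ k))
          * (Z s * Z s) k = -(X s k * (X s k * -(m₂ * (μ ^ 4) ^ k))) := fun k => by
        rw [← hZ s hs k]; simp only [BoundedContinuousFunction.coe_mul, Pi.mul_apply]; ring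
      simp only [e] at s1 s2
      rw [s2, grad_sq_eq (hsum s hs).smooth (h.sm_compact _), h.pair_tsum (hsum s hs)
        (lap_continuous ((hsum s hs).smooth.of_le two_le_infty)) (lap_compact (h.sm_compact _))
        (h.lap_eq (hsum s hs)) (by simpa using s1.neg), tsum_neg]
    have hZc : ContinuousOn (fun s => Z s * Z s) (Ico 0 T) :=
      (contDiffOn_zero.1 ((hsm θ h1 h2).1 0)).mul (contDiffOn_zero.1 ((hsm θ h1 h2).1 0))
    have hsub : Icc 0 t ⊆ Ico 0 T := fun s hs => ⟨hs.1, lt_of_le_of_lt hs.2 ht.2⟩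
    have hder : ∀ s ∈ Ioo 0 t, HasDerivAt (fun s => l₁ (Z s * Z s))
        (-(2 * ν) * ∫ x, ∑ i, ‖pd i (sm Ψ (X s)) x‖ ^ 2) s := by
      intro s hs
      have hs' := hsub (Ioo_subset_Icc_self hs)
      obtain ⟨F, hF, hF'⟩ := (hsm θ h1 h2).2 s hs'
      have h4 : HasDerivAt Z F s := hF'.hasDerivAt (Ico_mem_nhds hs.1 hs'.2)
      have h5 := l₁.hasFDerivAt.comp_hasDerivAt s (h4.mul h4)
      refine h5.congr_deriv ?_
      obtain ⟨s1, s2⟩ := hl₁ (F * Z s)
      have e : ∀ k, θ ^ k / (a * μ ^ (5 * k)) * (θ ^ k / (a * μ ^ (5 * k))) * (F * Z s) k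
          = X s k * X' s k := fun k => by
        rw [← hZ s hs' k]
        simp only [BoundedContinuousFunction.coe_mul, Pi.mul_apply, hF, X']
        field_simp
      simp only [e] at s1 s2
      have hs2 := h.sm_isSum (hX' s hs')
      have h6 := h.power_eq (hsum s hs') (h.sm_compact _) hs2.smooth.continuous (h.sm_compact _) ν
        (heqn s hs')
      rw [h.pair_tsum (hsum s hs') hs2.smooth.continuous (h.sm_compact _) (h.coef_eq hs2) s1,
        ← s2] at h6
      rw [mul_comm (Z s) F, map_add, h6]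
      ring
    have hint : IntervalIntegrable
        (fun s => -(2 * ν) * ∫ x, ∑ i, ‖pd i (sm Ψ (X s)) x‖ ^ 2) volume 0 t := by
      apply ContinuousOn.intervalIntegrable_of_Icc ht.1
      exact (((l₂.continuous.comp_continuousOn hZc).mono hsub).congr
        fun s hs => hD s (hsub hs)).const_mul _
    have key := intervalIntegral.integral_eq_sub_of_hasDerivAt_of_le ht.1
      ((l₁.continuous.comp_continuousOn hZc).mono hsub) hder hint
    have h0 : l₁ (Z 0 * Z 0) = A ^ 2 := by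
      have h00 : (0 : ℝ) ∈ Ico 0 T := ⟨le_rfl, hY.hT⟩
      rw [← he 0 h00, h.norm_sq_eq (hsum 0 h00) (h.sm_compact _)
        (summable_of_ne_finset_zero (s := {0}) fun k hk => by simp at hk; simp [hX0, hk]),
        tsum_eq_single 0 fun k hk => by simp [hX0, hk], hX0, if_pos rfl]
      ring
    simp only [Function.comp_def, intervalIntegral.integral_const_mul, h0] at key
    rw [he t ht]
    linarith
  · intro M
    by_contra hcon
    push Not at hcon
    refine not_bdd_pow (q := μ ^ 2) (c := A / 2) (M := M * B) (by nlinarith [h.hμ])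
      (by positivity) fun k => ?_
    obtain ⟨t, ht, hk⟩ := hY.blow k
    have h1 := (abs_le.1 (h.coef_le_sup (hcon t ht) k)).2
    rw [h.coef_eq (hsum t ht)] at h1
    have h2 := mul_le_mul_of_nonneg_left h1 (show 0 ≤ a * μ ^ (5 * k) by positivity)
    rw [hXY] at h2
    have h3 : a * μ ^ (5 * k) * (M * (B / μ ^ (3 * k))) = (a * (μ ^ 2) ^ k) * (M * B) := by
      field_simp
      ring
    have h4 : a * A / 2 * (μ ^ 4) ^ k = (a * (μ ^ 2) ^ k) * (A / 2 * (μ ^ 2) ^ k) := by ring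
    exact le_of_mul_le_mul_left (by linarith) (show 0 < a * (μ ^ 2) ^ k by positivity)

theorem no_global_solution (h : Fam μ a δ m₂ R B Ψ) {ν A : ℝ} (hν : 0 < ν)
    (hA : (2240 * m₂ * μ ^ 4 / a + 1) * ν ≤ A) :
    ¬ ∃ u : ℝ → E → E, IsGalerkinSolution ν Ψ (Ici 0) u ∧ u 0 = fun x => A • Ψ 0 x := by
  rintro ⟨u, hu, hu0⟩
  have hp := h.par hν hA
  obtain ⟨T, Y, hY⟩ := exists_blowSol hp
  have ha := h.ha
  have hμ : 0 < μ := by linarith [h.hμ]
  have hsm : ∀ t, 0 ≤ t → ContDiff ℝ ∞ (u t) := fun t ht =>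
    hu.smooth.comp_contDiff (f := fun x => (t, x)) (contDiff_const.prodMk contDiff_id)
      fun x => ⟨ht, mem_univ x⟩
  let X : ℝ → ℕ → ℝ := fun t k => ∫ x, inner ℝ (u t x) (Ψ k x)
  have hsum : ∀ t, 0 ≤ t → IsSum Ψ (X t) (u t) := fun t ht => by
    obtain ⟨X', hX'⟩ := hu.span t ht
    have h1 : IsSum Ψ X' (u t) := ⟨hsm t ht, hu.memL2 t ht, hX'⟩
    have h2 : X t = X' := funext fun k => h.coef_eq h1 k
    rwa [h2]
  obtain ⟨K, hK⟩ := (hu.smooth.mono (t := Icc 0 T ×ˢ Metric.closedBall (0 : E) R)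
    (prod_mono Icc_subset_Ici_self (subset_univ _))).exists_lipschitzOnWith (by simp)
    ((convex_Icc 0 T).prod (convex_closedBall 0 R))
    (isCompact_Icc.prod (isCompact_closedBall 0 R))
  let Z : ℝ → ℕ → ℝ := fun t k => a * μ ^ (5 * k) * X t k
  have hZ : ∀ t ∈ Icc 0 T, ∀ k, |Z t k| ≤ a * (K * R * B) := fun t ht k => by
    have h1 := h.coef_le_lip (hsm t ht.1).continuous K.2 (fun x hx => by
      have := hK.norm_sub_le (x := (t, x)) (y := (t, 0)) ⟨ht, mem_closedBall_zero_iff.2 hx⟩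
        ⟨ht, Metric.mem_closedBall_self h.hR.le⟩
      simpa [Prod.norm_def] using this) k
    simp only [Z, mul_assoc a, abs_mul a, abs_of_pos ha]
    exact mul_le_mul_of_nonneg_left h1 ha.le
  have hlip : ∀ k x, LipschitzOnWith (Real.nnabs (K * ‖Ψ k x‖))
      (fun t => inner ℝ (u t x) (Ψ k x)) (Icc 0 T) := fun k x => by
    refine LipschitzOnWith.of_dist_le_mul fun s hs t ht => ?_
    by_cases hx : Ψ k x = 0
    · simp [hx]
    · have h1 := hK.norm_sub_le (x := (s, x)) (y := (t, x))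
        ⟨hs, mem_closedBall_zero_iff.2 (h.far' k x hx)⟩
        ⟨ht, mem_closedBall_zero_iff.2 (h.far' k x hx)⟩
      simp only [Prod.mk_sub_mk, sub_self, Prod.norm_def, norm_zero, norm_nonneg,
        sup_of_le_left] at h1
      rw [Real.dist_eq, ← inner_sub_left, Real.coe_nnabs,
        abs_of_nonneg (show 0 ≤ K * ‖Ψ k x‖ by positivity), dist_eq_norm]
      refine (abs_real_inner_le_norm _ _).trans ?_
      have := mul_le_mul_of_nonneg_right h1 (norm_nonneg (Ψ k x))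
      linarith
  have hint : ∀ t, 0 ≤ t → ∀ k, Integrable fun x => inner ℝ (u t x) (Ψ k x) := fun t ht k =>
    integrable_inner_right (hsm t ht).continuous (h.smooth k).continuous (h.compact k)
  have cX : ∀ k, ContinuousOn (fun t => X t k) (Icc 0 T) := fun k => by
    refine LipschitzOnWith.continuousOn (K := Real.nnabs (∫ x, K * ‖Ψ k x‖))
      (LipschitzOnWith.of_dist_le_mul fun s hs t ht => ?_)
    rw [Real.coe_nnabs, abs_of_nonneg (integral_nonneg fun x => by positivity), dist_eq_norm,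
      ← integral_sub (hint s hs.1 k) (hint t ht.1 k), ← integral_mul_const]
    refine norm_integral_le_of_norm_le (((h.norm_integrable k).const_mul _).mul_const _)
      (Eventually.of_forall fun x => ?_)
    have := (hlip k x).dist_le_mul s hs t ht
    rwa [Real.coe_nnabs, abs_of_nonneg (by positivity), dist_eq_norm] at this
  have dZ : ∀ k, ∀ t ∈ Ioo 0 T,
      HasDerivAt (fun t => Z t k) (fld (ν * m₂) (μ ^ 4) δ (μ ^ 10)⁻¹ (Z t) k) t := by
    intro k t ht
    let U : ℝ × E → E := fun p => u p.1 p.2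
    have hopen : IsOpen (Ioi (0 : ℝ) ×ˢ (univ : Set E)) := isOpen_Ioi.prod isOpen_univ
    have hU : ContDiffOn ℝ ∞ U (Ioi 0 ×ˢ univ) :=
      hu.smooth.mono (prod_mono Ioi_subset_Ici_self le_rfl)
    let v : E → E := fun x => fderiv ℝ U (t, x) (1, 0)
    have hv : Continuous v := by
      have h1 := (hU.continuousOn_fderiv_of_isOpen hopen one_le_infty).comp_continuous
        (f := fun x : E => (t, x)) (by fun_prop) fun x => ⟨ht.1, mem_univ x⟩
      exact h1.clm_apply continuous_const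
    have hder : ∀ x, HasDerivAt (fun s => u s x) (v x) t := fun x => by
      have h1 := ((hU.contDiffAt (hopen.mem_nhds (x := (t, x))
        ⟨ht.1, mem_univ x⟩)).differentiableAt (by simp)).hasFDerivAt
      exact h1.comp_hasDerivAt t ((hasDerivAt_id t).prodMk (hasDerivAt_const t x))
    have h1 := (hasDerivAt_integral_of_dominated_loc_of_lip (μ := (volume : Measure E))
      (F := fun s x => inner ℝ (u s x) (Ψ k x)) (F' := fun x => inner ℝ (v x) (Ψ k x))
      (bound := fun x => K * ‖Ψ k x‖) (Icc_mem_nhds ht.1 ht.2)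
      (by
        filter_upwards [Ioi_mem_nhds ht.1] with s hs
        exact (hint s (le_of_lt hs) k).aestronglyMeasurable)
      (hint t ht.1.le k) (hv.inner (h.smooth k).continuous).aestronglyMeasurable
      (Eventually.of_forall (hlip k)) ((h.norm_integrable k).const_mul _)
      (Eventually.of_forall fun x => by
        simpa using (hder x).inner ℝ (hasDerivAt_const t (Ψ k x)))).2
    have hres := h.residual (hsum t ht.1.le) hv ν k
      (Rt_summable (y := Z t) (K := 1) (b := a * (K * R * B)) hp.hρ (by linarith [h.rho_le])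
        fun m => by simpa using hZ t (Ioo_subset_Icc_self ht) _)
    have heq := hu.eqn t ht.1.le k
    simp only [fun x => (hder x).hasDerivWithinAt.derivWithin
      (uniqueDiffOn_Ici 0 t ht.1.le)] at heq
    rw [heq, mul_zero] at hres
    exact (h1.const_mul (a * μ ^ (5 * k))).congr_deriv (by linarith)
  have h0 : ∀ k, Y 0 k = Z 0 k := fun k => by
    simp only [Z, X, hu0, inner_smul_left, conj_trivial, integral_const_mul, h.orth, hY.init]
    by_cases hk : k = 0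
    · simp [hk]
    · simp [hk, Ne.symm hk]
  refine not_bdd_pow (q := μ ^ 4) (c := a * A / 2) (M := a * (K * R * B))
    (lt_of_lt_of_le (by nlinarith [h.hμ]) (pow_le_pow_right₀ h.one_le (show 1 ≤ 4 by norm_num)))
    (by linarith [hp.hA]) fun k => ?_
  obtain ⟨t₁, ht₁, hk⟩ := hY.blow k
  obtain ⟨C, hC⟩ := hY.rapid t₁ ht₁.2 (1 / 2) (by norm_num)
  have hsub : Icc 0 t₁ ⊆ Icc 0 T := Icc_subset_Icc le_rfl ht₁.2.le
  have huniq := shell_unique (C := max (max C (a * (K * R * B))) 1) (t₁ := t₁) hp.hd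
    (by positivity : 0 ≤ μ ^ 4) (by rw [abs_of_pos hp.δ_pos]; exact hp.δ_le_one) hp.hρ h.rho_le
    (lt_of_lt_of_le one_pos (le_max_right _ _)) (fun k => (hY.cY k).continuousOn)
    (fun k => ((cX k).mono hsub).const_mul _)
    (fun k t ht => (hY.ode k t ⟨ht.1.le, ht.2.trans ht₁.2⟩).hasDerivAt
      (Ico_mem_nhds ht.1 (ht.2.trans ht₁.2)))
    (fun k t ht => dZ k t ⟨ht.1, ht.2.trans ht₁.2⟩) h0
    (fun t ht k => (hC t ht k).trans (mul_le_mul_of_nonneg_right
      ((le_max_left _ _).trans (le_max_left _ _)) (by positivity)))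
    (fun t ht k => (hZ t (hsub ht) k).trans ((le_max_right _ _).trans (le_max_left _ _)))
    t₁ ⟨ht₁.1, le_rfl⟩ k
  rw [huniq] at hk
  exact hk.trans (abs_le.1 (hZ t₁ ⟨ht₁.1, ht₁.2.le⟩ k)).2

end Fam

end Pool.Agent.Work.MP_6bf1e5_an.Vortex
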