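import Pool.Agent.Work.MP_6bf1e5_an.Vortex.Profile

/-! Interactions between the rescaled copies of the profile. -/

namespace Pool.Agent.Work.MP_6bf1e5_an.Vortex

open MeasureTheory Filter Topology
open scoped ContDiff

/-- The unnormalised rescaled profile. -/
noncomputable def ph (lam : ℝ) (m τ : E → E) (k : ℕ) (x : E) : E :=
  m (lam ^ k • x) + τ (lam ^ k • x)

/-- The linear part of mode `j` on the tail of mode `k`. -/
noncomputable def Nn (j k : ℕ) : E →L[ℝ] E := if j + 1 = k then Sm + Mm else Sm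

/-- The constant part of mode `j` on the tail of mode `k`. -/
noncomputable def vv (j k : ℕ) : E := if j + 1 = k then -((Sm + Mm) cc) else 0

lemma scale_contDiff {u : E → E} (hu : ContDiff ℝ ∞ u) (s : ℝ) :
    ContDiff ℝ ∞ fun x => u (s • x) := hu.comp (contDiff_id.const_smul s)

lemma scale_dvg {u : E → E} (hu : ContDiff ℝ ∞ u) (hd : ∀ x, dvg u x = 0) (s : ℝ) (x : E) :
    dvg (fun x => u (s • x)) x = 0 := by
  have := dvg_scale 1 s (hu.differentiable (by simp)) x
  simpa [hd] using this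

lemma scale_far {u : E → E} {R s : ℝ} (hs : 0 < s) (h : ∀ x, u x ≠ 0 → ‖x‖ ≤ R) (x : E)
    (hx : u (s • x) ≠ 0) : ‖x‖ ≤ R / s := by
  have := h _ hx
  rw [norm_smul, Real.norm_of_nonneg hs.le] at this
  rw [le_div_iff₀ hs]
  linarith

namespace Prof

variable {lam ϑ a₀ : ℝ} {m τ : E → E}

lemma fτ' (h : Prof lam ϑ a₀ m τ) (hl : 8 ≤ lam) (x : E) (hx : τ x ≠ 0) : ‖x‖ ≤ 5 * lam + 2 := by
  have h1 := h.fτ x hx
  have h2 : ‖x‖ ≤ ‖x - lam • cc‖ + ‖lam • cc‖ := by
    simpa using norm_add_le (x - lam • cc) (lam • cc)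
  rw [norm_smul, norm_cc, Real.norm_of_nonneg (by linarith)] at h2
  linarith

lemma far (h : Prof lam ϑ a₀ m τ) (hl : 8 ≤ lam) (x : E) (hx : m x + τ x ≠ 0) :
    ‖x‖ ≤ 5 * lam + 2 := by
  by_cases h1 : τ x = 0
  · have := h.fm x (by simpa [h1] using hx)
    linarith
  · exact h.fτ' hl x h1

lemma ph_contDiff (h : Prof lam ϑ a₀ m τ) (k : ℕ) : ContDiff ℝ ∞ (ph lam m τ k) :=
  (scale_contDiff h.sm _).add (scale_contDiff h.sτ _)

lemma ph_far (h : Prof lam ϑ a₀ m τ) (hl : 8 ≤ lam) (k : ℕ) (x : E) (hx : ph lam m τ k x ≠ 0) :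
    ‖x‖ ≤ (5 * lam + 2) / lam ^ k :=
  scale_far (u := fun x => m x + τ x) (by positivity) (h.far hl) x hx

lemma ph_compact (h : Prof lam ϑ a₀ m τ) (hl : 8 ≤ lam) (k : ℕ) :
    HasCompactSupport (ph lam m τ k) := compact_of_far (h.ph_far hl k)

lemma ph_dvg (h : Prof lam ϑ a₀ m τ) (k : ℕ) (x : E) : dvg (ph lam m τ k) x = 0 := by
  have := dvg_add ((scale_contDiff h.sm (lam ^ k)).differentiable (by simp))
    ((scale_contDiff h.sτ (lam ^ k)).differentiable (by simp)) x
  rw [scale_dvg h.sm h.dm, scale_dvg h.sτ h.dτ, add_zero] at this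
  exact this

lemma near_zero (h : Prof lam ϑ a₀ m τ) (j : ℕ) {x : E} (hx : ‖lam ^ j • x‖ < 1) :
    ph lam m τ j =ᶠ[𝓝 x] fun z => (lam ^ j • Sm) z + 0 := by
  have ho : IsOpen {z : E | ‖lam ^ j • z‖ < 1} :=
    isOpen_lt (by fun_prop) continuous_const
  filter_upwards [ho.mem_nhds hx] with z hz
  simp [ph, h.lin0 _ hz]

lemma loc_main (h : Prof lam ϑ a₀ m τ) (hl : 8 ≤ lam) {j k : ℕ} (hjk : j < k) {x : E}
    (hx : m (lam ^ k • x) ≠ 0) : ph lam m τ j =ᶠ[𝓝 x] fun z => (lam ^ j • Sm) z + 0 := by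
  apply h.near_zero
  have h1 := h.fm _ hx
  rw [norm_smul, Real.norm_of_nonneg (by positivity)] at h1 ⊢
  have h2 : lam ^ (j + 1) ≤ lam ^ k := pow_le_pow_right₀ (by linarith) hjk
  have h3 := mul_le_mul_of_nonneg_right h2 (norm_nonneg x)
  have h4 : 0 ≤ lam ^ j * ‖x‖ := by positivity
  rw [pow_succ] at h3
  nlinarith

lemma loc_tail (h : Prof lam ϑ a₀ m τ) (hl : 8 ≤ lam) {j k : ℕ} (hjk : j < k) {x : E}
    (hx : τ (lam ^ k • x) ≠ 0) :
    ph lam m τ j =ᶠ[𝓝 x] fun z => (lam ^ j • Nn j k) z + vv j k := by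
  unfold Nn vv
  split_ifs with hj
  · have ho : IsOpen {z : E | ‖lam ^ j • z - cc‖ < 1} :=
      isOpen_lt (by fun_prop) continuous_const
    have hx' : ‖lam ^ j • x - cc‖ < 1 := by
      have h1 := h.fτ _ hx
      rw [← hj, pow_succ, mul_comm, ← smul_smul, ← smul_sub, norm_smul,
        Real.norm_of_nonneg (by positivity)] at h1
      nlinarith [norm_nonneg (lam ^ j • x - cc)]
    filter_upwards [ho.mem_nhds hx'] with z hz
    simp only [ph, h.linc _ hz, map_sub, map_smul, smul_apply]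
    abel
  · apply h.near_zero
    have h1 := h.fτ' hl _ hx
    rw [norm_smul, Real.norm_of_nonneg (by positivity)] at h1 ⊢
    have h2 : lam ^ (j + 2) ≤ lam ^ k := pow_le_pow_right₀ (by linarith) (by omega)
    have h3 := mul_le_mul_of_nonneg_right h2 (norm_nonneg x)
    have h4 : 0 ≤ lam ^ j * ‖x‖ := by positivity
    rw [pow_add] at h3
    by_contra hcon
    have h5 := mul_le_mul_of_nonneg_right (not_lt.1 hcon) (sq_nonneg lam)
    nlinarith

lemma pairing (h : Prof lam ϑ a₀ m τ) (hl : 8 ≤ lam) (k : ℕ) {G : E → E} (P Q : E →L[ℝ] E)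
    (p q : E) (hP : ∀ x y, inner ℝ (P x) y = inner ℝ x (P y))
    (hm : ∀ x, m (lam ^ k • x) ≠ 0 → G x = P x + p)
    (hτ : ∀ x, τ (lam ^ k • x) ≠ 0 → G x = Q x + q) :
    ∫ x, inner ℝ (G x) (ph lam m τ k x)
      = ϑ * ((lam ^ k) ^ 4)⁻¹ * (Q (e 1) 0 - Q (e 0) 1) := by
  have hs : 0 < lam ^ k := by positivity
  have h1 : ∀ x, inner ℝ (G x) (ph lam m τ k x) = inner ℝ (P x + p) (m (lam ^ k • x))
      + (inner ℝ ((0 : E →L[ℝ] E) x + q) (τ (lam ^ k • x)) + inner ℝ (Q x) (τ (lam ^ k • x))) := by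
    intro x
    rw [ph, inner_add_right]
    congr 1
    · by_cases hx : m (lam ^ k • x) = 0
      · simp [hx]
      · rw [hm x hx]
    · by_cases hx : τ (lam ^ k • x) = 0
      · simp [hx]
      · rw [hτ x hx, inner_add_left]
        simp [add_comm]
  have cm := compact_of_far (scale_far hs h.fm)
  have cτ := compact_of_far (scale_far hs (h.fτ' hl))
  have sm := scale_contDiff h.sm (lam ^ k)
  have sτ := scale_contDiff h.sτ (lam ^ k)
  have i1 : Integrable fun x => inner ℝ ((0 : E →L[ℝ] E) x + q) (τ (lam ^ k • x)) :=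
    integrable_inner_right (by fun_prop) sτ.continuous cτ
  have i2 : Integrable fun x => inner ℝ (Q x) (τ (lam ^ k • x)) :=
    integrable_inner_right Q.continuous sτ.continuous cτ
  have i3 : Integrable fun x => inner ℝ ((0 : E →L[ℝ] E) x + q) (τ (lam ^ k • x))
      + inner ℝ (Q x) (τ (lam ^ k • x)) := i1.add i2
  simp_rw [h1]
  rw [integral_add (integrable_inner_right (by fun_prop) sm.continuous cm) i3, integral_add i1 i2,
    integral_inner_symm_affine (sm.of_le one_le_infty) cm (scale_dvg h.sm h.dm _) P hP,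
    integral_inner_symm_affine (sτ.of_le one_le_infty) cτ (scale_dvg h.sτ h.dτ _) 0 (by simp)]
  have h2 := integral_scale (fun y => inner ℝ (((lam ^ k)⁻¹ • Q) y) (τ y)) hs
  rw [h.mom] at h2
  simp only [smul_apply, map_smul, smul_smul, mul_inv_cancel₀ hs.ne',
    one_smul, PiLp.smul_apply, smul_eq_mul] at h2
  rw [h2]
  field_simp
  ring

lemma orth_lt (h : Prof lam ϑ a₀ m τ) (hl : 8 ≤ lam) {j k : ℕ} (hjk : j < k) :
    ∫ x, inner ℝ (ph lam m τ j x) (ph lam m τ k x) = 0 := by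
  rw [h.pairing hl k (lam ^ j • Sm) (lam ^ j • Nn j k) 0 (vv j k)
    (fun x y => by simp [inner_smul_left, inner_smul_right, Sm_symm])
    (fun x hx => (h.loc_main hl hjk hx).eq_of_nhds) (fun x hx => (h.loc_tail hl hjk hx).eq_of_nhds)]
  unfold Nn
  split_ifs <;> simp

lemma lap_lt (h : Prof lam ϑ a₀ m τ) (hl : 8 ≤ lam) {j k : ℕ} (hjk : j < k) :
    ∫ x, inner ℝ (lap (ph lam m τ j) x) (ph lam m τ k x) = 0 := by
  rw [h.pairing hl k 0 0 0 0 (fun x y => by simp)
    (fun x hx => by simp [lap_affine _ _ (h.loc_main hl hjk hx)])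
    (fun x hx => by simp [lap_affine _ _ (h.loc_tail hl hjk hx)])]
  simp

lemma tri_third (h : Prof lam ϑ a₀ m τ) (hl : 8 ≤ lam) {i j k : ℕ} (hik : i < k) (hjk : j < k) :
    tri (ph lam m τ i) (ph lam m τ j) (ph lam m τ k)
      = if i + 1 = k ∧ j + 1 = k then ϑ * ((lam ^ k) ^ 4)⁻¹ * (lam ^ j * lam ^ i) else 0 := by
  unfold tri
  rw [h.pairing hl k ((lam ^ j • Sm).comp (lam ^ i • Sm))
    ((lam ^ j • Nn j k).comp (lam ^ i • Nn i k)) 0 ((lam ^ j • Nn j k) (vv i k))
    (fun x y => by simp [inner_smul_left, inner_smul_right, Sm_symm])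
    (fun x hx => by
      rw [fderiv_affine _ _ (h.loc_main hl hjk hx), (h.loc_main hl hik hx).eq_of_nhds]; simp)
    (fun x hx => by
      rw [fderiv_affine _ _ (h.loc_tail hl hjk hx), (h.loc_tail hl hik hx).eq_of_nhds, map_add]
      rfl)]
  unfold Nn
  by_cases hi : i + 1 = k <;> by_cases hj : j + 1 = k <;> simp [hi, hj, mul_comm]

lemma tri_first (h : Prof lam ϑ a₀ m τ) (hl : 8 ≤ lam) {i j k : ℕ} (hik : i < k) (hjk : j < k) :
    tri (ph lam m τ k) (ph lam m τ j) (ph lam m τ i) = 0 := by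
  unfold tri
  have h1 : ∀ x, inner ℝ (fderiv ℝ (ph lam m τ j) x (ph lam m τ k x)) (ph lam m τ i x)
      = inner ℝ (ContinuousLinearMap.adjoint (fderiv ℝ (ph lam m τ j) x) (ph lam m τ i x))
        (ph lam m τ k x) := fun x => by
    rw [ContinuousLinearMap.adjoint_inner_left, real_inner_comm]
  simp_rw [h1]
  rw [h.pairing hl k ((ContinuousLinearMap.adjoint (lam ^ j • Sm)).comp (lam ^ i • Sm))
    ((ContinuousLinearMap.adjoint (lam ^ j • Nn j k)).comp (lam ^ i • Nn i k)) 0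
    ((ContinuousLinearMap.adjoint (lam ^ j • Nn j k)) (vv i k))
    (fun x y => by
      simp only [ContinuousLinearMap.comp_apply, ContinuousLinearMap.adjoint_inner_left,
        ContinuousLinearMap.adjoint_inner_right, smul_apply,
        inner_smul_left, inner_smul_right]
      simp only [conj_trivial]
      ring)
    (fun x hx => by
      rw [fderiv_affine _ _ (h.loc_main hl hjk hx), (h.loc_main hl hik hx).eq_of_nhds]; simp)
    (fun x hx => by
      rw [fderiv_affine _ _ (h.loc_tail hl hjk hx), (h.loc_tail hl hik hx).eq_of_nhds, map_add]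
      rfl)]
  have h2 : ∀ (A B : E →L[ℝ] E) (r s : Fin 3), ((ContinuousLinearMap.adjoint A).comp B) (e r) s
      = inner ℝ (A (e s)) (B (e r)) := fun A B r s => by
    rw [← ContinuousLinearMap.adjoint_inner_right]
    simp [EuclideanSpace.inner_single_left]
  rw [h2, h2]
  unfold Nn
  by_cases hi : i + 1 = k <;> by_cases hj : j + 1 = k <;>
    simp [hi, hj, inner_eq_sum, Fin.sum_univ_three]

lemma tri_outer (h : Prof lam ϑ a₀ m τ) (hl : 8 ≤ lam) {j k : ℕ} (hjk : j < k) :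
    tri (ph lam m τ k) (ph lam m τ j) (ph lam m τ k) = -(lam ^ j * ((lam ^ k) ^ 3)⁻¹ * a₀) := by
  unfold tri
  have h1 : ∀ x, inner ℝ (fderiv ℝ (ph lam m τ j) x (ph lam m τ k x)) (ph lam m τ k x)
      = lam ^ j * inner ℝ (Sm (ph lam m τ k x)) (ph lam m τ k x) := by
    intro x
    by_cases hx : m (lam ^ k • x) = 0
    · by_cases hx' : τ (lam ^ k • x) = 0
      · simp [ph, hx, hx']
      · rw [fderiv_affine _ _ (h.loc_tail hl hjk hx')]
        have h2 := h.τ2 (lam ^ k • x)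
        unfold Nn
        split_ifs <;> simp [ph, hx, inner_eq_sum, Fin.sum_univ_three, h2, mul_assoc]
    · rw [fderiv_affine _ _ (h.loc_main hl hjk hx)]
      simp [inner_smul_left]
  simp_rw [h1]
  rw [integral_const_mul]
  have h2 := integral_scale (fun y => inner ℝ (Sm (m y + τ y)) (m y + τ y))
    (show 0 < lam ^ k by positivity)
  rw [h.ha] at h2
  unfold ph
  rw [h2]
  ring

end Prof

end Pool.Agent.Work.MP_6bf1e5_an.Vortex
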