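import Pool.Agent.Work.MP_6bf1e5_an.Vortex.Blocks

/-! The vortex profile. -/

namespace Pool.Agent.Work.MP_6bf1e5_an.Vortex

open MeasureTheory Filter Topology
open scoped ContDiff

/-- The centre of the modified strain region. -/
noncomputable def cc : E := (5 : ℝ) • e 0

lemma norm_cc : ‖cc‖ = 5 := by simp [cc, norm_smul]

/-- The properties of the profile `m + τ`. -/
structure Prof (lam ϑ a₀ : ℝ) (m τ : E → E) : Prop where
  sm : ContDiff ℝ ∞ m
  sτ : ContDiff ℝ ∞ τ
  fm : ∀ x, m x ≠ 0 → ‖x‖ ≤ 7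
  fτ : ∀ x, τ x ≠ 0 → ‖x - lam • cc‖ ≤ 2
  dm : ∀ x, dvg m x = 0
  dτ : ∀ x, dvg τ x = 0
  lin0 : ∀ x, ‖x‖ < 1 → m x + τ x = Sm x
  linc : ∀ x, ‖x - cc‖ < 1 → m x + τ x = (Sm + Mm) (x - cc)
  mom : ∀ N : E →L[ℝ] E, ∫ x, inner ℝ (N x) (τ x) = ϑ * (N (e 1) 0 - N (e 0) 1)
  τ2 : ∀ x, τ x 2 = 0
  ha : ∫ x, inner ℝ (Sm (m x + τ x)) (m x + τ x) = -a₀
  a_pos : 0 < a₀
  δ1 : -ϑ / a₀ ≤ Real.exp (-(42 * lam ^ 2))
  δ2 : Real.exp (-(42 * lam ^ 2)) / 2 ≤ -ϑ / a₀

/-- Translation along the first axis. -/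
noncomputable def sh (s : ℝ) (u : E → E) (x : E) : E := u (x - s • e 0)

lemma sh_contDiff {u : E → E} (hu : ContDiff ℝ ∞ u) (s : ℝ) : ContDiff ℝ ∞ (sh s u) :=
  hu.comp (contDiff_id.sub contDiff_const)

lemma sh_dvg {u : E → E} (hu : ∀ x, dvg u x = 0) (s : ℝ) (x : E) : dvg (sh s u) x = 0 := by
  unfold sh
  rw [dvg_translate, hu]

lemma abs_coord_le (x : E) (s : ℝ) : |x 0 - s| ≤ ‖x - s • e 0‖ := by
  have := PiLp.norm_apply_le (x - s • e 0) 0
  simpa using this

lemma sh_zero {u : E → E} (hu : ∀ x, u x ≠ 0 → ‖x‖ ≤ 2) {s : ℝ} {x : E}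
    (h : x 0 < s - 2 ∨ s + 2 < x 0) : sh s u x = 0 := by
  by_contra hcon
  have h1 := abs_le.1 ((abs_coord_le x s).trans (hu _ hcon))
  rcases h with h | h <;> linarith [h1.1, h1.2]

lemma sh_far {u : E → E} (hu : ∀ x, u x ≠ 0 → ‖x‖ ≤ 2) {s : ℝ} {x : E} (h : sh s u x ≠ 0) :
    ‖x‖ ≤ |s| + 2 := by
  have h1 := hu _ h
  have h2 : ‖x‖ ≤ ‖x - s • e 0‖ + ‖s • e 0‖ := by
    simpa using norm_add_le (x - s • e 0) (s • e 0)
  have h3 : ‖s • e 0‖ = |s| := by simp [norm_smul]
  linarith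

lemma sh_compact {u : E → E} (hu : ∀ x, u x ≠ 0 → ‖x‖ ≤ 2) (s : ℝ) :
    HasCompactSupport (sh s u) := compact_of_far fun _ => sh_far hu

lemma dvg_smul {u : E → E} (hu : Differentiable ℝ u) (c : ℝ) (x : E) :
    dvg (fun y => c • u y) x = c * dvg u x := by
  simpa using dvg_scale c 1 hu x

lemma integral_strain_sh (s : ℝ) :
    ∫ x, inner ℝ (Sm (sh s E0 x)) (sh s E0 x) = - ∫ x, pd 1 χ x ^ 2 := by
  unfold sh
  rw [integral_sub_right_eq_self (fun x => inner ℝ (Sm (E0 x)) (E0 x)) (s • e 0)]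
  simp_rw [E0_strain]
  rw [integral_neg]

theorem exists_prof : ∃ lam₀ : ℝ, ∀ lam, lam₀ ≤ lam → ∃ ϑ a₀ m τ, Prof lam ϑ a₀ m τ := by
  set t := ∫ x, pd 1 χ x ^ 2 with ht
  have ht0 : 0 < t := t_pos
  set Θ := ∫ x, χ x with hΘ
  have hΘ0 : 0 < Θ := χ.integral_pos
  let F : E → E := fun x => sh 0 A0 x + sh 5 B0 x
  have hF : ContDiff ℝ ∞ F := (sh_contDiff A0_contDiff 0).add (sh_contDiff B0_contDiff 5)
  have hFc : HasCompactSupport F :=
    (sh_compact (fun _ => A0_far) 0).add (sh_compact (fun _ => B0_far) 5)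
  set f := ∫ x, inner ℝ (Sm (F x)) (F x) with hf
  set κ := Real.sqrt (|f| / t + 1) with hκ
  have hκ2 : κ ^ 2 * t = |f| + t := by
    rw [hκ, Real.sq_sqrt (by positivity)]
    field_simp
  set am := κ ^ 2 * t - f with ham
  have hamt : t ≤ am := by rw [ham, hκ2]; linarith [le_abs_self f]
  refine ⟨max 2 (am / Θ), fun lam hlam => ?_⟩
  have hlam2 : 2 ≤ lam := (le_max_left _ _).trans hlam
  have hlam3 : am ≤ lam * Θ := by
    have := (le_max_right _ _).trans hlam
    rwa [div_le_iff₀ hΘ0] at this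
  set δ₀ := Real.exp (-(42 * lam ^ 2)) with hδ₀
  have hδ₀0 : 0 < δ₀ := Real.exp_pos _
  have hδ₀1 : δ₀ * lam ≤ 1 := by
    have h1 : 42 * lam ^ 2 + 1 ≤ Real.exp (42 * lam ^ 2) := Real.add_one_le_exp _
    rw [hδ₀, Real.exp_neg, inv_mul_le_iff₀ (Real.exp_pos _)]
    nlinarith
  set ε := -(δ₀ * am / Θ) with hε
  have hε2 : ε ^ 2 ≤ 1 := by
    have h1 : δ₀ * am / Θ ≤ 1 := by
      rw [div_le_one hΘ0]
      nlinarith
    have h2 : 0 ≤ δ₀ * am / Θ := by
      have : 0 < am := by linarith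
      positivity
    rw [hε]
    nlinarith
  have hE : ∀ s, ContDiff ℝ ∞ (sh s E0) := sh_contDiff E0_contDiff
  have hE' : ∀ c s : ℝ, ContDiff ℝ ∞ (fun x => c • sh s E0 x) := fun c s => (hE s).const_smul c
  have ham0 : 0 < am := by linarith
  have hEc : ∀ s, HasCompactSupport (sh s E0) := sh_compact fun _ => E0_far
  have zA : ∀ {x : E}, x 0 < -2 ∨ 2 < x 0 → sh 0 A0 x = 0 := fun h =>
    sh_zero (fun _ => A0_far) (by simpa using h)
  have zB : ∀ {x : E}, x 0 < 3 ∨ 7 < x 0 → sh 5 B0 x = 0 := fun h =>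
    sh_zero (fun _ => B0_far) (by rcases h with h | h; exacts [Or.inl (by linarith), Or.inr (by linarith)])
  have zE : ∀ {x : E}, -3 < x 0 → sh (-5) E0 x = 0 := fun h =>
    sh_zero (fun _ => E0_far) (Or.inr (by linarith))
  have zT : ∀ {x : E}, x 0 < 8 → sh (5 * lam) E0 x = 0 := fun h =>
    sh_zero (fun _ => E0_far) (Or.inl (by linarith))
  have hlc : lam • cc = (5 * lam) • e 0 := by rw [cc, smul_smul, mul_comm]
  refine ⟨ε * Θ, am + ε ^ 2 * t, fun x => F x + κ • sh (-5) E0 x,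
    fun x => ε • sh (5 * lam) E0 x, hF.add (hE' _ _),
    hE' _ _, ?_, ?_, ?_, ?_, ?_, ?_, ?_, ?_, ?_, by positivity, ?_, ?_⟩
  · intro x hx
    by_contra hcon
    apply hx
    have h1 : sh 0 A0 x = 0 := by
      by_contra h; have := sh_far (fun _ => A0_far) h; norm_num at this; linarith
    have h2 : sh 5 B0 x = 0 := by
      by_contra h; have := sh_far (fun _ => B0_far) h; norm_num at this; linarith
    have h3 : sh (-5) E0 x = 0 := by
      by_contra h; have := sh_far (fun _ => E0_far) h; norm_num at this; linarith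
    simp [F, h1, h2, h3]
  · intro x hx
    rw [hlc]
    apply E0_far
    intro h
    apply hx
    simp [sh, h]
  · intro x
    rw [dvg_add (hF.differentiable (by simp))
      ((hE' _ _).differentiable (by simp)),
      dvg_smul ((hE _).differentiable (by simp)), sh_dvg E0_dvg,
      dvg_add ((sh_contDiff A0_contDiff 0).differentiable (by simp))
        ((sh_contDiff B0_contDiff 5).differentiable (by simp)), sh_dvg A0_dvg, sh_dvg B0_dvg]
    simp
  · intro x
    rw [dvg_smul ((hE _).differentiable (by simp)), sh_dvg E0_dvg, mul_zero]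
  · intro x hx
    have h0 := abs_le.1 ((abs_coord_le x 0).trans (by simpa using hx.le) : |x 0 - 0| ≤ 1)
    simp only [F, zB (x := x) (Or.inl (by linarith [h0.2])), zE (x := x) (by linarith [h0.1]),
      zT (x := x) (by linarith [h0.2]), smul_zero, add_zero]
    simp [sh, A0_near hx]
  · intro x hx
    have h0 := abs_le.1 ((abs_coord_le x 5).trans hx.le)
    simp only [F, zA (x := x) (Or.inr (by linarith [h0.1])), zE (x := x) (by linarith [h0.1]),
      zT (x := x) (by linarith [h0.2]), smul_zero, add_zero, zero_add]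
    exact B0_near hx
  · intro N
    have h1 : ∫ x, inner ℝ (N x) (ε • sh (5 * lam) E0 x)
        = ∫ x, ε * (inner ℝ (N x) (E0 x)
          + inner ℝ ((0 : E →L[ℝ] E) x + N ((5 * lam) • e 0)) (E0 x)) := by
      rw [← integral_add_right_eq_self _ ((5 * lam) • e 0)]
      congr 1
      funext x
      simp only [sh, add_sub_cancel_right, inner_smul_right, map_add, inner_add_left]
      simp
    rw [h1, integral_const_mul, integral_add
      (integrable_inner_right N.continuous E0_contDiff.continuous E0_compact)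
      (integrable_inner_right (by fun_prop) E0_contDiff.continuous E0_compact),
      integral_inner_symm_affine (E0_contDiff.of_le one_le_infty) E0_compact E0_dvg 0 (by simp),
      E0_moment]
    ring
  · intro x
    simp [sh, E0_2]
  · have h1 : ∀ x, inner ℝ (Sm (F x + κ • sh (-5) E0 x + ε • sh (5 * lam) E0 x))
        (F x + κ • sh (-5) E0 x + ε • sh (5 * lam) E0 x)
        = inner ℝ (Sm (F x)) (F x) + κ ^ 2 * inner ℝ (Sm (sh (-5) E0 x)) (sh (-5) E0 x)
          + ε ^ 2 * inner ℝ (Sm (sh (5 * lam) E0 x)) (sh (5 * lam) E0 x) := by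
      intro x
      rcases lt_or_ge (x 0) (-5 / 2) with h | h
      · simp only [F, zA (x := x) (Or.inl (by linarith)), zB (x := x) (Or.inl (by linarith)),
          zT (x := x) (by linarith)]
        simp [inner_smul_left, inner_smul_right]
        ring
      · rcases lt_or_ge (x 0) (15 / 2) with h' | h'
        · simp [zE (x := x) (by linarith), zT (x := x) (by linarith)]
        · simp only [F, zA (x := x) (Or.inr (by linarith)), zB (x := x) (Or.inr (by linarith)),
            zE (x := x) (by linarith)]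
          simp [inner_smul_left, inner_smul_right]
          ring
    have iE : ∀ s, Integrable fun x => inner ℝ (Sm (sh s E0 x)) (sh s E0 x) := fun s =>
      integrable_inner_right (Sm.continuous.comp (hE s).continuous) (hE s).continuous (hEc s)
    have iF : Integrable fun x => inner ℝ (Sm (F x)) (F x) :=
      integrable_inner_right (Sm.continuous.comp hF.continuous) hF.continuous hFc
    simp_rw [h1]
    have iFE : Integrable fun x => inner ℝ (Sm (F x)) (F x)
        + κ ^ 2 * inner ℝ (Sm (sh (-5) E0 x)) (sh (-5) E0 x) := iF.add ((iE _).const_mul _)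
    rw [integral_add iFE ((iE _).const_mul _),
      integral_add iF ((iE _).const_mul _), integral_const_mul, integral_const_mul,
      integral_strain_sh, integral_strain_sh, ← ht, ← hf, ham]
    ring
  · have h1 : -(ε * Θ) = δ₀ * am := by rw [hε]; field_simp
    rw [h1, div_le_iff₀ (by positivity)]
    have : 0 ≤ δ₀ * (ε ^ 2 * t) := by positivity
    linarith
  · have h1 : -(ε * Θ) = δ₀ * am := by rw [hε]; field_simp
    rw [h1, le_div_iff₀ (by positivity)]
    have h2 : ε ^ 2 * t ≤ am := by nlinarith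
    have := mul_le_mul_of_nonneg_left h2 hδ₀0.le
    linarith

end Pool.Agent.Work.MP_6bf1e5_an.Vortex
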