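import Pool.Agent.Work.MP_6bf1e5_an.Vortex.Blowup

/-! Smoothness in time of the weighted coefficient sequences. -/

namespace Pool.Agent.Work.MP_6bf1e5_an.Vortex

open Set Filter Topology Asymptotics

/-- Bounded sequences. -/
abbrev H := BoundedContinuousFunction ℕ ℝ

lemma exists_op (f : H → ℕ → ℝ) (hadd : ∀ z w k, f (z + w) k = f z k + f w k)
    (hsmul : ∀ (c : ℝ) z k, f (c • z) k = c * f z k) (C : ℝ) (hC : 0 ≤ C)
    (hb : ∀ z k, |f z k| ≤ C * ‖z‖) : ∃ L : H →L[ℝ] H, ∀ z k, L z k = f z k := by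
  let g : H →ₗ[ℝ] H :=
    { toFun := fun z => BoundedContinuousFunction.ofNormedAddCommGroupDiscrete (f z) (C * ‖z‖)
        (hb z)
      map_add' := fun z w => by ext k; simp [hadd]
      map_smul' := fun c z => by ext k; simp [hsmul] }
  refine ⟨g.mkContinuous C fun z => ?_, fun z k => rfl⟩
  exact (BoundedContinuousFunction.norm_le (by positivity)).2 (hb z)

lemma abs_H_le (z : H) (k : ℕ) : |z k| ≤ ‖z‖ := z.norm_coe_le_norm k

lemma exists_PS : ∃ L : H →L[ℝ] H, ∀ z k, L z k = ∑ j ∈ Finset.range k, (1 / 2) ^ j * z j := by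
  refine exists_op _ (fun z w k => by simp [mul_add, Finset.sum_add_distrib])
    (fun c z k => by simp [Finset.mul_sum, mul_left_comm]) 2 (by norm_num) fun z k => ?_
  refine (Finset.abs_sum_le_sum_abs _ _).trans ?_
  have h1 : ∀ j ∈ Finset.range k, |(1 / 2 : ℝ) ^ j * z j| ≤ (1 / 2) ^ j * ‖z‖ := fun j _ => by
    rw [abs_mul, abs_of_nonneg (by positivity)]
    exact mul_le_mul_of_nonneg_left (abs_H_le z j) (by positivity)
  refine (Finset.sum_le_sum h1).trans ?_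
  rw [← Finset.sum_mul]
  exact mul_le_mul_of_nonneg_right (sum_geometric_two_le k) (norm_nonneg _)

lemma exists_SR : ∃ L : H →L[ℝ] H, ∀ z k, L z k = prev z k := by
  refine exists_op _ (fun z w k => by cases k <;> simp) (fun c z k => by cases k <;> simp) 1
    (by norm_num) fun z k => ?_
  cases k with
  | zero => simp
  | succ k => simpa using abs_H_le z k

lemma exists_SL : ∃ L : H →L[ℝ] H, ∀ z k, L z k = z (k + 1) :=
  exists_op _ (fun z w k => by simp) (fun c z k => by simp) 1 (by norm_num)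
    fun z k => by simpa using abs_H_le z (k + 1)

lemma exists_TL {r : ℝ} (hr : 0 ≤ r) (hr' : r ≤ 1 / 2) :
    ∃ L : H →L[ℝ] H, ∀ z k, L z k = ∑' m, r ^ (m + 1) * z (k + m + 1) := by
  have hb : ∀ (z : H) k m, ‖r ^ (m + 1) * z (k + m + 1)‖ ≤ ‖z‖ * (1 / 2) ^ m := fun z k m => by
    rw [Real.norm_eq_abs, abs_mul, abs_of_nonneg (by positivity), mul_comm]
    refine mul_le_mul (abs_H_le _ _) ?_ (by positivity) (norm_nonneg _)
    calc r ^ (m + 1) ≤ (1 / 2) ^ (m + 1) := pow_le_pow_left₀ hr hr' _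
      _ ≤ (1 / 2) ^ m := pow_le_pow_of_le_one (by norm_num) (by norm_num) (Nat.le_succ m)
  have hs : ∀ (z : H) k, Summable fun m => r ^ (m + 1) * z (k + m + 1) := fun z k =>
    Summable.of_norm_bounded (summable_geometric_two.mul_left ‖z‖) (hb z k)
  refine exists_op _ (fun z w k => ?_) (fun c z k => ?_) 2 (by norm_num) fun z k => ?_
  · rw [← (hs z k).tsum_add (hs w k)]
    simp [mul_add]
  · rw [← tsum_mul_left]
    simp [mul_left_comm]
  · have := tsum_of_norm_bounded (hasSum_geometric_two.mul_left ‖z‖) (hb z k)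
    rw [Real.norm_eq_abs] at this
    linarith

open Classical in
/-- The sequence `y k / θ ^ k` as a bounded sequence. -/
noncomputable def wt (θ : ℝ) (y : ℕ → ℝ) : H :=
  if h : ∃ C, ∀ k, ‖y k / θ ^ k‖ ≤ C then
    BoundedContinuousFunction.ofNormedAddCommGroupDiscrete (fun k => y k / θ ^ k) h.choose
      h.choose_spec
  else 0

lemma wt_bound {θ C : ℝ} (hθ : 0 < θ) {y : ℕ → ℝ} (h : ∀ k, |y k| ≤ C * θ ^ k) (k : ℕ) :
    ‖y k / θ ^ k‖ ≤ C := by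
  rw [Real.norm_eq_abs, abs_div, abs_of_pos (pow_pos hθ k), div_le_iff₀ (pow_pos hθ k)]
  exact h k

lemma wt_apply {θ C : ℝ} (hθ : 0 < θ) {y : ℕ → ℝ} (h : ∀ k, |y k| ≤ C * θ ^ k) (k : ℕ) :
    wt θ y k = y k / θ ^ k := by
  have h' : ∃ C, ∀ k, ‖y k / θ ^ k‖ ≤ C := ⟨C, wt_bound hθ h⟩
  unfold wt
  rw [dif_pos h']
  rfl

lemma wt_norm_le {θ C : ℝ} (hθ : 0 < θ) {y : ℕ → ℝ} (h : ∀ k, |y k| ≤ C * θ ^ k) :
    ‖wt θ y‖ ≤ C := by
  have hC : 0 ≤ C := (norm_nonneg _).trans (wt_bound hθ h 0)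
  refine (BoundedContinuousFunction.norm_le hC).2 fun k => ?_
  rw [wt_apply hθ h]
  exact wt_bound hθ h k

lemma hasDerivWithinAt_H {Z F : ℝ → H} {s : Set ℝ} (hs : Convex ℝ s)
    (hd : ∀ k, ∀ t ∈ s, HasDerivWithinAt (fun t => Z t k) (F t k) s t) (hF : ContinuousOn F s)
    {t : ℝ} (ht : t ∈ s) : HasDerivWithinAt Z (F t) s t := by
  rw [hasDerivWithinAt_iff_isLittleO, isLittleO_iff]
  intro ε hε
  obtain ⟨η, hη, hball⟩ := Metric.continuousWithinAt_iff.1 (hF t ht) ε hε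
  have hconv : Convex ℝ (s ∩ Metric.ball t η) := hs.inter (convex_ball t η)
  filter_upwards [inter_mem_nhdsWithin s (Metric.ball_mem_nhds t hη)] with u hu
  refine (BoundedContinuousFunction.norm_le (by positivity)).2 fun k => ?_
  have key := hconv.norm_image_sub_le_of_norm_hasDerivWithin_le
    (f := fun v => Z v k - v * F t k) (f' := fun v => F v k - 1 * F t k) (C := ε)
    (fun v hv => ((hd k v hv.1).mono inter_subset_left).sub
      ((hasDerivWithinAt_id v _).mul_const _))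
    (fun v hv => by
      have h1 := hball hv.1 hv.2
      rw [dist_eq_norm] at h1
      have h2 := (F v - F t).norm_coe_le_norm k
      rw [one_mul]
      exact h2.trans h1.le)
    ⟨ht, Metric.mem_ball_self hη⟩ hu
  have e : (Z u - Z t - (u - t) • F t) k = Z u k - u * F t k - (Z t k - t * F t k) := by
    simp
    ring
  rw [e]
  exact key

namespace BlowSol

variable {Λ δ ρ d A T : ℝ} {Y : ℝ → ℕ → ℝ}

lemma wt_eq (h : BlowSol Λ δ ρ d A T Y) {θ : ℝ} (hθ : 0 < θ) {t : ℝ} (ht : t ∈ Ico 0 T) (k : ℕ) :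
    wt θ (Y t) k = Y t k / θ ^ k := by
  obtain ⟨C, hC⟩ := h.rapid t ht.2 θ hθ
  exact wt_apply hθ (hC t ⟨ht.1, le_rfl⟩) k

lemma wt_isBigO (h : BlowSol Λ δ ρ d A T Y) {θ : ℝ} (hθ : 0 < θ) {t₁ : ℝ} (ht : t₁ < T) :
    (fun t => wt θ (Y t)) =O[𝓟 (Icc 0 t₁)] fun _ => (1 : ℝ) := by
  obtain ⟨C, hC⟩ := h.rapid t₁ ht θ hθ
  exact IsBigO.of_bound C (eventually_principal.2 fun t ht => by
    simpa using wt_norm_le hθ (hC t ht))

theorem smooth (h : BlowSol Λ δ ρ d A T Y) (hΛ : 1 ≤ Λ) (hρ : 0 ≤ ρ) (hρ' : ρ ≤ 1 / 2) :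
    ∀ θ, 0 < θ → θ ≤ 1 → (∀ n : ℕ, ContDiffOn ℝ n (fun t => wt θ (Y t)) (Ico 0 T)) ∧
      ∀ t ∈ Ico 0 T, ∃ F : H, (∀ k, F k = fld d Λ δ ρ (Y t) k / θ ^ k) ∧
        HasDerivWithinAt (fun t => wt θ (Y t)) F (Ico 0 T) t := by
  obtain ⟨PS, hPS⟩ := exists_PS
  obtain ⟨SR, hSR⟩ := exists_SR
  obtain ⟨SL, hSL⟩ := exists_SL
  have hTL : ∀ θ : ℝ, ∃ L : H →L[ℝ] H, 0 < θ → θ ≤ 1 →
      ∀ z k, L z k = ∑' m, (ρ * θ) ^ (m + 1) * z (k + m + 1) := fun θ => by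
    by_cases hθ : 0 < θ ∧ θ ≤ 1
    · obtain ⟨L, hL⟩ := exists_TL (r := ρ * θ) (mul_nonneg hρ hθ.1.le) (by nlinarith [hθ.1, hθ.2])
      exact ⟨L, fun _ _ => hL⟩
    · exact ⟨0, fun h1 h2 => absurd ⟨h1, h2⟩ hθ⟩
  choose TL hTL using hTL
  let Z : ℝ → ℝ → H := fun θ t => wt θ (Y t)
  let F : ℝ → ℝ → H := fun θ t => PS (Z (1 / 2) t) * Z θ t - d • Z (θ / Λ) t
    + (δ / θ) • SR (Z 1 t * Z θ t) - (δ * ρ) • (Z θ t * SL (Z 1 t)) - TL θ (Z 1 t * Z θ t)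
  have hdiv : ∀ θ, 0 < θ → θ ≤ 1 → 0 < θ / Λ ∧ θ / Λ ≤ 1 := fun θ h1 h2 =>
    ⟨by positivity, by rw [div_le_one (by linarith)]; linarith⟩
  have hF : ∀ θ, 0 < θ → θ ≤ 1 → ∀ t ∈ Ico 0 T, ∀ k,
      F θ t k = fld d Λ δ ρ (Y t) k / θ ^ k := by
    intro θ h1 h2 t ht k
    have e1 : ∀ θ', 0 < θ' → ∀ j, Z θ' t j = Y t j / θ' ^ j := fun θ' h' j => h.wt_eq h' ht j
    have e2 : PS (Z (1 / 2) t) k = Sg (Y t) k := by
      rw [hPS]
      refine Finset.sum_congr rfl fun j _ => ?_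
      rw [e1 _ (by norm_num)]
      field_simp
    have e3 : δ / θ * SR (Z 1 t * Z θ t) k = δ * prev (Y t) k ^ 2 / θ ^ k := by
      rw [hSR]
      cases k with
      | zero => simp
      | succ k =>
        simp only [prev_succ, BoundedContinuousFunction.coe_mul, Pi.mul_apply, e1 1 one_pos,
          e1 θ h1]
        field_simp
        ring
    have e4 : TL θ (Z 1 t * Z θ t) k = Rt ρ (Y t) k / θ ^ k := by
      rw [hTL θ h1 h2, Rt, ← tsum_div_const]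
      refine tsum_congr fun m => ?_
      simp only [BoundedContinuousFunction.coe_mul, Pi.mul_apply, e1 1 one_pos, e1 θ h1]
      field_simp
      ring
    simp only [F, BoundedContinuousFunction.coe_sub, BoundedContinuousFunction.coe_add,
      BoundedContinuousFunction.coe_mul, BoundedContinuousFunction.coe_smul, Pi.sub_apply,
      Pi.add_apply, Pi.mul_apply, smul_eq_mul, e2, e3, e4, hSL, e1 1 one_pos, e1 θ h1,
      e1 (θ / Λ) (hdiv θ h1 h2).1, fld]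
    rw [div_pow]
    field_simp
    ring
  have hdk : ∀ θ, 0 < θ → θ ≤ 1 → ∀ k, ∀ t ∈ Ico 0 T,
      HasDerivWithinAt (fun t => Z θ t k) (F θ t k) (Ico 0 T) t := by
    intro θ h1 h2 k t ht
    rw [hF θ h1 h2 t ht]
    exact ((h.ode k t ht).div_const _).congr_of_mem (fun s hs => h.wt_eq h1 hs k) ht
  have hcont : ∀ θ, 0 < θ → θ ≤ 1 → ContinuousOn (Z θ) (Ico 0 T) := by
    intro θ h1 h2 t ht
    obtain ⟨t₁, ht1, ht2⟩ := exists_between ht.2
    have b : ∀ θ', 0 < θ' → Z θ' =O[𝓟 (Icc 0 t₁)] fun _ => (1 : ℝ) := fun θ' h' =>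
      h.wt_isBigO h' ht2
    have bm : ∀ {f g : ℝ → H}, (f =O[𝓟 (Icc 0 t₁)] fun _ => (1 : ℝ)) →
        (g =O[𝓟 (Icc 0 t₁)] fun _ => (1 : ℝ)) →
        (fun t => f t * g t) =O[𝓟 (Icc 0 t₁)] fun _ => (1 : ℝ) := fun hf hg => by
      simpa using hf.mul hg
    have bl : ∀ (L : H →L[ℝ] H) {f : ℝ → H}, (f =O[𝓟 (Icc 0 t₁)] fun _ => (1 : ℝ)) →
        (fun t => L (f t)) =O[𝓟 (Icc 0 t₁)] fun _ => (1 : ℝ) := fun L f hf =>
      (L.isBigO_comp f _).trans hf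
    have bs : ∀ (c : ℝ) {f : ℝ → H}, (f =O[𝓟 (Icc 0 t₁)] fun _ => (1 : ℝ)) →
        (fun t => c • f t) =O[𝓟 (Icc 0 t₁)] fun _ => (1 : ℝ) := fun c f hf =>
      hf.const_smul_left c
    have bF : F θ =O[𝓟 (Icc 0 t₁)] fun _ => (1 : ℝ) :=
      ((((bm (bl PS (b (1 / 2) (by norm_num))) (b θ h1)).sub
        (bs d (b (θ / Λ) (hdiv θ h1 h2).1))).add
        (bs (δ / θ) (bl SR (bm (b 1 one_pos) (b θ h1))))).sub
        (bs (δ * ρ) (bm (b θ h1) (bl SL (b 1 one_pos))))).sub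
        (bl (TL θ) (bm (b 1 one_pos) (b θ h1)))
    obtain ⟨L, hL0, hL⟩ := bF.exists_pos
    have hL' : ∀ s ∈ Icc 0 t₁, ‖F θ s‖ ≤ L := fun s hs => by
      simpa using eventually_principal.1 hL.bound s hs
    have hsub : Icc 0 t₁ ⊆ Ico 0 T := fun s hs => ⟨hs.1, lt_of_le_of_lt hs.2 ht2⟩
    have hlip : LipschitzOnWith ⟨L, hL0.le⟩ (Z θ) (Icc 0 t₁) := by
      refine LipschitzOnWith.of_dist_le_mul fun u hu v hv => ?_
      rw [dist_eq_norm, dist_eq_norm]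
      refine (BoundedContinuousFunction.norm_le (by positivity)).2 fun k => ?_
      exact (convex_Icc 0 t₁).norm_image_sub_le_of_norm_hasDerivWithin_le
        (f := fun v => Z θ v k) (f' := fun v => F θ v k) (C := L)
        (fun s hs => (hdk θ h1 h2 k s (hsub hs)).mono hsub)
        (fun s hs => ((F θ s).norm_coe_le_norm k).trans (hL' s hs)) hv hu
    refine (hlip.continuousOn t ⟨ht.1, ht1.le⟩).mono_of_mem_nhdsWithin ?_
    filter_upwards [self_mem_nhdsWithin, mem_nhdsWithin_of_mem_nhds (Iio_mem_nhds ht1)]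
      with s hs hs'
    exact ⟨hs.1, le_of_lt hs'⟩
  have hFd : ∀ n : ℕ, (∀ θ, 0 < θ → θ ≤ 1 → ContDiffOn ℝ n (Z θ) (Ico 0 T)) →
      ∀ θ, 0 < θ → θ ≤ 1 → ContDiffOn ℝ n (F θ) (Ico 0 T) := by
    intro n b θ h1 h2
    have bl : ∀ (L : H →L[ℝ] H) {f : ℝ → H}, ContDiffOn ℝ n f (Ico 0 T) →
        ContDiffOn ℝ n (fun t => L (f t)) (Ico 0 T) := fun L f hf =>
      L.contDiff.comp_contDiffOn hf
    have b1 := b 1 one_pos le_rfl
    have bθ := b θ h1 h2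
    exact (((((bl PS (b _ (by norm_num) (by norm_num))).mul bθ).sub
      ((b _ (hdiv θ h1 h2).1 (hdiv θ h1 h2).2).const_smul d)).add
      ((bl SR (b1.mul bθ)).const_smul _)).sub ((bθ.mul (bl SL b1)).const_smul _)).sub
      (bl (TL θ) (b1.mul bθ))
  have hder : ∀ θ, 0 < θ → θ ≤ 1 → ∀ t ∈ Ico 0 T,
      HasDerivWithinAt (Z θ) (F θ t) (Ico 0 T) t := fun θ h1 h2 t ht =>
    hasDerivWithinAt_H (convex_Ico 0 T) (hdk θ h1 h2)
      (contDiffOn_zero.1 (hFd 0 (fun θ' h1' h2' => contDiffOn_zero.2 (hcont θ' h1' h2')) θ h1 h2))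
      ht
  have main : ∀ n : ℕ, ∀ θ, 0 < θ → θ ≤ 1 → ContDiffOn ℝ n (Z θ) (Ico 0 T) := by
    intro n
    induction n with
    | zero => exact fun θ h1 h2 => contDiffOn_zero.2 (hcont θ h1 h2)
    | succ n ih =>
      intro θ h1 h2
      rw [Nat.cast_succ, contDiffOn_succ_iff_derivWithin (uniqueDiffOn_Ico 0 T)]
      refine ⟨fun t ht => (hder θ h1 h2 t ht).differentiableWithinAt, by simp, ?_⟩
      exact (hFd n ih θ h1 h2).congr fun t ht =>
        (hder θ h1 h2 t ht).derivWithin (uniqueDiffOn_Ico 0 T t ht)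
  exact fun θ h1 h2 => ⟨fun n => main n θ h1 h2,
    fun t ht => ⟨F θ t, hF θ h1 h2 t ht, hder θ h1 h2 t ht⟩⟩

end BlowSol

end Pool.Agent.Work.MP_6bf1e5_an.Vortex
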