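import Pool.Agent.Work.MP_6bf1e5_an.Vortex.Coef
import Pool.Agent.Work.MP_6bf1e5_an.Vortex.Smooth

/-! Series in the modes with rapidly decaying coefficients. -/

namespace Pool.Agent.Work.MP_6bf1e5_an.Vortex

open MeasureTheory Filter Topology
open scoped ContDiff

/-- The pointwise sum of the series. -/
noncomputable def sm (Ψ : ℕ → E → E) (X : ℕ → ℝ) (x : E) : E := ∑' k, X k • Ψ k x

/-- Decay faster than every geometric sequence. -/
def Rapid (X : ℕ → ℝ) : Prop := ∀ θ : ℝ, 0 < θ → θ ≤ 1 → ∃ C, ∀ k, |X k| ≤ C * θ ^ k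

lemma geom_bound {c C θ q x y : ℝ} {k : ℕ} (hθ : 0 < θ) (hq : 0 ≤ q) (hθq : θ * q ≤ 1 / 2)
    (hx0 : 0 ≤ x) (hy0 : 0 ≤ y) (hx : x ≤ c * θ ^ k) (hy : y ≤ C * q ^ k) :
    x * y ≤ |c * C| * (1 / 2) ^ k := by
  have h1 : x * y ≤ (c * θ ^ k) * (C * q ^ k) := mul_le_mul hx hy hy0 (hx0.trans hx)
  have h2 : (c * θ ^ k) * (C * q ^ k) = c * C * (θ * q) ^ k := by rw [mul_pow]; ring
  have h3 : (θ * q) ^ k ≤ (1 / 2) ^ k := pow_le_pow_left₀ (by positivity) hθq k
  have h4 : c * C * (θ * q) ^ k ≤ |c * C| * (θ * q) ^ k :=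
    mul_le_mul_of_nonneg_right (le_abs_self _) (by positivity)
  have h5 := mul_le_mul_of_nonneg_left h3 (abs_nonneg (c * C))
  linarith

lemma exists_theta {q : ℝ} (hq : 1 ≤ q) : ∃ θ : ℝ, 0 < θ ∧ θ ≤ 1 ∧ θ * q ≤ 1 / 2 := by
  refine ⟨1 / (2 * q), by positivity, ?_, le_of_eq (by field_simp)⟩
  rw [div_le_one (by positivity)]
  linarith

namespace Fam

variable {μ a δ m₂ R B : ℝ} {Ψ : ℕ → E → E}

lemma one_le (h : Fam μ a δ m₂ R B Ψ) : 1 ≤ μ := by linarith [h.hμ]

lemma term_bound (h : Fam μ a δ m₂ R B Ψ) {X : ℕ → ℝ} (hX : Rapid X) (r : ℕ) :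
    ∃ C, ∀ k x, ‖iteratedFDeriv ℝ r (fun x => X k • Ψ k x) x‖ ≤ C * (1 / 2) ^ k := by
  obtain ⟨C, hC⟩ := h.der r
  obtain ⟨θ, h1, h2, h3⟩ := exists_theta (one_le_pow₀ h.one_le (n := 3 + 2 * r))
  obtain ⟨c, hc⟩ := hX θ h1 h2
  refine ⟨|c * C|, fun k x => ?_⟩
  rw [iteratedFDeriv_const_smul_apply'
    ((h.smooth k).of_le (by exact_mod_cast le_top)).contDiffAt, norm_smul]
  exact geom_bound h1 (pow_nonneg (by linarith [h.hμ]) _) h3 (norm_nonneg _) (norm_nonneg _)
    (hc k) (hC k x)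

lemma sm_isSum (h : Fam μ a δ m₂ R B Ψ) {X : ℕ → ℝ} (hX : Rapid X) : IsSum Ψ X (sm Ψ X) := by
  choose C hC using h.term_bound hX
  have hs : ContDiff ℝ ∞ (sm Ψ X) :=
    contDiff_tsum (N := ⊤) (v := fun r k => C r * (1 / 2) ^ k)
      (fun k => (h.smooth k).const_smul (X k)) (fun r _ => summable_geometric_two.mul_left _)
      (fun r k x _ => hC r k x)
  have hfar : ∀ x, sm Ψ X x ≠ 0 → ‖x‖ ≤ R := fun x hx => by
    by_contra hcon
    apply hx
    simp [sm, fun k => not_not.1 (mt (h.far' k x) hcon)]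
  have hb : ∀ k x, ‖X k • Ψ k x‖ ≤ C 0 * (1 / 2) ^ k := fun k x => by simpa using hC 0 k x
  have hC0 : 0 ≤ C 0 := by simpa using (norm_nonneg _).trans (hb 0 0)
  refine ⟨hs, hs.continuous.memLp_of_hasCompactSupport (compact_of_far hfar), ?_⟩
  have key := tendsto_integral_of_dominated_convergence (μ := (volume : Measure E))
    (F := fun n x => ‖sm Ψ X x - ps Ψ X n x‖ ^ 2) (f := fun _ => (0 : ℝ))
    ((Metric.closedBall (0 : E) R).indicator fun _ => (4 * C 0) ^ 2)
    (fun n => ((hs.continuous.sub (h.ps_continuous X n)).norm.pow 2).aestronglyMeasurable)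
    ((integrable_indicator_iff Metric.isClosed_closedBall.measurableSet).2
      (integrableOn_const (measure_closedBall_lt_top).ne))
    (fun n => Eventually.of_forall fun x => by
      rw [Real.norm_of_nonneg (by positivity)]
      by_cases hx : x ∈ Metric.closedBall (0 : E) R
      · rw [Set.indicator_of_mem hx]
        have h1 : ‖sm Ψ X x‖ ≤ C 0 * 2 :=
          tsum_of_norm_bounded (hasSum_geometric_two.mul_left (C 0)) (fun k => hb k x)
        have h2 : ‖ps Ψ X n x‖ ≤ C 0 * 2 := by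
          refine (norm_sum_le _ _).trans ((Finset.sum_le_sum fun k _ => hb k x).trans ?_)
          rw [← Finset.mul_sum]
          exact mul_le_mul_of_nonneg_left (sum_geometric_two_le n) hC0
        exact pow_le_pow_left₀ (norm_nonneg _) ((norm_sub_le _ _).trans (by linarith)) 2
      · rw [Set.indicator_of_notMem hx]
        rw [mem_closedBall_zero_iff] at hx
        rw [not_not.1 (mt (hfar x) hx), not_not.1 (mt (h.ps_far X n x) hx)]
        simp)
    (Eventually.of_forall fun x => by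
      have h1 : Summable fun k => X k • Ψ k x :=
        Summable.of_norm_bounded (summable_geometric_two.mul_left (C 0)) (fun k => hb k x)
      have h2 := ((h1.hasSum.tendsto_sum_nat.const_sub (sm Ψ X x)).norm).pow 2
      simpa [sm, ps] using h2)
  simpa using key

lemma exists_Op (h : Fam μ a δ m₂ R B Ψ) {V : Type} [NormedAddCommGroup V] [NormedSpace ℝ V]
    (ev : ℕ → V →L[ℝ] ℝ) (hev : ∀ k z, |ev k z| ≤ ‖z‖) (n : ℕ) {θ c : ℝ} (hθ : 0 < θ)
    (hθq : θ * μ ^ (3 + 2 * n) ≤ 1 / 2) {w : ℕ → ℝ} (hw : ∀ k, |w k| ≤ c * θ ^ k) :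
    ∃ Op : E → V →L[ℝ] E, ContDiff ℝ n Op ∧ ∀ x z, Op x z = sm Ψ (fun k => w k * ev k z) x := by
  choose C hC using h.der
  let L : ℕ → E →L[ℝ] (V →L[ℝ] E) := fun k => w k • ContinuousLinearMap.smulRightL ℝ V E (ev k)
  have hL : ∀ k, ‖L k‖ ≤ c * θ ^ k := fun k => by
    have h1 : ‖ev k‖ ≤ 1 :=
      ContinuousLinearMap.opNorm_le_bound _ zero_le_one fun z => by simpa using hev k z
    have h0 : 0 ≤ c * θ ^ k := (abs_nonneg _).trans (hw k)
    refine ContinuousLinearMap.opNorm_le_bound _ h0 fun v => ?_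
    have h2 : L k v = w k • (ev k).smulRight v := rfl
    rw [h2, norm_smul, ContinuousLinearMap.norm_smulRight_apply, ← mul_assoc]
    refine mul_le_mul_of_nonneg_right ?_ (norm_nonneg v)
    have h5 := mul_le_mul (hw k) h1 (norm_nonneg _) h0
    rw [Real.norm_eq_abs]
    linarith
  have hb : ∀ r ≤ n, ∀ k x, ‖iteratedFDeriv ℝ r (L k ∘ Ψ k) x‖
      ≤ |c * C r| * (1 / 2) ^ k := fun r hr k x => by
    refine ((L k).norm_iteratedFDeriv_comp_left (h.smooth k).contDiffAt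
      (by exact_mod_cast le_top)).trans ?_
    refine geom_bound hθ (pow_nonneg (by linarith [h.hμ]) _) (le_trans ?_ hθq) (norm_nonneg _)
      (norm_nonneg _) (hL k) (hC r k x)
    exact mul_le_mul_of_nonneg_left (pow_le_pow_right₀ h.one_le (by omega)) hθ.le
  refine ⟨fun x => ∑' k, (L k ∘ Ψ k) x, ?_, fun x z => ?_⟩
  · exact contDiff_tsum (N := (n : ℕ∞)) (v := fun r k => |c * C r| * (1 / 2) ^ k)
      (fun k => ((L k).contDiff.comp (h.smooth k)).of_le (by exact_mod_cast le_top))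
      (fun r _ => summable_geometric_two.mul_left _)
      (fun r k x hr => hb r (by exact_mod_cast hr) k x)
  · have h1 : Summable fun k => (L k ∘ Ψ k) x :=
      Summable.of_norm_bounded (summable_geometric_two.mul_left _)
        (fun k => by simpa using hb 0 (Nat.zero_le n) k x)
    have h2 := (ContinuousLinearMap.apply ℝ E z).map_tsum h1
    simp only [ContinuousLinearMap.apply_apply] at h2
    rw [h2]
    refine tsum_congr fun k => ?_
    simp [L, smul_smul]

lemma joint (h : Fam μ a δ m₂ R B Ψ) {V : Type} [NormedAddCommGroup V] [NormedSpace ℝ V]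
    (ev : ℕ → V →L[ℝ] ℝ) (hev : ∀ k z, |ev k z| ≤ ‖z‖) (n : ℕ) {θ c : ℝ} (hθ : 0 < θ)
    (hθq : θ * μ ^ (3 + 2 * n) ≤ 1 / 2) {w : ℕ → ℝ} (hw : ∀ k, |w k| ≤ c * θ ^ k)
    {Z : ℝ → V} {s : Set ℝ} :
    (ContDiffOn ℝ n Z s → ContDiffOn ℝ n
      (fun p : ℝ × E => sm Ψ (fun k => w k * ev k (Z p.1)) p.2) (s ×ˢ Set.univ)) ∧
    ∀ t F x, HasDerivWithinAt Z F s t → HasDerivWithinAt
      (fun t => sm Ψ (fun k => w k * ev k (Z t)) x) (sm Ψ (fun k => w k * ev k F) x) s t := by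
  obtain ⟨Op, h1, h2⟩ := h.exists_Op ev hev n hθ hθq hw
  simp only [← h2]
  exact ⟨fun hZ => (h1.comp contDiff_snd).contDiffOn.clm_apply
    (hZ.comp contDiffOn_fst fun p hp => hp.1),
    fun t F x hZ => (Op x).hasFDerivAt.comp_hasDerivWithinAt t hZ⟩

lemma energy_le (h : Fam μ a δ m₂ R B Ψ) {X : ℕ → ℝ} {u : E → E} (hu : IsSum Ψ X u) {M : ℝ}
    (hM : ∀ n, ∑ k ∈ Finset.range n, X k ^ 2 ≤ M) : ∫ x, ‖u x‖ ^ 2 ≤ 2 * M := by
  have h1 : ∀ n, ∫ x, ‖ps Ψ X n x‖ ^ 2 = ∑ k ∈ Finset.range n, X k ^ 2 := fun n => by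
    have i1 : ∀ i j, Integrable fun x => X i * X j * inner ℝ (Ψ i x) (Ψ j x) := fun i j =>
      (integrable_inner_right (h.smooth i).continuous (h.smooth j).continuous
        (h.compact j)).const_mul _
    have e1 : ∀ x, ‖ps Ψ X n x‖ ^ 2 = ∑ i ∈ Finset.range n, ∑ j ∈ Finset.range n,
        X i * X j * inner ℝ (Ψ i x) (Ψ j x) := fun x => by
      rw [← real_inner_self_eq_norm_sq, ps, sum_inner]
      refine Finset.sum_congr rfl fun i _ => ?_
      rw [inner_sum]
      refine Finset.sum_congr rfl fun j _ => ?_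
      simp only [inner_smul_left, inner_smul_right, conj_trivial]
      ring
    simp_rw [e1]
    rw [integral_finsetSum _ fun i _ => integrable_finsetSum _ fun j _ => i1 i j]
    refine Finset.sum_congr rfl fun i hi => ?_
    rw [integral_finsetSum _ fun j _ => i1 i j]
    simp only [integral_const_mul, h.orth, mul_ite, mul_one, mul_zero, Finset.sum_ite_eq, hi,
      if_true]
    ring
  have h2 := (hu.lim.const_mul 2).add_const (2 * M)
  simp only [mul_zero, zero_add] at h2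
  refine ge_of_tendsto' h2 fun n => ?_
  have i1 : Integrable fun x => 2 * ‖u x - ps Ψ X n x‖ ^ 2 := (h.err_integrable hu n).const_mul 2
  have i2 : Integrable fun x => 2 * ‖ps Ψ X n x‖ ^ 2 :=
    (((h.ps_continuous X n).memLp_of_hasCompactSupport
      (h.ps_compact X n)).integrable_norm_pow two_ne_zero).const_mul 2
  have i3 : Integrable fun x => 2 * ‖u x - ps Ψ X n x‖ ^ 2 + 2 * ‖ps Ψ X n x‖ ^ 2 := i1.add i2
  have h3 := integral_mono (hu.l2.integrable_norm_pow two_ne_zero) i3 fun x => by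
    have h4 : ‖u x‖ ≤ ‖u x - ps Ψ X n x‖ + ‖ps Ψ X n x‖ := by
      simpa using norm_add_le (u x - ps Ψ X n x) (ps Ψ X n x)
    have h5 := pow_le_pow_left₀ (norm_nonneg _) h4 2
    simp only
    nlinarith [sq_nonneg (‖u x - ps Ψ X n x‖ - ‖ps Ψ X n x‖)]
  rw [integral_add i1 i2, integral_const_mul, integral_const_mul, h1] at h3
  linarith [hM n]

lemma norm_integrable (h : Fam μ a δ m₂ R B Ψ) (k : ℕ) : Integrable fun x => ‖Ψ k x‖ :=
  (h.smooth k).continuous.norm.integrable_of_hasCompactSupport (h.compact k).norm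

lemma coef_le_sup (h : Fam μ a δ m₂ R B Ψ) {u : E → E} {M : ℝ} (hM : ∀ x, ‖u x‖ ≤ M) (k : ℕ) :
    |∫ x, inner ℝ (u x) (Ψ k x)| ≤ M * (B / μ ^ (3 * k)) := by
  rw [← h.l1, ← integral_const_mul, ← Real.norm_eq_abs]
  refine norm_integral_le_of_norm_le ((h.norm_integrable k).const_mul M)
    (Eventually.of_forall fun x => ?_)
  exact (abs_real_inner_le_norm _ _).trans (mul_le_mul_of_nonneg_right (hM x) (norm_nonneg _))

lemma coef_le_lip (h : Fam μ a δ m₂ R B Ψ) {u : E → E} (hu : Continuous u) {K : ℝ} (hK : 0 ≤ K)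
    (hl : ∀ x, ‖x‖ ≤ R → ‖u x - u 0‖ ≤ K * ‖x‖) (k : ℕ) :
    |μ ^ (5 * k) * ∫ x, inner ℝ (u x) (Ψ k x)| ≤ K * R * B := by
  have hμ : 0 < μ := by linarith [h.hμ]
  have h0 := integral_inner_symm_affine ((h.smooth k).of_le one_le_infty) (h.compact k) (h.dv k) 0
    (by simp) (u 0)
  simp only [zero_apply, zero_add] at h0
  have h1 : ∫ x, inner ℝ (u x) (Ψ k x) = ∫ x, inner ℝ (u x - u 0) (Ψ k x) := by
    simp_rw [inner_sub_left]
    rw [integral_sub (integrable_inner_right hu (h.smooth k).continuous (h.compact k))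
      (integrable_inner_right continuous_const (h.smooth k).continuous (h.compact k)), h0, sub_zero]
  have h2 : |∫ x, inner ℝ (u x - u 0) (Ψ k x)| ≤ K * (R / (μ ^ 2) ^ k) * (B / μ ^ (3 * k)) := by
    rw [← h.l1, ← integral_const_mul, ← Real.norm_eq_abs]
    refine norm_integral_le_of_norm_le ((h.norm_integrable k).const_mul _)
      (Eventually.of_forall fun x => ?_)
    by_cases hx : Ψ k x = 0
    · simp [hx]
    · refine (abs_real_inner_le_norm _ _).trans (mul_le_mul_of_nonneg_right ?_ (norm_nonneg _))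
      exact (hl x (h.far' k x hx)).trans (mul_le_mul_of_nonneg_left (h.far k x hx) hK)
  rw [h1, abs_mul, abs_of_pos (by positivity)]
  refine (mul_le_mul_of_nonneg_left h2 (by positivity)).trans (le_of_eq ?_)
  field_simp
  ring

lemma par (h : Fam μ a δ m₂ R B Ψ) {ν A : ℝ} (hν : 0 < ν)
    (hA : (2240 * m₂ * μ ^ 4 / a + 1) * ν ≤ A) :
    Par (μ ^ 4) δ (μ ^ 10)⁻¹ (ν * m₂) (a * A) := by
  have hμ := h.hμ
  have ha := h.ha
  have hm := h.hm₂
  have hμ0 : 0 < μ := by linarith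
  have hA0 : 0 < A := lt_of_lt_of_le (by positivity) hA
  refine ⟨one_le_pow₀ h.one_le, by positivity, ?_, h.δ1, h.δ2, by positivity, by positivity, ?_⟩
  · have e : (μ ^ 10)⁻¹ * (560 * μ ^ 4) ^ 2 = 313600 / μ ^ 2 := by field_simp; ring
    rw [e, div_le_div_iff₀ (by positivity) (by norm_num)]
    nlinarith
  · have h1 := mul_le_mul_of_nonneg_left hA ha.le
    have e : a * ((2240 * m₂ * μ ^ 4 / a + 1) * ν) = 2240 * (ν * m₂) * μ ^ 4 + a * ν := by
      field_simp
    have : 0 < a * ν := by positivity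
    linarith

end Fam

end Pool.Agent.Work.MP_6bf1e5_an.Vortex
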